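import Pool.Agent.LibPR30.Defs
set_option autoImplicit false

/-!
Row PR30 A1. Numbers of tuples with given product and sum modulo `n`.
In the commutative ring `Λ = MonoidAlgebra (ZMod n) (Eˣ × Multiplicative E)` (char n): `X = ∑_y [y; y]`, `Y = ∑_y [y⁻¹; -y]`, `S = ∑_g [g; 0]`,
`P = ∑_{v ≠ 0} [1; v]`, `Q = P + 1`: `X Y = (S - 1) P`, `P² = -P`, `X S = P S`, `X Q = S Q`, `P Q = 0`, so `X^n Y = X^(n-1) + P S`.
-/

namespace Pool.Agent.LibPR30

open Polynomial Module

variable {E : Type} [Field E] [Fintype E] [DecidableEq E] {n : ℕ}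

section gen

variable {G : Type} [CommGroup G]

private theorem A1_coeff {ι : Type} [Fintype ι] (h : ι → G) (g : G) :
    (∑ i, MonoidAlgebra.of (ZMod n) G (h i)).coeff g = ((Nat.card {i : ι // h i = g} : ℕ) : ZMod n) := by
  classical
  rw [MonoidAlgebra.coeff_sum, Finset.sum_apply']
  have h1 : ∀ i : ι, (MonoidAlgebra.of (ZMod n) G (h i)).coeff g = if h i = g then 1 else 0 := by
    intro i
    rw [MonoidAlgebra.of_apply, MonoidAlgebra.coeff_single, Finsupp.single_apply]
  rw [Finset.sum_congr rfl fun i _ => h1 i, Finset.sum_boole, Nat.card_eq_fintype_card,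
    Fintype.card_subtype]

private theorem A1_even {R : Type} [CommRing R] (P : R) (h : P ^ 2 = -P) (k : ℕ) (hk : Odd k) :
    P ^ k = P := by
  obtain ⟨j, rfl⟩ := hk
  induction j with
  | zero => rw [mul_zero, zero_add, pow_one]
  | succ j ih =>
    have : P ^ (2 * (j + 1) + 1) = P ^ (2 * j + 1) * P ^ 2 := by ring
    rw [this, ih, h]
    have h3 : P * -P = -(P ^ 2) := by ring
    rw [h3, h, neg_neg]

/-- the final computation in the ring -/
private theorem A1_ring {R : Type} [CommRing R] (hn : Odd n) (hn3 : 3 ≤ n) (X Y S P : R)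
    (h1 : X * Y = (S - 1) * P) (h2 : P ^ 2 = -P) (h3 : X * S = P * S)
    (h4 : X * (P + 1) = S * (P + 1)) : X ^ n * Y = X ^ (n - 1) + P * S := by
  have h5 : ∀ k : ℕ, X ^ k * S = P ^ k * S := by
    intro k
    induction k with
    | zero => rw [pow_zero, pow_zero]
    | succ k ih => rw [pow_succ, mul_assoc, h3, pow_succ, ← mul_assoc, mul_comm (X ^ k) P, mul_assoc, ih]; ring
  have e1 : P ^ (n - 1) = -P := by
    obtain ⟨j, hj⟩ := hn
    have h6 : Odd (n - 2) := ⟨j - 1, by omega⟩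
    have h7 : n - 1 = (n - 2) + 1 := by omega
    rw [h7, pow_succ, A1_even P h2 _ h6, ← sq, h2]
  have e2 : P ^ (n - 2) = P := by
    obtain ⟨j, hj⟩ := hn
    exact A1_even P h2 _ ⟨j - 1, by omega⟩
  have h7 : n - 1 = (n - 2) + 1 := by omega
  have e3 : X ^ (n - 1) * (P + 1) = 0 := by
    rw [h7, pow_succ, mul_assoc, h4, ← mul_assoc, h5, e2]
    have : P * S * (P + 1) = (P ^ 2 + P) * S := by ring
    rw [this, h2]
    ring
  have h8 : n = (n - 1) + 1 := by omega
  have e4 : X ^ n * Y = X ^ (n - 1) * ((S - 1) * P) := by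
    rw [← h1, ← mul_assoc, ← pow_succ, ← h8]
  have e5 : X ^ (n - 1) * P = -X ^ (n - 1) := by
    linear_combination e3
  have e6 : X ^ (n - 1) * S = -P * S := by rw [h5, e1]
  rw [e4]
  linear_combination P * e6 - e5 - S * h2

end gen

/-- the group element `(y, y)` -/
private def A1_g (y : Eˣ) : Eˣ × Multiplicative E := (y, Multiplicative.ofAdd (y : E))

private theorem A1_main (hn : n.Prime) (hn2 : n ≠ 2) (hE : n ∣ Fintype.card E - 1) :
    (∑ y : Eˣ, MonoidAlgebra.of (ZMod n) (Eˣ × Multiplicative E) (A1_g y)) ^ n *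
      (∑ z : Eˣ, MonoidAlgebra.of (ZMod n) (Eˣ × Multiplicative E) (A1_g z)⁻¹) =
    (∑ y : Eˣ, MonoidAlgebra.of (ZMod n) (Eˣ × Multiplicative E) (A1_g y)) ^ (n - 1) +
      (∑ v : Eˣ, MonoidAlgebra.of (ZMod n) (Eˣ × Multiplicative E) (1, Multiplicative.ofAdd (v : E))) *
      (∑ u : Eˣ, MonoidAlgebra.of (ZMod n) (Eˣ × Multiplicative E) (u, 1)) := by
  have hcard : ((Fintype.card Eˣ : ℕ) : ZMod n) = 0 := by
    rw [Fintype.card_units]
    exact (ZMod.natCast_eq_zero_iff _ _).2 hE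
  have hodd : Odd n := hn.odd_of_ne_two hn2
  have hn3 : 3 ≤ n := by
    have := hn.two_le
    omega
  have hcL : ((Fintype.card Eˣ : ℕ) : MonoidAlgebra (ZMod n) (Eˣ × Multiplicative E)) = 0 := by
    have : ((Fintype.card Eˣ : ℕ) : MonoidAlgebra (ZMod n) (Eˣ × Multiplicative E)) =
        algebraMap (ZMod n) _ ((Fintype.card Eˣ : ℕ) : ZMod n) := by
      rw [map_natCast]
    rw [this, hcard, map_zero]
  set o := MonoidAlgebra.of (ZMod n) (Eˣ × Multiplicative E) with ho
  set P := ∑ v : Eˣ, o (1, Multiplicative.ofAdd (v : E)) with hP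
  set S := ∑ u : Eˣ, o (u, 1) with hS
  -- the sum over all of `E`
  have hQ : P + 1 = ∑ t : E, o (1, Multiplicative.ofAdd t) := by
    have h1 : ∑ v : Eˣ, o (1, Multiplicative.ofAdd (v : E)) =
        ∑ x ∈ (Finset.univ : Finset Eˣ).image (fun u : Eˣ => (u : E)), o (1, Multiplicative.ofAdd x) := by
      rw [Finset.sum_image]
      intro u _ v _ huv
      exact Units.ext huv
    have h2 : (Finset.univ : Finset Eˣ).image (fun u : Eˣ => (u : E)) = Finset.univ.erase 0 := by
      ext x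
      rw [Finset.mem_image, Finset.mem_erase]
      constructor
      · rintro ⟨u, _, rfl⟩
        exact ⟨u.ne_zero, Finset.mem_univ _⟩
      · rintro ⟨hx, _⟩
        exact ⟨Units.mk0 x hx, Finset.mem_univ _, rfl⟩
    have h3 : o (1, Multiplicative.ofAdd (0 : E)) = 1 := by
      rw [ofAdd_zero]
      exact map_one o
    rw [hP, h1, h2, ← h3, Finset.sum_erase_add _ _ (Finset.mem_univ 0)]
  have hQ2 : ∀ x : E, o (1, Multiplicative.ofAdd x) * (P + 1) = P + 1 := by
    intro x
    rw [hQ, Finset.mul_sum]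
    refine Fintype.sum_equiv (Equiv.addLeft x) _ _ fun t => ?_
    rw [← map_mul, Prod.mk_mul_mk, one_mul, ← ofAdd_add]
    rfl
  have hPQ : P * (P + 1) = 0 := by
    have h1 : P * (P + 1) = ∑ v : Eˣ, o (1, Multiplicative.ofAdd (v : E)) * (P + 1) :=
      Finset.sum_mul Finset.univ (fun v : Eˣ => o (1, Multiplicative.ofAdd (v : E))) (P + 1)
    rw [h1, Finset.sum_congr rfl fun (v : Eˣ) _ => hQ2 (v : E), Finset.sum_const,
      Finset.card_univ, nsmul_eq_mul, hcL, zero_mul]
  refine A1_ring hodd hn3 _ _ S P ?_ ?_ ?_ ?_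
  · -- `X Y = (S - 1) P`
    rw [Finset.sum_mul_sum, Finset.sum_comm]
    have h1 : ∀ z : Eˣ, ∑ y : Eˣ, o (A1_g y) * o (A1_g z)⁻¹ =
        ∑ u : Eˣ, o (u, Multiplicative.ofAdd (((u : E) - 1) * (z : E))) := by
      intro z
      refine Fintype.sum_equiv (Equiv.mulRight z⁻¹) _ _ fun y => ?_
      rw [← map_mul, Equiv.coe_mulRight]
      congr 1
      refine Prod.ext rfl ?_
      show Multiplicative.ofAdd (y : E) * (Multiplicative.ofAdd (z : E))⁻¹ = _
      rw [← ofAdd_neg, ← ofAdd_add]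
      congr 1
      rw [Units.val_mul, sub_mul, one_mul, mul_assoc, Units.inv_mul, mul_one, sub_eq_add_neg]
    rw [Finset.sum_congr rfl fun z _ => h1 z, Finset.sum_comm]
    have h2 : ∀ u : Eˣ, ∑ z : Eˣ, o (u, Multiplicative.ofAdd (((u : E) - 1) * (z : E))) =
        (o (u, 1) - if u = 1 then 1 else 0) * P := by
      intro u
      by_cases hu : u = 1
      · subst hu
        have h3 : ∀ z : Eˣ, o ((1 : Eˣ), Multiplicative.ofAdd ((((1 : Eˣ) : E) - 1) * (z : E))) = 1 := by
          intro z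
          rw [Units.val_one, sub_self, zero_mul, ofAdd_zero]
          exact map_one o
        have h4 : o ((1 : Eˣ), (1 : Multiplicative E)) = 1 := map_one o
        rw [Finset.sum_congr rfl fun z _ => h3 z, Finset.sum_const, Finset.card_univ, nsmul_eq_mul, hcL,
          if_pos rfl, h4, sub_self, zero_mul, zero_mul]
      · have hu1 : ((u : E) - 1) ≠ 0 := by
          intro h
          apply hu
          apply Units.ext
          rw [Units.val_one]
          exact sub_eq_zero.1 h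
        rw [if_neg hu, sub_zero, hP, Finset.mul_sum]
        refine Fintype.sum_equiv (Equiv.mulLeft (Units.mk0 _ hu1)) _ _ fun z => ?_
        rw [← map_mul, Prod.mk_mul_mk, mul_one, one_mul]
        rfl
    rw [Finset.sum_congr rfl fun u _ => h2 u, ← Finset.sum_mul, Finset.sum_sub_distrib]
    congr 2
    rw [Finset.sum_ite_eq' Finset.univ (1 : Eˣ) (fun _ => (1 : MonoidAlgebra (ZMod n) (Eˣ × Multiplicative E))),
      if_pos (Finset.mem_univ _)]
  · linear_combination hPQ
  · -- `X S = P S`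
    rw [Finset.sum_mul, hP, Finset.sum_mul]
    refine Finset.sum_congr rfl fun y _ => ?_
    rw [hS, Finset.mul_sum, Finset.mul_sum]
    refine Fintype.sum_equiv (Equiv.mulLeft y) _ _ fun u => ?_
    rw [← map_mul, ← map_mul]
    congr 1
    refine Prod.ext ?_ rfl
    show y * u = 1 * (y * u)
    rw [one_mul]
  · -- `X Q = S Q`
    rw [Finset.sum_mul, hS, Finset.sum_mul]
    refine Finset.sum_congr rfl fun y _ => ?_
    have h1 : o (A1_g y) = o (y, 1) * o (1, Multiplicative.ofAdd (y : E)) := by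
      rw [← map_mul, Prod.mk_mul_mk, mul_one, one_mul]
      rfl
    rw [h1, mul_assoc, hQ2]

theorem count_pred (hn : n.Prime) (hn2 : n ≠ 2) (hE : n ∣ Fintype.card E - 1) (m t : E)
    (hm : m ≠ 0) :
    ((Nat.card {y : Fin (n - 1) → E // ∏ i, y i = m ∧ ∑ i, y i = t} : ℕ) : ZMod n) =
      ((Nat.card {y : E // y ≠ 0 ∧ (n : E) * y ≠ t ∧ y ^ n = m * ((n : E) * y - t)} : ℕ) : ZMod n) +
        (if t = 0 then 1 else 0) - 1 := by
  have : Fact n.Prime := ⟨hn⟩
  have : CharP (MonoidAlgebra (ZMod n) (Eˣ × Multiplicative E)) n :=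
    charP_of_injective_algebraMap
      (algebraMap (ZMod n) (MonoidAlgebra (ZMod n) (Eˣ × Multiplicative E))).injective n
  have key := A1_main (E := E) hn hn2 hE
  set g₀ : Eˣ × Multiplicative E := (Units.mk0 m hm, Multiplicative.ofAdd t) with hg₀
  -- the power `n`
  rw [sum_pow_char, Finset.sum_mul_sum, Fintype.sum_pow, Finset.sum_mul_sum] at key
  have k1 : ∑ y : Eˣ, ∑ z : Eˣ, MonoidAlgebra.of (ZMod n) (Eˣ × Multiplicative E) (A1_g y) ^ n *
      MonoidAlgebra.of (ZMod n) (Eˣ × Multiplicative E) (A1_g z)⁻¹ =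
      ∑ w : Eˣ × Eˣ, MonoidAlgebra.of (ZMod n) (Eˣ × Multiplicative E)
        (A1_g w.1 ^ n * (A1_g w.2)⁻¹) := by
    rw [Fintype.sum_prod_type]
    refine Finset.sum_congr rfl fun y _ => Finset.sum_congr rfl fun z _ => ?_
    rw [map_mul, map_pow]
  have k2 : ∑ v : Eˣ, ∑ u : Eˣ, MonoidAlgebra.of (ZMod n) (Eˣ × Multiplicative E)
      (1, Multiplicative.ofAdd (v : E)) * MonoidAlgebra.of (ZMod n) (Eˣ × Multiplicative E) (u, 1) =
      ∑ w : Eˣ × Eˣ, MonoidAlgebra.of (ZMod n) (Eˣ × Multiplicative E)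
        (w.2, Multiplicative.ofAdd (w.1 : E)) := by
    rw [Fintype.sum_prod_type]
    refine Finset.sum_congr rfl fun y _ => Finset.sum_congr rfl fun z _ => ?_
    rw [← map_mul, Prod.mk_mul_mk, one_mul, mul_one]
  have k3 : ∑ p : Fin (n - 1) → Eˣ, ∏ i, MonoidAlgebra.of (ZMod n) (Eˣ × Multiplicative E)
      (A1_g (p i)) = ∑ p : Fin (n - 1) → Eˣ, MonoidAlgebra.of (ZMod n) (Eˣ × Multiplicative E)
      (∏ i, A1_g (p i)) := by
    refine Finset.sum_congr rfl fun p _ => ?_
    rw [map_prod]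
  rw [k1, k2, k3] at key
  have key2 := congrArg (fun x => MonoidAlgebra.coeff x g₀) key
  simp only [MonoidAlgebra.coeff_add, Finsupp.add_apply] at key2
  rw [A1_coeff, A1_coeff, A1_coeff] at key2
  -- the three numbers
  have c1 : Nat.card {i : Eˣ × Eˣ // A1_g i.1 ^ n * (A1_g i.2)⁻¹ = g₀} =
      Nat.card {y : E // y ≠ 0 ∧ (n : E) * y ≠ t ∧ y ^ n = m * ((n : E) * y - t)} := by
    have hiff : ∀ y z : Eˣ, A1_g y ^ n * (A1_g z)⁻¹ = g₀ ↔
        (y : E) ^ n = m * (z : E) ∧ (n : E) * (y : E) - z = t := by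
      intro y z
      rw [Prod.ext_iff]
      refine and_congr ?_ ?_
      · show y ^ n * z⁻¹ = Units.mk0 m hm ↔ _
        rw [mul_inv_eq_iff_eq_mul, Units.ext_iff, Units.val_pow_eq_pow_val, Units.val_mul, Units.val_mk0]
      · show Multiplicative.ofAdd (y : E) ^ n * (Multiplicative.ofAdd (z : E))⁻¹ =
          Multiplicative.ofAdd t ↔ _
        rw [← ofAdd_nsmul, ← ofAdd_neg, ← ofAdd_add, Multiplicative.ofAdd.injective.eq_iff,
          nsmul_eq_mul, sub_eq_add_neg]
    refine Nat.card_congr (Equiv.ofBijective (fun w => ⟨(w.1.1 : E), ?_⟩) ⟨?_, ?_⟩)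
    · obtain ⟨h1, h2⟩ := (hiff _ _).1 w.2
      have h3 : (n : E) * (w.1.1 : E) - t = (w.1.2 : E) := by rw [← h2]; ring
      refine ⟨w.1.1.ne_zero, ?_, ?_⟩
      · intro h4
        rw [h4, sub_self] at h3
        exact w.1.2.ne_zero h3.symm
      · rw [h3]
        exact h1
    · rintro ⟨⟨y, z⟩, h⟩ ⟨⟨y', z'⟩, h'⟩ he
      have he' : (y : E) = (y' : E) := congrArg Subtype.val he
      obtain ⟨-, h2⟩ := (hiff _ _).1 h
      obtain ⟨-, h2'⟩ := (hiff _ _).1 h'
      have hy : y = y' := Units.ext he'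
      subst hy
      have hz : z = z' := by
        apply Units.ext
        linear_combination h2' - h2
      subst hz
      rfl
    · rintro ⟨y, hy0, hyt, hy⟩
      refine ⟨⟨(Units.mk0 y hy0, Units.mk0 ((n : E) * y - t) (sub_ne_zero.2 hyt)),
        (hiff _ _).2 ⟨?_, ?_⟩⟩, rfl⟩
      · exact hy
      · show (n : E) * y - ((n : E) * y - t) = t
        ring
  have c2 : Nat.card {p : Fin (n - 1) → Eˣ // ∏ i, A1_g (p i) = g₀} =
      Nat.card {y : Fin (n - 1) → E // ∏ i, y i = m ∧ ∑ i, y i = t} := by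
    have hiff : ∀ p : Fin (n - 1) → Eˣ, ∏ i, A1_g (p i) = g₀ ↔
        ∏ i, (p i : E) = m ∧ ∑ i, (p i : E) = t := by
      intro p
      rw [Prod.ext_iff, Prod.fst_prod, Prod.snd_prod]
      refine and_congr ?_ ?_
      · show ∏ i, p i = Units.mk0 m hm ↔ _
        rw [Units.ext_iff, Units.val_mk0, Units.coe_prod]
      · show ∏ i, Multiplicative.ofAdd (p i : E) = Multiplicative.ofAdd t ↔ _
        rw [← ofAdd_sum, Multiplicative.ofAdd.injective.eq_iff]
    refine Nat.card_congr (Equiv.ofBijective (fun p => ⟨fun i => (p.1 i : E), (hiff _).1 p.2⟩) ⟨?_, ?_⟩)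
    · rintro ⟨p, hp⟩ ⟨p', hp'⟩ he
      have he' : (fun i => (p i : E)) = fun i => (p' i : E) := congrArg Subtype.val he
      have hpp : p = p' := funext fun i => Units.ext (congrFun he' i)
      subst hpp
      rfl
    · rintro ⟨y, hy1, hy2⟩
      have hy0 : ∀ i, y i ≠ 0 := by
        intro i hi
        apply hm
        rw [← hy1]
        exact Finset.prod_eq_zero (Finset.mem_univ i) hi
      exact ⟨⟨fun i => Units.mk0 (y i) (hy0 i), (hiff _).2 ⟨hy1, hy2⟩⟩, rfl⟩
  have c3 : ((Nat.card {i : Eˣ × Eˣ // (i.2, Multiplicative.ofAdd (i.1 : E)) = g₀} : ℕ) : ZMod n) =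
      1 - if t = 0 then 1 else 0 := by
    by_cases ht : t = 0
    · rw [if_pos ht, sub_self]
      have : IsEmpty {i : Eˣ × Eˣ // (i.2, Multiplicative.ofAdd (i.1 : E)) = g₀} := by
        refine ⟨fun w => ?_⟩
        have h1 : Multiplicative.ofAdd (w.1.1 : E) = Multiplicative.ofAdd t := (Prod.ext_iff.1 w.2).2
        rw [Multiplicative.ofAdd.injective.eq_iff, ht] at h1
        exact w.1.1.ne_zero h1
      rw [Nat.card_of_isEmpty, Nat.cast_zero]
    · rw [if_neg ht, sub_zero]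
      have : Nat.card {i : Eˣ × Eˣ // (i.2, Multiplicative.ofAdd (i.1 : E)) = g₀} = 1 := by
        rw [Nat.card_eq_one_iff_unique]
        refine ⟨⟨?_⟩, ⟨⟨(Units.mk0 t ht, Units.mk0 m hm), rfl⟩⟩⟩
        rintro ⟨⟨v, u⟩, h⟩ ⟨⟨v', u'⟩, h'⟩
        have h1 : u = u' := ((Prod.ext_iff.1 h).1).trans ((Prod.ext_iff.1 h').1).symm
        have h2 : Multiplicative.ofAdd (v : E) = Multiplicative.ofAdd (v' : E) :=
          ((Prod.ext_iff.1 h).2).trans ((Prod.ext_iff.1 h').2).symm
        have h3 : v = v' := Units.ext (Multiplicative.ofAdd.injective h2)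
        subst h1 h3
        rfl
      rw [this, Nat.cast_one]
  rw [c1, c2, c3] at key2
  linear_combination -key2

end Pool.Agent.LibPR30
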