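import Pool.Agent.LibPR30.Defs
set_option autoImplicit false

namespace Pool.Agent.LibPR30

open Polynomial Module

variable {E : Type} [Field E] [Fintype E] [DecidableEq E] {n : ℕ}

/-- the solutions -/
private abbrev SolA2 (E : Type) [Field E] (n : ℕ) (c s : E) : Type :=
  {y : Fin n → E // ∏ i, y i = c ∧ ∑ i, y i = s}

private def rotA2 [NeZero n] {c s : E} (k : Fin n) (y : SolA2 E n c s) : SolA2 E n c s :=
  ⟨fun i => y.1 (i + k), by
    have h1 := Equiv.prod_comp (Equiv.addRight k) y.1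
    have h2 := Equiv.sum_comp (Equiv.addRight k) y.1
    exact ⟨h1.trans y.2.1, h2.trans y.2.2⟩⟩

@[reducible] private def actA2 [NeZero n] (c s : E) : AddAction (Fin n) (SolA2 E n c s) where
  vadd k y := rotA2 k y
  zero_vadd y := by
    apply Subtype.ext
    funext i
    change y.1 (i + 0) = y.1 i
    rw [add_zero]
  add_vadd k l y := by
    apply Subtype.ext
    funext i
    change y.1 (i + (k + l)) = y.1 (i + k + l)
    rw [add_assoc]

omit [Field E] [Fintype E] [DecidableEq E] in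
private theorem constA2 [NeZero n] (hn : n.Prime) (y : Fin n → E) (k : Fin n) (hk : k ≠ 0)
    (h : ∀ i, y (i + k) = y i) (j : Fin n) : y j = y 0 := by
  let H : AddSubgroup (Fin n) :=
    { carrier := {l | ∀ i, y (i + l) = y i}
      zero_mem' := fun i => by rw [add_zero]
      add_mem' := by
        intro a b ha hb i
        rw [← add_assoc, hb, ha]
      neg_mem' := by
        intro a ha i
        have := ha (i + -a)
        rw [neg_add_cancel_right] at this
        exact this.symm }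
  have : Fact n.Prime := ⟨hn⟩
  have hs : IsSimpleAddGroup (Fin n) :=
    isSimpleAddGroup_of_prime_card (p := n) (by rw [Nat.card_eq_fintype_card, Fintype.card_fin])
  have hH : H = ⊥ ∨ H = ⊤ := (inferInstance : H.Normal).eq_bot_or_eq_top
  have hkH : k ∈ H := h
  rcases hH with hH | hH
  · rw [hH, AddSubgroup.mem_bot] at hkH
    exact absurd hkH hk
  · have hj : j ∈ H := by rw [hH]; exact AddSubgroup.mem_top j
    have := hj 0
    rwa [zero_add] at this

omit [Fintype E] [DecidableEq E] in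
private theorem freeA2 [NeZero n] (hn : n.Prime) (κ : Eˣ →* Multiplicative (ZMod n)) (c : Eˣ)
    (hc : κ c ≠ 1) (s : E) (k : Fin n) (y : SolA2 E n (c : E) s) (h : rotA2 k y = y) : k = 0 := by
  by_contra hk
  have h1 : ∀ i, y.1 (i + k) = y.1 i := fun i => congrFun (congrArg Subtype.val h) i
  have h2 := constA2 hn y.1 k hk h1
  have h3 : y.1 0 ^ n = (c : E) := by
    refine Eq.trans ?_ y.2.1
    rw [Finset.prod_congr rfl (fun j _ => h2 j), Finset.prod_const, Finset.card_univ,
      Fintype.card_fin]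
  have h0 : y.1 0 ≠ 0 := by
    intro h0
    rw [h0, zero_pow hn.ne_zero] at h3
    exact c.ne_zero h3.symm
  have h4 : (Units.mk0 (y.1 0) h0) ^ n = c := Units.ext (by rw [Units.val_pow_eq_pow_val]; exact h3)
  apply hc
  rw [← h4, map_pow]
  apply Multiplicative.toAdd.injective
  rw [toAdd_pow, toAdd_one, nsmul_eq_mul, CharP.cast_eq_zero, zero_mul]

omit [DecidableEq E] in
private theorem orbA2 [NeZero n] (hn : n.Prime) (κ : Eˣ →* Multiplicative (ZMod n)) (c : Eˣ)
    (hc : κ c ≠ 1) (s : E) (f : SolA2 E n (c : E) s → ZMod n) (v : ZMod n)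
    (hf : ∀ y, ∑ k : Fin n, f (rotA2 k y) = v) :
    ∃ M : ℕ, Nat.card (SolA2 E n (c : E) s) = n * M ∧
      v * (M : ZMod n) = ∑ᶠ y : SolA2 E n (c : E) s, f y := by
  classical
  let _ := actA2 (n := n) (c : E) s
  have hv : ∀ (k : Fin n) (y : SolA2 E n (c : E) s), k +ᵥ y = rotA2 k y := fun _ _ => rfl
  let Ω := Quotient (AddAction.orbitRel (Fin n) (SolA2 E n (c : E) s))
  let Φ : Ω × Fin n → SolA2 E n (c : E) s := fun p => p.2 +ᵥ p.1.out
  have hΦ : Function.Bijective Φ := by
    constructor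
    · rintro ⟨ω, k⟩ ⟨ω', k'⟩ h
      have h' : k +ᵥ ω.out = k' +ᵥ ω'.out := h
      have h1 : ω = ω' := by
        rw [← Quotient.out_eq ω, ← Quotient.out_eq ω']
        apply Quotient.sound
        change ω.out ∈ AddAction.orbit (Fin n) ω'.out
        refine ⟨-k + k', ?_⟩
        change (-k + k') +ᵥ ω'.out = ω.out
        rw [add_vadd, ← h', neg_vadd_vadd]
      subst h1
      have h2 : (-k' + k) +ᵥ ω.out = ω.out := by
        rw [add_vadd, h', neg_vadd_vadd]
      have h3 := freeA2 hn κ c hc s (-k' + k) ω.out h2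
      have h4 : k = k' := by
        have := congrArg (fun t => k' + t) h3
        simpa using this
      rw [h4]
    · intro y
      have h1 : (AddAction.orbitRel (Fin n) (SolA2 E n (c : E) s)).r y
          (Quotient.mk _ y : Ω).out := by
        apply Quotient.exact
        rw [Quotient.out_eq]
      obtain ⟨k, hk⟩ := h1
      exact ⟨(Quotient.mk _ y, k), hk⟩
  have : Fintype (SolA2 E n (c : E) s) := Fintype.ofFinite _
  have : Fintype Ω := Fintype.ofFinite _
  refine ⟨Fintype.card Ω, ?_, ?_⟩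
  · rw [Nat.card_eq_fintype_card, ← Fintype.card_congr (Equiv.ofBijective Φ hΦ), Fintype.card_prod,
      Fintype.card_fin, mul_comm]
  · rw [finsum_eq_sum_of_fintype, ← Equiv.sum_comp (Equiv.ofBijective Φ hΦ),
      Fintype.sum_prod_type]
    have : ∀ ω : Ω, ∑ k : Fin n, f ((Equiv.ofBijective Φ hΦ) (ω, k)) = v := fun ω => hf ω.out
    rw [Finset.sum_congr rfl (fun ω _ => this ω), Finset.sum_const, Finset.card_univ,
      nsmul_eq_mul, mul_comm]

omit [Fintype E] [DecidableEq E] in
private theorem neA2 {c : Eˣ} {s : E} (y : SolA2 E n (c : E) s) (i : Fin n) : y.1 i ≠ 0 := by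
  intro h
  have h1 := y.2.1
  rw [Finset.prod_eq_zero (Finset.mem_univ i) h] at h1
  exact c.ne_zero h1.symm

private def consA2 {m : ℕ} (c : Eˣ) (s : E) : SolA2 E (m + 1) (c : E) s ≃
    (Σ x : Eˣ, {y : Fin m → E // ∏ i, y i = ((c * x⁻¹ : Eˣ) : E) ∧ ∑ i, y i = s - (x : E)}) where
  toFun y := ⟨Units.mk0 (y.1 0) (neA2 y 0), ⟨fun i => y.1 i.succ, by
    have h1 := y.2.1
    have h2 := y.2.2
    rw [Fin.prod_univ_succ] at h1
    rw [Fin.sum_univ_succ] at h2
    constructor
    · rw [Units.val_mul, Units.val_inv_eq_inv_val, Units.val_mk0, eq_mul_inv_iff_mul_eq₀ (neA2 y 0),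
        mul_comm]
      exact h1
    · rw [Units.val_mk0]
      exact eq_sub_of_add_eq' h2⟩⟩
  invFun z := ⟨Fin.cons (z.1 : E) z.2.1, by
    rw [Fin.prod_univ_succ, Fin.sum_univ_succ]
    simp only [Fin.cons_zero, Fin.cons_succ]
    rw [z.2.2.1, z.2.2.2, Units.val_mul, Units.val_inv_eq_inv_val]
    constructor
    · field_simp
    · rw [add_sub_cancel]⟩
  left_inv y := by
    apply Subtype.ext
    exact Fin.cons_self_tail y.1
  right_inv z := by
    apply Sigma.subtype_ext
    · apply Units.ext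
      rfl
    · rfl

theorem rotation (hn : n.Prime) (κ : Eˣ →* Multiplicative (ZMod n)) (c : Eˣ) (hc : κ c ≠ 1)
    (s : E) : ∃ M : ℕ, dcount n (c : E) s = n * M ∧ (κ c).toAdd * (M : ZMod n) =
      ∑ x : Eˣ, (κ x).toAdd * ((Nat.card {y : Fin (n - 1) → E //
        ∏ i, y i = ((c * x⁻¹ : Eˣ) : E) ∧ ∑ i, y i = s - (x : E)} : ℕ) : ZMod n) := by
  classical
  obtain ⟨m, rfl⟩ : ∃ m, n = m + 1 := ⟨n - 1, by have := hn.pos; omega⟩
  obtain ⟨M, hM1, hM2⟩ := orbA2 hn κ c hc s
    (fun y => (κ (Units.mk0 (y.1 0) (neA2 y 0))).toAdd) (κ c).toAdd (by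
      intro y
      have h1 : ∏ k : Fin (m + 1), Units.mk0 (y.1 k) (neA2 y k) = c := by
        apply Units.ext
        rw [Units.coe_prod]
        exact y.2.1
      have h5 := congrArg (fun t => (κ t).toAdd) h1
      refine Eq.trans ?_ h5
      change _ = (κ (∏ k : Fin (m + 1), Units.mk0 (y.1 k) (neA2 y k))).toAdd
      rw [map_prod, toAdd_prod]
      refine Finset.sum_congr rfl fun k _ => ?_
      have h2 : (rotA2 k y).1 0 = y.1 k := by
        change y.1 (0 + k) = y.1 k
        rw [zero_add]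
      have h3 : Units.mk0 ((rotA2 k y).1 0) (neA2 (rotA2 k y) 0) = Units.mk0 (y.1 k) (neA2 y k) :=
        Units.ext h2
      rw [h3])
  refine ⟨M, hM1, hM2.trans ?_⟩
  have : Fintype (SolA2 E (m + 1) (c : E) s) := Fintype.ofFinite _
  have : ∀ x : Eˣ, Fintype {y : Fin m → E // ∏ i, y i = ((c * x⁻¹ : Eˣ) : E) ∧
    ∑ i, y i = s - (x : E)} := fun x => Fintype.ofFinite _
  rw [finsum_eq_sum_of_fintype, ← Equiv.sum_comp (consA2 c s).symm, Fintype.sum_sigma]
  refine Finset.sum_congr rfl fun x _ => ?_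
  have h4 : ∀ t : {y : Fin m → E // ∏ i, y i = ((c * x⁻¹ : Eˣ) : E) ∧ ∑ i, y i = s - (x : E)},
      (κ (Units.mk0 (((consA2 c s).symm ⟨x, t⟩).1 0)
        (neA2 ((consA2 c s).symm ⟨x, t⟩) 0))).toAdd = (κ x).toAdd := by
    intro t
    have : Units.mk0 (((consA2 c s).symm ⟨x, t⟩).1 0)
        (neA2 ((consA2 c s).symm ⟨x, t⟩) 0) = x := Units.ext rfl
    rw [this]
  rw [Finset.sum_congr rfl (fun t _ => h4 t), Finset.sum_const, Finset.card_univ, nsmul_eq_mul,
    mul_comm]
  congr 2
  exact (Nat.card_eq_fintype_card).symm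

end Pool.Agent.LibPR30
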