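import Pool.Agent.LibPR30.Defs
import Pool.Agent.LibPR30.A1
import Pool.Agent.LibPR30.A2
set_option autoImplicit false

/-!
From `rotation` and `count_pred` (Rows). `e = s^n - n^n c ≠ 0` (else `c = (s/n)^n`, `n ≠ 0` in E). Let `k x = (κ x).toAdd`. For unit `x`: `m = c/x`, `t = s - x`:
`# = #{y ≠ 0 : n y ≠ s - x, x y^n = c (n y - s + x)} + [x = s] - 1`. For `y ≠ 0` with `n y ≠ s` there is exactly one `x`, namely
`x = c (n y - s)/(y^n - c)` (`y^n ≠ c`), and for `n y = s` none. So
`k(c) M = ∑_{y ≠ 0, n y ≠ s} (k(c) + k(n y - s) - k(y^n - c)) + (if s ≠ 0 then k(s) else 0) - ∑_x k(x)`. Facts: `∑_{x unit} k x = 0` (all fibres of κ have the same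
size; n odd), `k(-1) = 0`, `∑_{y : E} k(y^n - c) = k(c)` (`∏_{y ≠ 0} (y^n - c)` is an n-th power: y ↦ y^n has fibres of size n on units), `q = 1` in ZMod n.
s ≠ 0: `= (q-2) k(c) - k(-s) - (k(c) - k(-c) - k((s/n)^n - c)) + k(s) = k(s^n - n^n c) - k(c)`; s = 0: `= 0 = k(-n^n c) - k(c)`. Checked numerically.
-/

namespace Pool.Agent.LibPR30

open Polynomial Module

variable {E : Type} [Field E] [Fintype E] [DecidableEq E] {n : ℕ}

/-- `κ` as a function on `E`, `0` at `0` -/
private noncomputable def A3_k (κ : Eˣ →* Multiplicative (ZMod n)) (x : E) : ZMod n :=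
  if h : x = 0 then 0 else (κ (Units.mk0 x h)).toAdd

private theorem A3_k_zero (κ : Eˣ →* Multiplicative (ZMod n)) : A3_k κ (0 : E) = 0 := dif_pos rfl

private theorem A3_k_unit (κ : Eˣ →* Multiplicative (ZMod n)) (u : Eˣ) : A3_k κ (u : E) = (κ u).toAdd := by
  unfold A3_k
  rw [dif_neg u.ne_zero, Units.mk0_val]

private theorem A3_k_mul (κ : Eˣ →* Multiplicative (ZMod n)) {x y : E} (hx : x ≠ 0) (hy : y ≠ 0) :
    A3_k κ (x * y) = A3_k κ x + A3_k κ y := by
  have h := map_mul κ (Units.mk0 x hx) (Units.mk0 y hy)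
  have e1 := A3_k_unit κ (Units.mk0 x hx * Units.mk0 y hy)
  have e2 := A3_k_unit κ (Units.mk0 x hx)
  have e3 := A3_k_unit κ (Units.mk0 y hy)
  rw [Units.val_mul, Units.val_mk0, Units.val_mk0] at e1
  rw [Units.val_mk0] at e2 e3
  rw [e1, e2, e3, h, toAdd_mul]

private theorem A3_k_one (κ : Eˣ →* Multiplicative (ZMod n)) : A3_k κ (1 : E) = 0 := by
  have h := A3_k_unit κ (1 : Eˣ)
  rw [Units.val_one, map_one, toAdd_one] at h
  exact h

private theorem A3_k_inv (κ : Eˣ →* Multiplicative (ZMod n)) (x : E) : A3_k κ x⁻¹ = -A3_k κ x := by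
  by_cases hx : x = 0
  · rw [hx, inv_zero, A3_k_zero, neg_zero]
  · have h := A3_k_mul κ hx (inv_ne_zero hx)
    rw [mul_inv_cancel₀ hx, A3_k_one] at h
    exact (neg_eq_of_add_eq_zero_right h.symm).symm

private theorem A3_k_pow (κ : Eˣ →* Multiplicative (ZMod n)) (x : E) (m : ℕ) (hm : m ≠ 0) :
    A3_k κ (x ^ m) = m * A3_k κ x := by
  by_cases hx : x = 0
  · rw [hx, zero_pow hm, A3_k_zero, mul_zero]
  · clear hm
    induction m with
    | zero => rw [pow_zero, A3_k_one, Nat.cast_zero, zero_mul]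
    | succ m ih =>
      rw [pow_succ, A3_k_mul κ (pow_ne_zero m hx) hx, ih]
      push_cast
      ring

private theorem A3_two (hn : n.Prime) (hn2 : n ≠ 2) {x : ZMod n} (h : x = -x) : x = 0 := by
  have : Fact n.Prime := ⟨hn⟩
  have h2 : (2 : ZMod n) ≠ 0 := by
    intro h2
    have h3 : ((2 : ℕ) : ZMod n) = 0 := by exact_mod_cast h2
    rw [ZMod.natCast_eq_zero_iff] at h3
    exact hn2 ((Nat.prime_dvd_prime_iff_eq hn Nat.prime_two).1 h3)
  have h4 : (2 : ZMod n) * x = 0 := by linear_combination h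
  exact (mul_eq_zero.1 h4).resolve_left h2

private theorem A3_k_neg (hn : n.Prime) (hn2 : n ≠ 2) (κ : Eˣ →* Multiplicative (ZMod n)) (x : E) :
    A3_k κ (-x) = A3_k κ x := by
  have h1 : A3_k κ (-1 : E) = 0 := by
    apply A3_two hn hn2
    have h := A3_k_inv κ (-1 : E)
    rw [inv_neg, inv_one] at h
    exact h
  by_cases hx : x = 0
  · rw [hx, neg_zero]
  · rw [neg_eq_neg_one_mul, A3_k_mul κ (neg_ne_zero.2 one_ne_zero) hx, h1, zero_add]

private theorem A3_sum (hn : n.Prime) (hn2 : n ≠ 2) (κ : Eˣ →* Multiplicative (ZMod n)) :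
    ∑ x : E, A3_k κ x = 0 := by
  apply A3_two hn hn2
  have h : ∑ x : E, A3_k κ x⁻¹ = ∑ x : E, A3_k κ x :=
    Equiv.sum_comp (Equiv.inv E) (A3_k κ)
  simp only [A3_k_inv] at h
  rw [Finset.sum_neg_distrib] at h
  exact h.symm

private theorem A3_units (f : E → ZMod n) (h0 : f 0 = 0) : ∑ x : Eˣ, f (x : E) = ∑ x : E, f x := by
  have h1 : ∑ x : E, f x = ∑ x ∈ Finset.univ.erase (0 : E), f x := by
    rw [← Finset.add_sum_erase Finset.univ f (Finset.mem_univ (0 : E)), h0, zero_add]
  rw [h1]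
  refine Finset.sum_bij (fun x _ => (x : E)) ?_ ?_ ?_ ?_
  · intro x _
    exact Finset.mem_erase.2 ⟨x.ne_zero, Finset.mem_univ _⟩
  · intro x _ y _ h
    exact Units.ext h
  · intro y hy
    exact ⟨Units.mk0 y (Finset.mem_erase.1 hy).1, Finset.mem_univ _, rfl⟩
  · intro x _
    rfl

private theorem A3_card (hn : n.Prime) (hE : n ∣ Fintype.card E - 1) :
    ((Fintype.card E : ℕ) : ZMod n) = 1 := by
  have h1 : 1 ≤ Fintype.card E := Fintype.card_pos
  have h2 : ((Fintype.card E - 1 : ℕ) : ZMod n) = 0 := (ZMod.natCast_eq_zero_iff _ _).2 hE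
  rw [Nat.cast_sub h1, Nat.cast_one, sub_eq_zero] at h2
  exact h2

private theorem A3_n_ne (hn : n.Prime) (hE : n ∣ Fintype.card E - 1) : (n : E) ≠ 0 := by
  intro h
  obtain ⟨p, hp⟩ := CharP.exists E
  obtain ⟨m, hpp, hm⟩ := FiniteField.card E p
  have h1 : p ∣ n := (CharP.cast_eq_zero_iff E p n).1 h
  have h2 : p = n := (Nat.prime_dvd_prime_iff_eq hpp hn).1 h1
  have h3 : n ∣ Fintype.card E := by
    rw [hm, h2]
    exact dvd_pow_self n m.ne_zero
  have h4 : 1 ≤ Fintype.card E := Fintype.card_pos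
  have h5 : n ∣ 1 := by
    have := (Nat.dvd_sub h3 hE)
    have h6 : Fintype.card E - (Fintype.card E - 1) = 1 := by omega
    rwa [h6] at this
  exact hn.one_lt.ne' (Nat.dvd_one.1 h5)

/-- the fibres of the power map have a multiple of `n` elements -/
private theorem A3_fib (hn : n.Prime) (hE : n ∣ Fintype.card E - 1) (z : Eˣ) :
    n ∣ (Finset.univ.filter fun y : Eˣ => y ^ n = z).card := by
  have : Fact n.Prime := ⟨hn⟩
  by_cases hz : z ∈ Set.range (powMonoidHom n : Eˣ →* Eˣ)
  · have h1 : (1 : Eˣ) ∈ Set.range (powMonoidHom n : Eˣ →* Eˣ) := ⟨1, map_one _⟩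
    have h2 := MonoidHom.card_fiber_eq_of_mem_range (powMonoidHom n : Eˣ →* Eˣ) hz h1
    simp only [powMonoidHom_apply] at h2
    rw [h2]
    have h3 : n ∣ Fintype.card Eˣ := by rwa [Fintype.card_units]
    obtain ⟨ζ, hζ⟩ := exists_prime_orderOf_dvd_card n h3
    have h4 : ζ ∈ (powMonoidHom n : Eˣ →* Eˣ).ker := by
      rw [MonoidHom.mem_ker, powMonoidHom_apply, ← hζ, pow_orderOf_eq_one]
    have h5 := Subgroup.orderOf_dvd_natCard _ h4
    rw [hζ] at h5
    have h6 : Nat.card (powMonoidHom n : Eˣ →* Eˣ).ker =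
        (Finset.univ.filter fun y : Eˣ => y ^ n = 1).card := by
      rw [← Fintype.card_subtype, ← Nat.card_eq_fintype_card]
      exact Nat.card_congr (Equiv.subtypeEquivRight fun y => by
        rw [MonoidHom.mem_ker, powMonoidHom_apply])
    rw [← h6]
    exact h5
  · have h1 : (Finset.univ.filter fun y : Eˣ => y ^ n = z) = ∅ := by
      apply Finset.filter_eq_empty_iff.2
      intro y _ h
      exact hz ⟨y, h⟩
    rw [h1, Finset.card_empty]
    exact dvd_zero n

private theorem A3_powsum (hn : n.Prime) (hE : n ∣ Fintype.card E - 1) (f : Eˣ → ZMod n) :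
    ∑ y : Eˣ, f (y ^ n) = 0 := by
  rw [← Finset.sum_fiberwise Finset.univ (fun y : Eˣ => y ^ n) (fun y => f (y ^ n))]
  apply Finset.sum_eq_zero
  intro z _
  have h1 : ∑ y ∈ Finset.univ.filter (fun y : Eˣ => y ^ n = z), f (y ^ n) =
      ∑ y ∈ Finset.univ.filter (fun y : Eˣ => y ^ n = z), f z := by
    refine Finset.sum_congr rfl fun y hy => ?_
    rw [(Finset.mem_filter.1 hy).2]
  rw [h1, Finset.sum_const, nsmul_eq_mul, (ZMod.natCast_eq_zero_iff _ _).2 (A3_fib hn hE z), zero_mul]

/-- the sum over all `y` of the values at `y ^ n - c` -/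
private theorem A3_sum_pow (hn : n.Prime) (hn2 : n ≠ 2) (hE : n ∣ Fintype.card E - 1)
    (κ : Eˣ →* Multiplicative (ZMod n)) (c : E) : ∑ y : E, A3_k κ (y ^ n - c) = A3_k κ c := by
  have h0 : (0 : E) ^ n = 0 := zero_pow hn.ne_zero
  have h1 := A3_units (n := n) (fun y : E => A3_k κ (y ^ n - c) - if y = 0 then A3_k κ (y ^ n - c) else 0)
    (by simp)
  rw [Finset.sum_sub_distrib, Finset.sum_sub_distrib, Finset.sum_ite_eq' Finset.univ (0 : E),
    if_pos (Finset.mem_univ _), h0, zero_sub, A3_k_neg hn hn2] at h1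
  have h2 : ∑ x : Eˣ, (if (x : E) = 0 then A3_k κ ((x : E) ^ n - c) else 0) = 0 :=
    Finset.sum_eq_zero fun x _ => if_neg x.ne_zero
  have h3 : ∑ x : Eˣ, A3_k κ ((x : E) ^ n - c) = 0 := by
    have := A3_powsum hn hE (fun z : Eˣ => A3_k κ ((z : E) - c))
    simp only [Units.val_pow_eq_pow_val] at this
    exact this
  rw [h2, h3] at h1
  linear_combination -h1

theorem dcount_mod (hn : n.Prime) (hn2 : n ≠ 2) (hE : n ∣ Fintype.card E - 1)
    (κ : Eˣ →* Multiplicative (ZMod n)) (c : Eˣ) (hc : κ c ≠ 1) (s : E) :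
    ∃ (M : ℕ) (e : Eˣ), (e : E) = s ^ n - (n : E) ^ n * c ∧ dcount n (c : E) s = n * M ∧
      (κ c).toAdd * (M : ZMod n) = (κ e).toAdd - (κ c).toAdd := by
  classical
  have : Fact n.Prime := ⟨hn⟩
  have hnE := A3_n_ne hn hE
  have hq := A3_card hn hE
  have hnn : (n : ZMod n) = 0 := ZMod.natCast_self n
  -- `c` is not an `n`-th power
  have hpow : ∀ y : E, y ^ n ≠ c := by
    intro y h
    apply hc
    have h1 : A3_k κ (c : E) = 0 := by
      rw [← h, A3_k_pow κ y n hn.ne_zero, hnn, zero_mul]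
    rw [A3_k_unit] at h1
    exact toAdd_eq_zero.1 h1
  have he0 : s ^ n - (n : E) ^ n * c ≠ 0 := by
    intro h
    apply hpow (s / n)
    rw [div_pow, div_eq_iff (pow_ne_zero n hnE)]
    linear_combination h
  obtain ⟨M, hM, hsum⟩ := rotation hn κ c hc s
  refine ⟨M, Units.mk0 _ he0, rfl, hM, ?_⟩
  rw [hsum]
  set K : E → ZMod n := A3_k κ with hK
  have hKc : (κ c).toAdd = K (c : E) := (A3_k_unit κ c).symm
  have hKe : (κ (Units.mk0 _ he0)).toAdd = K (s ^ n - (n : E) ^ n * c) :=
    (A3_k_unit κ (Units.mk0 _ he0)).symm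
  rw [hKc, hKe]
  -- the function `G`
  set G : E → ZMod n := fun y => K c + K (n * y - s) - K (y ^ n - c) with hG
  have hc0 : (c : E) ≠ 0 := c.ne_zero
  -- the sum over `x` for fixed `y`
  let P : Eˣ → E → Prop := fun x y =>
    y ≠ 0 ∧ (n : E) * y ≠ s - (x : E) ∧ y ^ n = ((c * x⁻¹ : Eˣ) : E) * ((n : E) * y - (s - (x : E)))
  have hT : ∀ y : E, ∑ x : Eˣ, K (x : E) * (if P x y then 1 else 0) =
      if y = 0 ∨ (n : E) * y = s then 0 else G y := by
    intro y
    by_cases hy : y = 0 ∨ (n : E) * y = s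
    · rw [if_pos hy]
      apply Finset.sum_eq_zero
      intro x _
      rw [if_neg, mul_zero]
      rintro ⟨h1, h2, h3⟩
      rcases hy with hy | hy
      · exact h1 hy
      · apply hpow y
        rw [h3, hy, Units.val_mul]
        have h4 : s - (s - (x : E)) = (x : E) := by ring
        rw [h4, mul_assoc, Units.inv_mul, mul_one]
    · rw [if_neg hy]
      push Not at hy
      obtain ⟨hy0, hys⟩ := hy
      have hd : y ^ n - (c : E) ≠ 0 := sub_ne_zero.2 (hpow y)
      have hs' : (n : E) * y - s ≠ 0 := sub_ne_zero.2 hys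
      have hx0 : (c : E) * ((n : E) * y - s) * (y ^ n - (c : E))⁻¹ ≠ 0 :=
        mul_ne_zero (mul_ne_zero hc0 hs') (inv_ne_zero hd)
      have hP : ∀ x : Eˣ, P x y ↔ x = Units.mk0 _ hx0 := by
        intro x
        have hx : (x : E) ≠ 0 := x.ne_zero
        have key : y ^ n = ((c * x⁻¹ : Eˣ) : E) * ((n : E) * y - (s - (x : E))) ↔
            (x : E) * (y ^ n - (c : E)) = (c : E) * ((n : E) * y - s) := by
          rw [Units.val_mul, Units.val_inv_eq_inv_val]
          constructor
          · intro h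
            have h1 : (x : E) * y ^ n = (c : E) * ((n : E) * y - (s - (x : E))) := by
              rw [h]
              field_simp
            linear_combination h1
          · intro h
            have h1 : (x : E) * y ^ n = (c : E) * ((n : E) * y - (s - (x : E))) := by
              linear_combination h
            have h2 : y ^ n = (x : E)⁻¹ * ((x : E) * y ^ n) := by
              rw [← mul_assoc, inv_mul_cancel₀ hx, one_mul]
            rw [h2, h1]
            ring
        constructor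
        · rintro ⟨-, -, h3⟩
          apply Units.ext
          rw [Units.val_mk0]
          have h4 := key.1 h3
          rw [← h4, mul_assoc, mul_inv_cancel₀ hd, mul_one]
        · intro h
          have h4 : (x : E) * (y ^ n - (c : E)) = (c : E) * ((n : E) * y - s) := by
            rw [h, Units.val_mk0, mul_assoc, inv_mul_cancel₀ hd, mul_one]
          refine ⟨hy0, ?_, key.2 h4⟩
          intro h5
          have h6 : (x : E) * y ^ n = 0 := by
            have : (x : E) * y ^ n = (c : E) * ((n : E) * y - (s - (x : E))) := by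
              linear_combination h4
            rw [this, h5, sub_self, mul_zero]
          exact (mul_ne_zero hx (pow_ne_zero n hy0)) h6
      have h1 : ∀ x : Eˣ, K (x : E) * (if P x y then 1 else 0) =
          if x = Units.mk0 _ hx0 then K (x : E) else 0 := by
        intro x
        by_cases hxx : x = Units.mk0 _ hx0
        · rw [if_pos ((hP x).2 hxx), if_pos hxx, mul_one]
        · rw [if_neg (fun h => hxx ((hP x).1 h)), if_neg hxx, mul_zero]
      rw [Finset.sum_congr rfl fun x _ => h1 x, Finset.sum_ite_eq' Finset.univ (Units.mk0 _ hx0),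
        if_pos (Finset.mem_univ _), Units.val_mk0]
      change A3_k κ _ = A3_k κ _ + A3_k κ _ - A3_k κ _
      rw [A3_k_mul κ (mul_ne_zero hc0 hs') (inv_ne_zero hd), A3_k_mul κ hc0 hs', A3_k_inv]
      ring
  -- the terms of the sum
  have hterm : ∀ x : Eˣ, (κ x).toAdd * ((Nat.card {y : Fin (n - 1) → E //
        ∏ i, y i = ((c * x⁻¹ : Eˣ) : E) ∧ ∑ i, y i = s - (x : E)} : ℕ) : ZMod n) =
      ∑ y : E, K (x : E) * (if P x y then 1 else 0) + (if (x : E) = s then K (x : E) else 0) - K (x : E) := by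
    intro x
    rw [count_pred hn hn2 hE _ _ (Units.ne_zero (c * x⁻¹))]
    have h1 : ((Nat.card {y : E // y ≠ 0 ∧ (n : E) * y ≠ s - (x : E) ∧
        y ^ n = ((c * x⁻¹ : Eˣ) : E) * ((n : E) * y - (s - (x : E)))} : ℕ) : ZMod n) =
        ∑ y : E, (if P x y then 1 else 0) := by
      rw [Finset.sum_boole, Nat.card_eq_fintype_card, Fintype.card_subtype]
    rw [h1, ← Finset.mul_sum, ← A3_k_unit κ x]
    by_cases hxs : (x : E) = s
    · rw [if_pos hxs, if_pos (by rw [hxs, sub_self])]
      change K (x : E) * _ = K (x : E) * _ + _ - _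
      ring
    · rw [if_neg hxs, if_neg (fun h => hxs (sub_eq_zero.1 h).symm)]
      change K (x : E) * _ = K (x : E) * _ + _ - _
      ring
  rw [Finset.sum_congr rfl fun x _ => hterm x, Finset.sum_sub_distrib, Finset.sum_add_distrib,
    Finset.sum_comm, Finset.sum_congr rfl fun y _ => hT y]
  have hK0 : K 0 = 0 := A3_k_zero κ
  have hKsum : ∑ x : E, K x = 0 := A3_sum hn hn2 κ
  have e1 : ∑ x : Eˣ, K (x : E) = 0 := by rw [A3_units K hK0, hKsum]
  have e2 : ∑ x : Eˣ, (if (x : E) = s then K (x : E) else 0) = K s := by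
    rw [A3_units (fun x : E => if x = s then K x else 0) (by rw [hK0]; exact ite_self 0),
      Finset.sum_ite_eq' Finset.univ s, if_pos (Finset.mem_univ _)]
  have e3 : ∑ y : E, G y = 0 := by
    simp only [hG]
    rw [Finset.sum_sub_distrib, Finset.sum_add_distrib, Finset.sum_const, Finset.card_univ, nsmul_eq_mul,
      hq, one_mul, A3_sum_pow hn hn2 hE κ c]
    have h1 : ∑ y : E, K ((n : E) * y - s) = ∑ y : E, K y :=
      Equiv.sum_comp ((Equiv.mulLeft₀ (n : E) hnE).trans (Equiv.subRight s)) K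
    rw [h1, hKsum]
    ring
  have hG0 : G 0 = K s := by
    simp only [hG]
    rw [mul_zero, zero_sub, zero_pow hn.ne_zero, zero_sub, hK, A3_k_neg hn hn2, A3_k_neg hn hn2]
    ring
  have hpn : A3_k κ ((n : E) ^ n) = 0 := by rw [A3_k_pow κ _ n hn.ne_zero, hnn, zero_mul]
  rw [e1, e2]
  by_cases hs : s = 0
  · have h1 : ∀ y : E, (if y = 0 ∨ (n : E) * y = s then 0 else G y) = G y - if y = 0 then G y else 0 := by
      intro y
      by_cases hy : y = 0
      · rw [if_pos (Or.inl hy), if_pos hy, sub_self]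
      · rw [if_neg, if_neg hy, sub_zero]
        rintro (h | h)
        · exact hy h
        · rw [hs] at h
          exact (mul_ne_zero hnE hy) h
    rw [Finset.sum_congr rfl fun y _ => h1 y, Finset.sum_sub_distrib, e3, Finset.sum_ite_eq' Finset.univ (0 : E),
      if_pos (Finset.mem_univ _), hG0]
    have h2 : K (s ^ n - (n : E) ^ n * c) = K c := by
      rw [hs, zero_pow hn.ne_zero, zero_sub, hK, A3_k_neg hn hn2, A3_k_mul κ (pow_ne_zero n hnE) hc0, hpn,
        zero_add]
    rw [h2]
    ring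
  · have hsn : s / n ≠ 0 := div_ne_zero hs hnE
    have h1 : ∀ y : E, (if y = 0 ∨ (n : E) * y = s then 0 else G y) =
        G y - (if y = 0 then G y else 0) - if y = s / n then G y else 0 := by
      intro y
      by_cases hy : y = 0
      · rw [if_pos (Or.inl hy), if_pos hy, if_neg (by rw [hy]; exact hsn.symm)]
        ring
      · by_cases hy2 : y = s / n
        · rw [if_pos (Or.inr (by rw [hy2]; exact mul_div_cancel₀ s hnE)), if_neg hy, if_pos hy2]
          ring
        · rw [if_neg, if_neg hy, if_neg hy2]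
          · ring
          · rintro (h | h)
            · exact hy h
            · exact hy2 (by rw [eq_div_iff hnE, mul_comm]; exact h)
    have hGs : G (s / n) = K c - K (s ^ n - (n : E) ^ n * c) := by
      have h2 : K ((s / n) ^ n - c) = K (s ^ n - (n : E) ^ n * c) := by
        have h3 : s ^ n - (n : E) ^ n * c = (n : E) ^ n * ((s / n) ^ n - c) := by
          rw [div_pow]
          have := pow_ne_zero n hnE
          field_simp
        rw [h3, hK, A3_k_mul κ (pow_ne_zero n hnE) (sub_ne_zero.2 (hpow _)), hpn, zero_add]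
      simp only [hG]
      rw [h2, mul_div_cancel₀ s hnE, sub_self, hK0]
      ring
    rw [Finset.sum_congr rfl fun y _ => h1 y, Finset.sum_sub_distrib, Finset.sum_sub_distrib, e3,
      Finset.sum_ite_eq' Finset.univ (0 : E), if_pos (Finset.mem_univ _), Finset.sum_ite_eq' Finset.univ (s / n),
      if_pos (Finset.mem_univ _), hG0, hGs]
    ring

end Pool.Agent.LibPR30
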