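import Pool.Agent.LibPR30.Defs
set_option autoImplicit false

/-!
Row PR30 K4.
`exists_tow`: `FiniteField.Extension F p k` (`FiniteField.finrank_extension`), `card_tow`, and the order of `χ ∘ N`.
-/

namespace Pool.Agent.LibPR30

open Polynomial Module

variable {F : Type} [Field F] [Finite F]

theorem exists_tow (F : Type) [Field F] [Finite F] : Nonempty (Tow F) := by
  obtain ⟨p, hp⟩ := CharP.exists F
  have : Fact p.Prime := ⟨CharP.char_is_prime F p⟩
  have hnz : ∀ k : ℕ, NeZero (max k 1) := fun k => ⟨by omega⟩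
  refine ⟨{
    E := fun k => FiniteField.Extension F p (max k 1)
    fld := fun k => inferInstance
    fin := fun k => Fintype.ofFinite _
    dec := fun k => Classical.decEq _
    alg := fun k => inferInstance
    rank := ?_ }⟩
  intro k hk
  have h1 : finrank F (FiniteField.Extension F p (max k 1)) = max k 1 :=
    FiniteField.finrank_extension F p (max k 1)
  exact h1.trans (max_eq_left (show 1 ≤ k from hk))

theorem card_tow (𝓔 : Tow F) (k : ℕ) (hk : 0 < k) : Fintype.card (𝓔.E k) = Nat.card F ^ k := by
  have h1 : Nat.card (𝓔.E k) = Nat.card F ^ finrank F (𝓔.E k) := Module.natCard_eq_pow_finrank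
  rw [𝓔.rank k hk, Nat.card_eq_fintype_card] at h1
  exact h1

theorem nch_pow (χ : MulChar F ℂ) (K : Type) [Field K] [Finite K] [Algebra F K] (m : ℕ) :
    nch χ K ^ m = nch (χ ^ m) K := by
  ext a
  rw [MulChar.pow_apply_coe]
  have h1 : ((Units.map (Algebra.norm F : K →* F) a : Fˣ) : F) = Algebra.norm F (a : K) := rfl
  change (χ (Algebra.norm F (a : K))) ^ m = (χ ^ m) (Algebra.norm F (a : K))
  rw [← h1, MulChar.pow_apply_coe]

private lemma nch_eq_one (φ : MulChar F ℂ) (K : Type) [Field K] [Finite K] [Algebra F K] :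
    nch φ K = 1 ↔ φ = 1 := by
  constructor
  · intro h
    ext u
    obtain ⟨x, hx⟩ := FiniteField.unitsMap_norm_surjective F K u
    have h1 : nch φ K (x : K) = 1 := by rw [h, MulChar.one_apply_coe]
    have h2 : ((u : Fˣ) : F) = Algebra.norm F (x : K) := by rw [← hx]; rfl
    rw [MulChar.one_apply_coe, h2]
    exact h1
  · rintro rfl
    ext a
    rw [MulChar.one_apply_coe]
    have h1 : ((Units.map (Algebra.norm F : K →* F) a : Fˣ) : F) = Algebra.norm F (a : K) := rfl
    change (1 : MulChar F ℂ) (Algebra.norm F (a : K)) = 1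
    rw [← h1, MulChar.one_apply_coe]

theorem orderOf_nch (χ : MulChar F ℂ) (K : Type) [Field K] [Finite K] [Algebra F K] :
    orderOf (nch χ K) = orderOf χ := by
  rw [orderOf_eq_orderOf_iff]
  intro m
  rw [nch_pow, nch_eq_one]

theorem nch_algebraMap (χ : MulChar F ℂ) (K : Type) [Field K] [Finite K] [Algebra F K] (x : F) :
    nch χ K (algebraMap F K x) = χ x ^ finrank F K := by
  change χ (Algebra.norm F (algebraMap F K x)) = χ x ^ finrank F K
  rw [Algebra.norm_algebraMap, map_pow]

end Pool.Agent.LibPR30
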