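import Pool.Agent.LibPR30.Defs
set_option autoImplicit false

/-!
`lp f * f = -X f'` characterises `lp f` (`PowerSeries.mul_invOfUnit`, constant coefficient 1).
-/

namespace Pool.Agent.LibPR30

open Polynomial Module

variable {R : Type*} [CommRing R]

theorem m1_inv (f : R[X]) (hf : f.coeff 0 = 1) :
    (f : PowerSeries R) * PowerSeries.invOfUnit (f : PowerSeries R) 1 = 1 := by
  apply PowerSeries.mul_invOfUnit
  simp [← PowerSeries.coeff_zero_eq_constantCoeff_apply, hf]

theorem m1_spec (f : R[X]) (hf : f.coeff 0 = 1) :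
    lp f * (f : PowerSeries R) = -(PowerSeries.X * ((derivative f : R[X]) : PowerSeries R)) := by
  unfold lp
  rw [mul_assoc, mul_comm (PowerSeries.invOfUnit _ _), m1_inv f hf, mul_one]

theorem m1_unique (f : R[X]) (hf : f.coeff 0 = 1) (A : PowerSeries R)
    (hA : A * (f : PowerSeries R) = -(PowerSeries.X * ((derivative f : R[X]) : PowerSeries R))) :
    lp f = A := by
  have h := m1_spec f hf
  rw [← hA] at h
  have h2 := congrArg (· * PowerSeries.invOfUnit (f : PowerSeries R) 1) h
  simp only [mul_assoc, m1_inv f hf, mul_one] at h2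
  exact h2

theorem lp_mul (f g : R[X]) (hf : f.coeff 0 = 1) (hg : g.coeff 0 = 1) :
    lp (f * g) = lp f + lp g := by
  apply m1_unique
  · rw [Polynomial.mul_coeff_zero, hf, hg, one_mul]
  · have h1 := m1_spec f hf
    have h2 := m1_spec g hg
    rw [Polynomial.derivative_mul]
    push_cast
    calc (lp f + lp g) * ((f : PowerSeries R) * (g : PowerSeries R))
        = (lp f * (f : PowerSeries R)) * (g : PowerSeries R)
          + (lp g * (g : PowerSeries R)) * (f : PowerSeries R) := by ring
      _ = _ := by rw [h1, h2]; ring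

theorem lp_one : lp (1 : R[X]) = 0 := by
  apply m1_unique
  · simp
  · simp

theorem coeff_lp_linear (a : R) (j : ℕ) (hj : 0 < j) :
    PowerSeries.coeff j (lp (1 - C a * X)) = a ^ j := by
  have h : lp (1 - C a * X) = PowerSeries.mk (fun n => if n = 0 then 0 else a ^ n) := by
    apply m1_unique
    · simp
    · have hd : derivative (1 - C a * X : R[X]) = -C a := by simp
      rw [hd]
      push_cast
      ext n
      rw [mul_sub, mul_one]
      rw [map_sub]
      rcases n with _ | n
      · simp
      · rw [show (PowerSeries.mk fun n => if n = 0 then (0 : R) else a ^ n) *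
            (PowerSeries.C a * PowerSeries.X) = (PowerSeries.C a *
            (PowerSeries.mk fun n => if n = 0 then (0 : R) else a ^ n)) * PowerSeries.X by ring]
        rw [PowerSeries.coeff_succ_mul_X, PowerSeries.coeff_C_mul, PowerSeries.coeff_mk,
          PowerSeries.coeff_mk]
        rw [show -(PowerSeries.X * -(PowerSeries.C a)) = PowerSeries.C a * (PowerSeries.X : PowerSeries R) by ring,
          PowerSeries.coeff_C_mul, PowerSeries.coeff_X]
        rcases n with _ | n
        · simp
        · simp [pow_succ]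
          ring
  rw [h, PowerSeries.coeff_mk, if_neg (by omega)]

theorem coeff_lp_prod {ι : Type*} (s : Finset ι) (a : ι → R) (j : ℕ) (hj : 0 < j) :
    PowerSeries.coeff j (lp (∏ i ∈ s, (1 - C (a i) * X))) = ∑ i ∈ s, a i ^ j := by
  classical
  have h0 : ∀ t : Finset ι, (∏ i ∈ t, (1 - C (a i) * X : R[X])).coeff 0 = 1 := by
    intro t
    rw [Polynomial.coeff_zero_eq_eval_zero, Polynomial.eval_prod]
    simp
  induction s using Finset.induction_on with
  | empty => simp [lp_one]
  | insert i s hi ih =>
    rw [Finset.prod_insert hi, Finset.sum_insert hi, lp_mul _ _ (by simp) (h0 s), map_add, ih,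
      coeff_lp_linear _ _ hj]

theorem lp_map {S : Type*} [CommRing S] (φ : R →+* S) (f : R[X]) (hf : f.coeff 0 = 1) :
    PowerSeries.map φ (lp f) = lp (f.map φ) := by
  symm
  apply m1_unique
  · rw [Polynomial.coeff_map, hf, map_one]
  · have h := congrArg (PowerSeries.map φ) (m1_spec f hf)
    rw [map_mul, map_neg, map_mul, PowerSeries.map_X, ← Polynomial.polynomial_map_coe,
      ← Polynomial.polynomial_map_coe] at h
    rw [h, Polynomial.derivative_map]

theorem lp_rec (f : R[X]) (hf : f.coeff 0 = 1) (j : ℕ) (hj : 0 < j) :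
    ∑ i ∈ Finset.range j, f.coeff i * PowerSeries.coeff (j - i) (lp f) = -(j : R) * f.coeff j := by
  have h := congrArg (PowerSeries.coeff j) (m1_spec f hf)
  rw [mul_comm, PowerSeries.coeff_mul, Finset.Nat.sum_antidiagonal_eq_sum_range_succ
    (fun p q => PowerSeries.coeff p (f : PowerSeries R) * PowerSeries.coeff q (lp f)),
    Finset.sum_range_succ] at h
  have h0 : PowerSeries.coeff 0 (lp f) = 0 := by
    unfold lp
    simp
  simp only [Nat.sub_self, h0, mul_zero, add_zero, Polynomial.coeff_coe] at h
  rw [h]
  obtain ⟨k, rfl⟩ : ∃ k, j = k + 1 := ⟨j - 1, by omega⟩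
  rw [map_neg, mul_comm PowerSeries.X, PowerSeries.coeff_succ_mul_X, Polynomial.coeff_coe,
    Polynomial.coeff_derivative]
  push_cast
  ring

end Pool.Agent.LibPR30
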