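import Pool.Agent.LibPR30.Defs
set_option autoImplicit false

/-!
Elementary rules. `dj_pow`: binomial theorem (`add_pow`, `(-1)^(j+k) = (-1)^(j-k)`).
`dj_pow_mul`: put `T k = ∑_{i ≤ k} (k.choose i) dj T i` (inversion) or use the operators
`E` (shift) and `M` (multiplication by `w^k`) on `ℕ → ℂ`: `dj T j = ((E - 1)^j T) 0`,
`(E - 1) M = M ((w - 1) + w (E - 1))`, so `(E-1)^j M = M ((w-1) + w (E-1))^j`, commuting binomial theorem.
`good_pow_mul`: by `dj_pow_mul` the term `i` is `l^(2(j-i)) l^i * (element of V)`; for `i < j` it is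
`l^(j+1) *` an element of V, so `Lead .. j .. 0` (`lead_lt`); for `i = j` it is `w^j dj T j`,
and `w` has residue 1.
-/

namespace Pool.Agent.LibPR30

open Polynomial Module

variable {V : ValuationSubring ℂ} {l : ℂ}

private theorem neg_one_par {j k : ℕ} (h : k ≤ j) : (-1 : ℂ) ^ (j + k) = (-1) ^ (j - k) := by
  obtain ⟨d, rfl⟩ := Nat.exists_eq_add_of_le h
  rw [Nat.add_sub_cancel_left, show k + d + k = d + 2 * k by ring, pow_add, pow_mul]
  norm_num

private noncomputable def shE : Module.End ℂ (ℕ → ℂ) where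
  toFun T := fun k => T (k + 1)
  map_add' _ _ := rfl
  map_smul' _ _ := rfl

private noncomputable def mulE (w : ℂ) : Module.End ℂ (ℕ → ℂ) where
  toFun T := fun k => w ^ k * T k
  map_add' T T' := by
    funext k
    exact mul_add _ _ _
  map_smul' a T := by
    funext k
    simp only [Pi.smul_apply, smul_eq_mul, RingHom.id_apply]
    ring

private noncomputable def dfE : Module.End ℂ (ℕ → ℂ) := shE + (-1 : ℂ) • 1

private theorem shE_pow (m : ℕ) (T : ℕ → ℂ) (k : ℕ) : ((shE ^ m) T) k = T (k + m) := by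
  induction m generalizing T k with
  | zero => simp
  | succ m ih =>
    rw [pow_succ, Module.End.mul_apply, ih]
    rfl

private theorem dj_eq (T : ℕ → ℂ) (j : ℕ) : dj T j = ((dfE ^ j) T) 0 := by
  have hc : Commute shE ((-1 : ℂ) • (1 : Module.End ℂ (ℕ → ℂ))) := ((Commute.one_right _).smul_right _)
  unfold dfE dj
  rw [hc.add_pow, LinearMap.sum_apply, Finset.sum_apply]
  refine Finset.sum_congr rfl fun i hi => ?_
  have hi' : i ≤ j := Nat.lt_succ_iff.1 (Finset.mem_range.1 hi)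
  rw [neg_one_par hi', _root_.smul_pow, one_pow]
  simp only [Module.End.mul_apply, LinearMap.smul_apply, Module.End.natCast_apply, Module.End.one_apply,
    ← Nat.cast_smul_eq_nsmul ℂ, Pi.smul_apply, smul_eq_mul, shE_pow, zero_add]
  ring

private theorem mulE_eq (w : ℂ) (T : ℕ → ℂ) (j : ℕ) :
    ((dfE ^ j) (fun k => w ^ k * T k)) 0 = ((dfE ^ j * mulE w) T) 0 := rfl

private theorem mulE_zero (w : ℂ) (T : ℕ → ℂ) : (mulE w T) 0 = T 0 := by
  show w ^ 0 * T 0 = T 0
  rw [pow_zero, one_mul]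

private theorem comm_one (w : ℂ) : dfE * mulE w = mulE w * (w • dfE + (w - 1) • 1) := by
  ext T k
  show w ^ (k + 1) * T (k + 1) + (-1 : ℂ) • (w ^ k * T k) =
    w ^ k * (w • (T (k + 1) + (-1 : ℂ) • T k) + (w - 1) • T k)
  simp only [smul_eq_mul]
  ring

private theorem comm_pow (w : ℂ) (j : ℕ) : dfE ^ j * mulE w = mulE w * (w • dfE + (w - 1) • 1) ^ j := by
  induction j with
  | zero => simp
  | succ j ih => rw [pow_succ, mul_assoc, comm_one, ← mul_assoc, ih, mul_assoc, ← pow_succ]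

theorem lead_add {j : ℕ} {x y : ℂ} {u v : RF V} (hx : Lead V l j x u) (hy : Lead V l j y v) :
    Lead V l j (x + y) (u + v) := by
  obtain ⟨a, ha, rfl⟩ := hx
  obtain ⟨b, hb, rfl⟩ := hy
  refine ⟨a + b, ?_, map_add _ _ _⟩
  rw [ha, hb]
  push_cast
  ring

theorem lead_neg {j : ℕ} {x : ℂ} {u : RF V} (hx : Lead V l j x u) : Lead V l j (-x) (-u) := by
  obtain ⟨a, ha, rfl⟩ := hx
  refine ⟨-a, ?_, map_neg _ _⟩
  rw [ha]
  push_cast
  ring

theorem lead_sub {j : ℕ} {x y : ℂ} {u v : RF V} (hx : Lead V l j x u) (hy : Lead V l j y v) :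
    Lead V l j (x - y) (u - v) := by
  rw [sub_eq_add_neg, sub_eq_add_neg]
  exact lead_add hx (lead_neg hy)

theorem lead_zero (j : ℕ) : Lead V l j 0 0 := by
  exact ⟨0, by simp, map_zero _⟩

theorem lead_mul {i j : ℕ} {x y : ℂ} {u v : RF V} (hx : Lead V l i x u) (hy : Lead V l j y v) :
    Lead V l (i + j) (x * y) (u * v) := by
  obtain ⟨a, ha, rfl⟩ := hx
  obtain ⟨b, hb, rfl⟩ := hy
  refine ⟨a * b, ?_, map_mul _ _ _⟩
  rw [ha, hb]
  push_cast
  ring

theorem lead_sum {ι : Type*} (s : Finset ι) {j : ℕ} (f : ι → ℂ) (g : ι → RF V)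
    (h : ∀ i ∈ s, Lead V l j (f i) (g i)) : Lead V l j (∑ i ∈ s, f i) (∑ i ∈ s, g i) := by
  classical
  induction s using Finset.induction_on with
  | empty => simpa using lead_zero (V := V) (l := l) j
  | insert a s ha ih =>
    rw [Finset.sum_insert ha, Finset.sum_insert ha]
    exact lead_add (h a (Finset.mem_insert_self a s)) (ih fun i hi => h i (Finset.mem_insert_of_mem hi))

theorem lead_prod {ι : Type*} (s : Finset ι) (f : ι → ℂ) (g : ι → RF V)
    (h : ∀ i ∈ s, Lead V l 1 (f i) (g i)) : Lead V l s.card (∏ i ∈ s, f i) (∏ i ∈ s, g i) := by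
  classical
  induction s using Finset.induction_on with
  | empty => exact ⟨1, by simp, by simp⟩
  | insert a s ha ih =>
    rw [Finset.prod_insert ha, Finset.prod_insert ha, Finset.card_insert_of_notMem ha, add_comm]
    exact lead_mul (h a (Finset.mem_insert_self a s)) (ih fun i hi => h i (Finset.mem_insert_of_mem hi))

theorem lead_pow {i : ℕ} {x : ℂ} {u : RF V} (hx : Lead V l i x u) (m : ℕ) :
    Lead V l (i * m) (x ^ m) (u ^ m) := by
  obtain ⟨a, ha, rfl⟩ := hx
  refine ⟨a ^ m, ?_, map_pow _ _ _⟩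
  rw [ha, mul_pow, ← pow_mul]
  push_cast
  ring

theorem lead_int (m : ℤ) : Lead V l 0 (m : ℂ) (m : RF V) := by
  exact ⟨(m : V), by simp, map_intCast _ m⟩

theorem lead_nat (m : ℕ) : Lead V l 0 (m : ℂ) (m : RF V) := by
  exact ⟨(m : V), by simp, map_natCast _ m⟩

theorem lead_int_mul (m : ℤ) {j : ℕ} {x : ℂ} {u : RF V} (hx : Lead V l j x u) :
    Lead V l j ((m : ℂ) * x) ((m : RF V) * u) := by
  have h := lead_mul (lead_int (V := V) (l := l) m) hx
  rwa [zero_add] at h

theorem lead_lt (hl : l ∈ V.nonunits) {i j : ℕ} (hij : i < j) {x : ℂ} {u : RF V}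
    (hx : Lead V l j x u) : Lead V l i x 0 := by
  obtain ⟨a, ha, rfl⟩ := hx
  obtain ⟨hlV, hlm⟩ := (ValuationSubring.mem_nonunits_iff_exists_mem_maximalIdeal).1 hl
  refine ⟨(⟨l, hlV⟩ : V) ^ (j - i) * a, ?_, ?_⟩
  · rw [ha]
    obtain ⟨d, rfl⟩ := Nat.exists_eq_add_of_lt hij
    have h1 : i + d + 1 - i = d + 1 := by omega
    rw [h1]
    push_cast
    ring
  · rw [map_mul, map_pow, (IsLocalRing.residue_eq_zero_iff _).2 hlm, zero_pow (by omega), zero_mul]

theorem lead_unique (hl : l ≠ 0) {j : ℕ} {x : ℂ} {u v : RF V} (hx : Lead V l j x u)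
    (hy : Lead V l j x v) : u = v := by
  obtain ⟨a, ha, rfl⟩ := hx
  obtain ⟨b, hb, rfl⟩ := hy
  have h1 : (a : ℂ) = (b : ℂ) := mul_left_cancel₀ (pow_ne_zero j hl) (ha.symm.trans hb)
  rw [Subtype.ext h1]

theorem dj_add (T T' : ℕ → ℂ) (j : ℕ) : dj (fun k => T k + T' k) j = dj T j + dj T' j := by
  unfold dj
  rw [← Finset.sum_add_distrib]
  exact Finset.sum_congr rfl fun k _ => by ring

theorem dj_mul_left (a : ℂ) (T : ℕ → ℂ) (j : ℕ) : dj (fun k => a * T k) j = a * dj T j := by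
  unfold dj
  rw [Finset.mul_sum]
  exact Finset.sum_congr rfl fun k _ => by ring

theorem dj_sum {ι : Type*} (s : Finset ι) (T : ι → ℕ → ℂ) (j : ℕ) :
    dj (fun k => ∑ i ∈ s, T i k) j = ∑ i ∈ s, dj (T i) j := by
  unfold dj
  rw [Finset.sum_comm]
  exact Finset.sum_congr rfl fun k _ => Finset.mul_sum _ _ _

theorem dj_pow (u : ℂ) (j : ℕ) : dj (fun k => u ^ k) j = (u - 1) ^ j := by
  unfold dj
  rw [sub_eq_add_neg, add_pow]
  refine Finset.sum_congr rfl fun k hk => ?_
  have hk' : k ≤ j := Nat.lt_succ_iff.1 (Finset.mem_range.1 hk)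
  rw [neg_one_par hk']
  ring

theorem dj_pow_mul (w : ℂ) (T : ℕ → ℂ) (j : ℕ) : dj (fun k => w ^ k * T k) j =
    ∑ i ∈ Finset.range (j + 1), (j.choose i : ℂ) * (w - 1) ^ (j - i) * w ^ i * dj T i := by
  rw [dj_eq, mulE_eq, comm_pow w j]
  have hc : Commute (w • dfE) ((w - 1) • (1 : Module.End ℂ (ℕ → ℂ))) :=
    ((Commute.one_right _).smul_right _)
  rw [hc.add_pow, Module.End.mul_apply, mulE_zero, LinearMap.sum_apply, Finset.sum_apply]
  refine Finset.sum_congr rfl fun i _ => ?_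
  rw [dj_eq, _root_.smul_pow, _root_.smul_pow, one_pow]
  simp only [Module.End.mul_apply, LinearMap.smul_apply, Module.End.natCast_apply, Module.End.one_apply,
    ← Nat.cast_smul_eq_nsmul ℂ, map_smul, Pi.smul_apply, smul_eq_mul]
  ring

theorem good_add {T T' : ℕ → ℂ} {p p' : ℕ → RF V} (h : Good V l T p) (h' : Good V l T' p') :
    Good V l (fun k => T k + T' k) (fun j => p j + p' j) := by
  intro j
  rw [dj_add]
  exact lead_add (h j) (h' j)

theorem good_int_mul (m : ℤ) {T : ℕ → ℂ} {p : ℕ → RF V} (h : Good V l T p) :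
    Good V l (fun k => (m : ℂ) * T k) (fun j => (m : RF V) * p j) := by
  intro j
  rw [dj_mul_left]
  exact lead_int_mul m (h j)

theorem good_pow {u : ℂ} {m : RF V} (h : Lead V l 1 (u - 1) m) :
    Good V l (fun k => u ^ k) (fun j => m ^ j) := by
  intro j
  rw [dj_pow]
  have h1 := lead_pow h j
  rwa [one_mul] at h1

theorem good_pow_mul (hl : l ∈ V.nonunits) {T : ℕ → ℂ} {p : ℕ → RF V} (h : Good V l T p) {w : ℂ}
    (v : V) (hw : w - 1 = l ^ 2 * (v : ℂ)) : Good V l (fun k => w ^ k * T k) p := by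
  intro j
  rw [dj_pow_mul]
  have hw1 : Lead V l 0 w 1 := by
    have h1 : Lead V l 0 (w - 1) 0 := lead_lt hl (by norm_num : 0 < 2) ⟨v, hw, rfl⟩
    have h2 : Lead V l 0 (1 : ℂ) 1 := ⟨1, by simp, map_one _⟩
    have h3 := lead_add h1 h2
    rwa [sub_add_cancel, zero_add] at h3
  have hs := lead_sum (V := V) (l := l) (j := j) (Finset.range (j + 1))
    (fun i => (j.choose i : ℂ) * (w - 1) ^ (j - i) * w ^ i * dj T i) (fun i => if i = j then p j else 0) ?_
  · rwa [Finset.sum_ite_eq' (Finset.range (j + 1)) j, if_pos (Finset.mem_range.2 (Nat.lt_succ_self j))] at hs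
  · intro i hi
    have hi' : i ≤ j := Nat.lt_succ_iff.1 (Finset.mem_range.1 hi)
    have h1 := lead_pow (⟨v, hw, rfl⟩ : Lead V l 2 (w - 1) _) (j - i)
    have h2 := lead_pow hw1 i
    have h3 := lead_mul (lead_mul (lead_mul (lead_nat (V := V) (l := l) (j.choose i)) h1) h2) (h i)
    by_cases hij : i = j
    · subst hij
      rw [if_pos rfl]
      simpa using h3
    · rw [if_neg hij]
      exact lead_lt hl (by rw [zero_mul]; omega) h3

end Pool.Agent.LibPR30
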