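import Pool.Agent.LibPR30.Defs
import Pool.Agent.LibPR30.V1
import Pool.Agent.LibTS.Val
set_option autoImplicit false

/-!
The place above `p`: `z - 1` is a nonunit, `p` is `(z - 1) ^ (p - 1)` times an element of `V`
(with residue `-1` if `n = p`), Jacobi sums are `-1` modulo `(z - 1) ^ 2`.
-/

namespace Pool.Agent.LibPR30

open Polynomial Module

variable {p n : ℕ} {V : ValuationSubring ℂ} {z : ℂ} (h : Ctx p n V z)
include h

theorem Ctx.dvd : p ∣ n := by
  obtain ⟨e, he⟩ := h.pow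
  rw [he]
  exact dvd_pow_self p (Nat.succ_ne_zero e)

theorem Ctx.pos : 0 < n := by
  obtain ⟨e, he⟩ := h.pow
  rw [he]
  exact pow_pos h.prime.pos _

theorem Ctx.ne_zero : n ≠ 0 := h.pos.ne'

theorem Ctx.two_lt_p : 2 < p := lt_of_le_of_ne h.prime.two_le (fun hh => h.two hh.symm)

theorem Ctx.two_lt : 2 < n := lt_of_lt_of_le h.two_lt_p (Nat.le_of_dvd h.pos h.dvd)

theorem Ctx.one_lt : 1 < n := lt_trans one_lt_two h.two_lt

theorem Ctx.odd : Odd n := by
  obtain ⟨e, he⟩ := h.pow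
  rw [he]
  exact (h.prime.odd_of_ne_two h.two).pow

theorem Ctx.charP : CharP (RF V) p := by
  rw [CharP.charP_iff_prime_eq_zero h.prime]
  have h1 : ((p : ℕ) : V) ∈ IsLocalRing.maximalIdeal V := by
    refine ValuationSubring.coe_mem_nonunits_iff.1 ?_
    push_cast
    exact h.nonunit
  have h2 := (IsLocalRing.residue_eq_zero_iff ((p : ℕ) : V)).2 h1
  rwa [map_natCast] at h2

private theorem V2_one_lt : 1 < n := h.one_lt

private theorem V2_zint : IsIntegral ℤ z := h.prim.isIntegral h.pos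

private theorem V2_zmem : z ∈ V := Pool.Agent.LibTS.mem_of_integral V z (V2_zint h)

private theorem V2_lmem : z - 1 ∈ V := V.toSubring.sub_mem (V2_zmem h) V.one_mem

omit h in
private theorem V2_vle {x : ℂ} (hx : x ∈ V) : V.valuation x ≤ 1 := (V.valuation_le_one_iff x).2 hx

private theorem V2_geom (m : ℕ) : ∃ s : V, z ^ m - 1 = (z - 1) * (s : ℂ) ∧
    (s : ℂ) = ∑ i ∈ Finset.range m, z ^ i := by
  refine ⟨⟨∑ i ∈ Finset.range m, z ^ i, V.toSubring.sum_mem fun i _ => V.toSubring.pow_mem (V2_zmem h) i⟩, ?_, rfl⟩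
  exact (mul_geom_sum z m).symm

theorem Ctx.l_ne : z - 1 ≠ 0 := sub_ne_zero.2 (h.prim.ne_one (V2_one_lt h))

theorem Ctx.l_nonunit : z - 1 ∈ V.nonunits := by
  have hch := h.charP
  have hF : Fact p.Prime := ⟨h.prime⟩
  set x : V := ⟨z, V2_zmem h⟩ with hx
  have h1 : x ^ n = 1 := by
    apply Subtype.ext
    push_cast
    exact h.prim.pow_eq_one
  obtain ⟨e, he⟩ := h.pow
  have h2 : (IsLocalRing.residue V x - 1) ^ n = 0 := by
    rw [he, sub_pow_char_pow, one_pow, ← he, ← map_pow, h1, map_one, sub_self]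
  have h3 : IsLocalRing.residue V (x - 1) = 0 := by
    rw [map_sub, map_one]
    exact pow_eq_zero_iff (h.ne_zero) |>.1 h2
  rw [IsLocalRing.residue_eq_zero_iff] at h3
  exact ValuationSubring.coe_mem_nonunits_iff.2 h3

omit h in
private theorem V2_res_of {x : V} (hx : (x : ℂ) ∈ V.nonunits) : IsLocalRing.residue V x = 0 := by
  rw [IsLocalRing.residue_eq_zero_iff]
  exact ValuationSubring.coe_mem_nonunits_iff.1 hx

private theorem V2_res_z : IsLocalRing.residue V ⟨z, V2_zmem h⟩ = 1 := by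
  have h1 := V2_res_of (x := (⟨z, V2_zmem h⟩ : V) - 1) (by
    have := Ctx.l_nonunit h
    exact this)
  rw [map_sub, map_one, sub_eq_zero] at h1
  exact h1

private theorem V2_lead (m : ℕ) : Lead V (z - 1) 1 (z ^ m - 1) (m : RF V) := by
  refine ⟨∑ i ∈ Finset.range m, (⟨z, V2_zmem h⟩ : V) ^ i, ?_, ?_⟩
  · rw [pow_one]
    push_cast
    exact (mul_geom_sum z m).symm
  · rw [map_sum]
    simp only [map_pow, V2_res_z h, one_pow, Finset.sum_const, Finset.card_range, nsmul_eq_mul, mul_one]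

theorem Ctx.lead_z (ι : ZMod n →+* RF V) (m : ZMod n) : Lead V (z - 1) 1 (z ^ m.val - 1) (ι m) := by
  have hnz : NeZero n := ⟨h.ne_zero⟩
  have h1 : ι m = (m.val : RF V) := by
    conv_lhs => rw [← ZMod.natCast_zmod_val m]
    exact map_natCast ι m.val
  rw [h1]
  exact V2_lead h m.val

theorem Ctx.lead_z0 (m : ℕ) : Lead V (z - 1) 0 (z ^ m) 1 := by
  refine ⟨(⟨z, V2_zmem h⟩ : V) ^ m, ?_, ?_⟩
  · rw [pow_zero, one_mul]
    push_cast
    rfl
  · rw [map_pow, V2_res_z h, one_pow]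

omit h in
private theorem V2_res_n (h : Ctx n n V z) : (n : RF V) = 0 := by
  have h1 := V2_res_of (x := (n : V)) (by
    have h2 := h.nonunit
    push_cast
    exact h2)
  rw [map_natCast] at h1
  exact h1

omit h in
theorem Ctx.lead_n (h : Ctx n n V z) : Lead V (z - 1) (n - 1) (n : ℂ) (-1) := by
  obtain ⟨n', hn'⟩ := Nat.exists_eq_succ_of_ne_zero h.prime.ne_zero
  have hprim : IsPrimitiveRoot z (n' + 1) := by
    have := h.prim
    rw [hn'] at this
    exact this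
  have hpr := hprim.prod_pow_sub_one_eq_order
  have hev : Even n' := by
    have h1 : Odd n := h.prime.odd_of_ne_two h.two
    rw [hn', Nat.succ_eq_add_one] at h1
    rw [Nat.odd_add_one, Nat.not_odd_iff_even] at h1
    exact h1
  rw [hev.neg_one_pow, one_mul] at hpr
  have h2 := lead_prod (V := V) (l := z - 1) (Finset.range n') (fun k => z ^ (k + 1) - 1)
    (fun k => ((k + 1 : ℕ) : RF V)) (fun k _ => V2_lead h (k + 1))
  rw [Finset.card_range, hpr] at h2
  have h3 : ∏ k ∈ Finset.range n', ((k + 1 : ℕ) : RF V) = -1 := by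
    rw [← Nat.cast_prod, Finset.prod_range_add_one_eq_factorial]
    have hf : Fact n.Prime := ⟨h.prime⟩
    have h4 := ZMod.wilsons_lemma n
    have h5 : n - 1 = n' := by omega
    rw [h5] at h4
    have h6 : ((n'.factorial + 1 : ℕ) : ZMod n) = 0 := by
      push_cast
      rw [h4]
      ring
    rw [ZMod.natCast_eq_zero_iff] at h6
    obtain ⟨k, hk⟩ := h6
    have h7 : ((n'.factorial + 1 : ℕ) : RF V) = 0 := by
      rw [hk, Nat.cast_mul, V2_res_n h, zero_mul]
    push_cast at h7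
    exact eq_neg_of_add_eq_zero_left h7
  have h8 : n - 1 = n' := by omega
  have h9 : (n : ℂ) = (n' : ℂ) + 1 := by
    rw [hn']
    push_cast
    ring
  rw [h8, h9, ← h3]
  exact h2

theorem Ctx.lead_p : ∃ u : ZMod p, ∀ κ : ZMod p →+* RF V,
    Lead V (z - 1) (p - 1) (p : ℂ) (κ u) := by
  obtain ⟨e, he⟩ := h.pow
  have hw : Ctx p p V (z ^ p ^ e) := by
    refine ⟨h.prime, h.two, ⟨0, by simp⟩, ?_, h.nonunit⟩
    have h1 := h.prim.pow h.pos (a := p ^ e) (b := p) (by rw [he, pow_succ])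
    exact h1
  obtain ⟨v, hv, hvr⟩ := hw.lead_n
  obtain ⟨s, hs, hsr⟩ := V2_lead h (p ^ e)
  rw [pow_one] at hs
  refine ⟨-((p ^ e : ℕ) : ZMod p) ^ (p - 1), fun κ => ⟨s ^ (p - 1) * v, ?_, ?_⟩⟩
  · rw [hv, hs, mul_pow]
    push_cast
    rw [mul_assoc]
  · rw [map_mul, map_pow, hvr, hsr, map_neg, map_pow, map_natCast]
    ring

theorem Ctx.sq_of_dvd (m : ℤ) (hm : (p : ℤ) ∣ m) : ∃ v : V, (m : ℂ) = (z - 1) ^ 2 * (v : ℂ) := by
  obtain ⟨k, rfl⟩ := hm
  have hch := h.charP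
  obtain ⟨u, hu⟩ := Ctx.lead_p h
  obtain ⟨v, hv, -⟩ := hu (ZMod.castHom (dvd_refl p) (RF V))
  refine ⟨(⟨z - 1, V2_lmem h⟩ : V) ^ (p - 3) * v * (k : V), ?_⟩
  have h1 := h.two_lt_p
  have h2 : p - 1 = 2 + (p - 3) := by omega
  rw [h2, pow_add] at hv
  push_cast
  rw [hv]
  ring

theorem Ctx.jn_eq {E : Type} [Field E] [Fintype E] [DecidableEq E] (ψ : MulChar E ℂ)
    (hψ : ψ ^ n = 1) (hE : n ∣ Fintype.card E - 1) (u v : ZMod n) :
    ∃ w : V, jn ψ u v - 1 = (z - 1) ^ 2 * (w : ℂ) := by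
  have h1 : (ψ ^ u.val) ^ n = 1 := by rw [← pow_mul, mul_comm, pow_mul, hψ, one_pow]
  have h2 : (ψ ^ v.val) ^ n = 1 := by rw [← pow_mul, mul_comm, pow_mul, hψ, one_pow]
  obtain ⟨w, hw, hw'⟩ := exists_jacobiSum_eq_neg_one_add h.two_lt h1 h2 hE h.prim
  have h3 : IsIntegral ℤ w := by
    have h4 : Algebra.adjoin ℤ {z} ≤ integralClosure ℤ ℂ := adjoin_le_integralClosure (V2_zint h)
    exact h4 hw
  refine ⟨-⟨w, Pool.Agent.LibTS.mem_of_integral V w h3⟩, ?_⟩
  unfold jn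
  rw [hw']
  push_cast
  ring

end Pool.Agent.LibPR30
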