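import Pool.Agent.LibPR30.Defs
import Pool.Agent.LibPR30.A3
import Pool.Agent.LibPR30.K4
import Pool.Agent.LibPR30.M1
import Pool.Agent.LibPR30.V1
import Pool.Agent.LibPR30.V2
set_option autoImplicit false

/-!
`n ≥ 3`, `N = n - 1` even. For `0 < k ≤ n-1` take `E = 𝓔.E k` (`exists_tow`, `card_tow`), `κ_k = κ ∘ N`: `κ_k c = k κ(c) ≠ 0`, `κ_k e = k κ(e)`; `dcount_mod` over `E`
gives `dcount = n M_k` with `M_k = ρ - 1` in ZMod n. So `tr A^k = t_k` is an integer with `t_k ≡ -n(ρ' - 1) - 1 + k n u (mod n^2)`, where `ρ'` is a lift of ρ, `q = 1 + n u`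
(`((Q-1)^(n-1) - 1)/Q` is an integer `≡ -1/Q ≡ -(1 - k n u)`, because `n^(n-1)` divides `(Q-1)^(n-1)`; `Q = q^k ≡ 1 + k n u`); `t_0 = n - 1`.
Then `dj t j` for `2 ≤ j`: `≡ (-1)^j n ρ' (mod n^2)`, `dj t 1 ≡ 0 (mod n)`. `Ctx.lead_n`: `n = l^(n-1) * v`, residue -1: for `j < n-1` everything
divisible by n is `Lead j .. 0`, for `j = n-1` the value `n ρ' + n^2 m` is `Lead (n-1) .. (-ρ)`. On the other side `lp (1 - C ρ X^(n-1))` has coefficients
0 for `0 < j < n-1` and `(n-1) ρ = -ρ` at `j = n-1` (`lp_rec`).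
-/

namespace Pool.Agent.LibPR30

open Polynomial Module

private theorem pra4_coeff {n : ℕ} (hn : 1 < n) (ρ : ZMod n) (j : ℕ) (hj : 0 < j)
    (hjn : j ≤ n - 1) :
    PowerSeries.coeff j (lp (1 - C ρ * X ^ (n - 1) : (ZMod n)[X])) =
      if j = n - 1 then -ρ else 0 := by
  have hN : n - 1 ≠ 0 := by omega
  have hc : ∀ i, (1 - C ρ * X ^ (n - 1) : (ZMod n)[X]).coeff i =
      (if i = 0 then 1 else 0) - (if i = n - 1 then ρ else 0) := by
    intro i
    rw [coeff_sub, coeff_one, coeff_C_mul, coeff_X_pow]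
    congr 1
    split_ifs <;> simp
  have h0 : (1 - C ρ * X ^ (n - 1) : (ZMod n)[X]).coeff 0 = 1 := by
    rw [hc, if_pos rfl, if_neg (Ne.symm hN), sub_zero]
  have h := lp_rec _ h0 j hj
  rw [Finset.sum_eq_single_of_mem 0 (Finset.mem_range.2 hj), h0, one_mul, Nat.sub_zero, hc j,
    if_neg (show j ≠ 0 by omega)] at h
  · rw [h]
    by_cases hjN : j = n - 1
    · rw [if_pos hjN, if_pos hjN, hjN]
      have : ((n - 1 : ℕ) : ZMod n) = -1 := by
        rw [Nat.cast_sub (by omega), ZMod.natCast_self]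
        simp
      rw [this]
      ring
    · rw [if_neg hjN, if_neg hjN]
      ring
  · intro i hi hi0
    rw [Finset.mem_range] at hi
    rw [hc i, if_neg hi0, if_neg (by omega)]
    ring

private theorem pra4_pow (N u : ℤ) (k : ℕ) : ∃ w : ℤ, (1 + N * u) ^ k = 1 + k * N * u + N ^ 2 * w := by
  induction k with
  | zero => exact ⟨0, by simp⟩
  | succ k ih =>
    obtain ⟨w, hw⟩ := ih
    refine ⟨w + k * u ^ 2 + N * w * u, ?_⟩
    rw [pow_succ, hw]
    push_cast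
    ring

private theorem pra4_int (n : ℕ) (hn : 3 ≤ n) (hodd : Odd n) (u Q : ℤ) (k : ℕ)
    (hQ : Q = (1 + (n : ℤ) * u) ^ k) :
    ∃ I m : ℤ, (Q - 1) ^ (n - 1) - (-1) ^ (n - 1) = Q * I ∧
      I = -1 + n * u * k + (n : ℤ) ^ 2 * m := by
  obtain ⟨w, hw⟩ := pra4_pow (n : ℤ) u k
  have heven : Even (n - 1) := by
    obtain ⟨t, ht⟩ := hodd
    exact ⟨t, by omega⟩
  have hdvd : Q ∣ (Q - 1) ^ (n - 1) - (-1) ^ (n - 1) := by
    have := sub_dvd_pow_sub_pow (Q - 1) (-1) (n - 1)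
    simpa using this
  obtain ⟨I, hI⟩ := hdvd
  have hQ1 : (n : ℤ) ∣ Q - 1 := ⟨k * u + n * w, by rw [hQ, hw]; ring⟩
  have hx : (n : ℤ) ^ 2 ∣ (Q - 1) ^ (n - 1) :=
    (pow_dvd_pow_of_dvd hQ1 2).trans (pow_dvd_pow _ (by omega))
  obtain ⟨x, hx⟩ := hx
  rw [heven.neg_one_pow, hx] at hI
  refine ⟨I, x * (1 - k * n * u) - (-(k : ℤ) ^ 2 * u ^ 2 + w * (1 - k * n * u)) * I, ?_, ?_⟩
  · rw [heven.neg_one_pow, hx, hI]
  · rw [hQ, hw] at hI
    linear_combination -(1 - (k : ℤ) * n * u) * hI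

private theorem pra4_lin {j : ℕ} (hj : 2 ≤ j) : dj (fun k => (k : ℂ)) j = 0 := by
  obtain ⟨i, rfl⟩ : ∃ i, j = i + 1 := ⟨j - 1, by omega⟩
  have h1 := dj_pow (1 : ℂ) i
  rw [sub_self, zero_pow (by omega)] at h1
  unfold dj at h1 ⊢
  rw [Finset.sum_range_succ']
  have h2 : ∀ k ∈ Finset.range (i + 1), (-1 : ℂ) ^ (i + 1 + (k + 1)) *
      ((i + 1).choose (k + 1) : ℂ) * ((k + 1 : ℕ) : ℂ) =
        ((i : ℂ) + 1) * ((-1) ^ (i + k) * (i.choose k : ℂ) * 1 ^ k) := by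
    intro k _
    have h3 : ((i : ℂ) + 1) * (i.choose k : ℂ) = ((i + 1).choose (k + 1) : ℂ) * ((k : ℂ) + 1) := by
      exact_mod_cast Nat.add_one_mul_choose_eq i k
    have h4 : (-1 : ℂ) ^ (i + 1 + (k + 1)) = (-1) ^ (i + k) := by
      rw [show i + 1 + (k + 1) = i + k + 2 by omega, pow_add]
      norm_num
    rw [h4, one_pow, mul_one]
    push_cast
    linear_combination -(-1 : ℂ) ^ (i + k) * h3
  rw [Finset.sum_congr rfl h2, ← Finset.mul_sum, h1]
  simp

private theorem pra4_trace {n : ℕ} {F : Type} [Field F] [Finite F] (hn : n.Prime) (hn2 : n ≠ 2)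
    (hF : n ∣ Nat.card F - 1) (κ : Fˣ →* Multiplicative (ZMod n)) (c : Fˣ)
    (hc : κ c ≠ 1) (s : F) (e : Fˣ) (he : (e : F) = s ^ n - (n : F) ^ n * c) (ρ : ZMod n)
    (hρ : ρ * (κ c).toAdd = (κ e).toAdd)
    (A : Matrix (Fin (n - 1)) (Fin (n - 1)) ℂ) (hA : IsDwork F n (c : F) s A) (r u : ℤ)
    (hr : (r : ZMod n) = ρ) (hu : (Nat.card F : ℤ) = 1 + n * u) (k : ℕ) (hk : 0 < k)
    (hkn : k ≤ n - 1) :
    ∃ m : ℤ, (A ^ k).trace = ((-n * (r - 1) - 1 + n * u * k + (n : ℤ) ^ 2 * m : ℤ) : ℂ) := by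
  have hn3 : 3 ≤ n := by
    have := hn.two_le
    omega
  have hodd : Odd n := hn.odd_of_ne_two hn2
  have : Fact n.Prime := ⟨hn⟩
  obtain ⟨𝓔⟩ := exists_tow F
  have hcard := card_tow 𝓔 k hk
  have hrank := 𝓔.rank k hk
  have hE : n ∣ Fintype.card (𝓔.E k) - 1 := by
    rw [hcard]
    exact hF.trans (by simpa using Nat.sub_dvd_pow_sub_pow (Nat.card F) 1 k)
  set φ : F →* 𝓔.E k := (algebraMap F (𝓔.E k) : F →* 𝓔.E k) with hφ
  set κk : (𝓔.E k)ˣ →* Multiplicative (ZMod n) :=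
    κ.comp (Units.map (Algebra.norm F : 𝓔.E k →* F)) with hκk
  have hκ : ∀ x : Fˣ, κk (Units.map φ x) = κ x ^ k := by
    intro x
    rw [← map_pow, hκk, MonoidHom.comp_apply]
    congr 1
    ext
    rw [Units.coe_map, Units.coe_map, Units.val_pow_eq_pow_val]
    change Algebra.norm F (algebraMap F (𝓔.E k) (x : F)) = _
    rw [Algebra.norm_algebraMap, hrank]
  have hκ' : ∀ x : Fˣ, (κk (Units.map φ x)).toAdd = (k : ZMod n) * (κ x).toAdd := by
    intro x
    rw [hκ, toAdd_pow, nsmul_eq_mul]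
  have hk0 : (k : ZMod n) ≠ 0 := by
    rw [Ne, ZMod.natCast_eq_zero_iff]
    intro hdvd
    have := Nat.le_of_dvd hk hdvd
    omega
  have hc0 : (κ c).toAdd ≠ 0 := by
    intro h0
    exact hc (Multiplicative.toAdd.injective (by rw [h0, toAdd_one]))
  have hc' : κk (Units.map φ c) ≠ 1 := by
    intro h0
    have h1 := hκ' c
    rw [h0, toAdd_one] at h1
    exact mul_ne_zero hk0 hc0 h1.symm
  obtain ⟨M, e', he', hM, hM'⟩ := dcount_mod hn hn2 hE κk (Units.map φ c) hc'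
    (algebraMap F (𝓔.E k) s)
  have hee : e' = Units.map φ e := by
    ext
    rw [he', Units.coe_map, Units.coe_map]
    change _ = algebraMap F (𝓔.E k) (e : F)
    rw [he, map_sub, map_pow, map_mul, map_pow, map_natCast]
    rfl
  rw [hee, hκ', hκ', ← hρ] at hM'
  have hMρ : (M : ZMod n) = ρ - 1 := by
    have h0 := mul_ne_zero hk0 hc0
    apply mul_left_cancel₀ h0
    rw [hM']
    ring
  have hMr : ((M : ℤ) : ZMod n) = ((r - 1 : ℤ) : ZMod n) := by
    push_cast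
    rw [hMρ, hr]
  rw [ZMod.intCast_eq_intCast_iff_dvd_sub] at hMr
  obtain ⟨w, hw⟩ := hMr
  obtain ⟨I, m, hI, hIm⟩ := pra4_int n hn3 hodd u ((Nat.card F : ℤ) ^ k) k (by rw [hu])
  have hT := hA (𝓔.E k)
  rw [hrank, Nat.card_eq_fintype_card, hcard] at hT
  have hM2 : dcount n (algebraMap F (𝓔.E k) (c : F)) (algebraMap F (𝓔.E k) s) = n * M := hM
  rw [hM2] at hT
  have hq0 : (Nat.card F : ℂ) ^ k ≠ 0 := by
    apply pow_ne_zero
    exact_mod_cast Nat.card_pos.ne'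
  have hIC : (((Nat.card F ^ k : ℕ) : ℂ) - 1) ^ (n - 1) - (-1) ^ (n - 1) =
      (Nat.card F : ℂ) ^ k * (I : ℂ) := by
    have := congrArg (Int.cast : ℤ → ℂ) hI
    push_cast at this ⊢
    exact this
  rw [hIC] at hT
  push_cast at hT
  rw [mul_div_cancel_left₀ _ hq0, hodd.neg_one_pow] at hT
  refine ⟨m + w, ?_⟩
  rw [hT]
  have hMC : (M : ℂ) = (r : ℂ) - 1 - n * w := by
    have := congrArg (Int.cast : ℤ → ℂ) hw
    push_cast at this
    linear_combination -this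
  have hIC2 : (I : ℂ) = -1 + n * u * k + (n : ℂ) ^ 2 * m := by
    have := congrArg (Int.cast : ℤ → ℂ) hIm
    push_cast at this
    exact this
  rw [hMC, hIC2]
  push_cast
  ring

variable {n : ℕ}
variable {F : Type} [Field F] [Finite F] {V : ValuationSubring ℂ} {z : ℂ}
  (h : Ctx n n V z) (ι : ZMod n →+* RF V)
include h

theorem dwork_lead (hF : n ∣ Nat.card F - 1) (κ : Fˣ →* Multiplicative (ZMod n)) (c : Fˣ)
    (hc : κ c ≠ 1) (s : F) (e : Fˣ) (he : (e : F) = s ^ n - (n : F) ^ n * c) (ρ : ZMod n)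
    (hρ : ρ * (κ c).toAdd = (κ e).toAdd)
    (A : Matrix (Fin (n - 1)) (Fin (n - 1)) ℂ) (hA : IsDwork F n (c : F) s A) (j : ℕ) (hj : 0 < j)
    (hjn : j ≤ n - 1) : Lead V (z - 1) j (dj (fun k => (A ^ k).trace) j)
      (ι (PowerSeries.coeff j (lp (1 - C ρ * X ^ (n - 1))))) := by
  have hn := h.prime
  have hn2 := h.two
  have hn3 : 3 ≤ n := by
    have := hn.two_le
    omega
  have hodd : Odd n := hn.odd_of_ne_two hn2
  have : Fact n.Prime := ⟨hn⟩
  obtain ⟨r, hr⟩ := ZMod.intCast_surjective ρ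
  obtain ⟨u', hu'⟩ := hF
  have hu : (Nat.card F : ℤ) = 1 + n * (u' : ℤ) := by
    have hpos : 0 < Nat.card F := Nat.card_pos
    have : Nat.card F = 1 + n * u' := by omega
    rw [this]
    push_cast
    ring
  have hF : n ∣ Nat.card F - 1 := ⟨u', hu'⟩
  have hex : ∀ k, ∃ m : ℤ, k ≤ n - 1 → (A ^ k).trace =
      ((-n * (r - 1) - 1 + n * (u' : ℤ) * k + (n : ℤ) ^ 2 * m +
        (if k = 0 then n * r else 0) : ℤ) : ℂ) := by
    intro k
    by_cases hk : k ≤ n - 1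
    · rcases Nat.eq_zero_or_pos k with rfl | hk0
      · refine ⟨0, fun _ => ?_⟩
        rw [pow_zero, Matrix.trace_one, Fintype.card_fin, if_pos rfl, Nat.cast_sub (by omega)]
        push_cast
        ring
      · obtain ⟨m, hm⟩ := pra4_trace hn hn2 hF κ c hc s e he ρ hρ A hA r u' hr hu k hk0 hk
        refine ⟨m, fun _ => ?_⟩
        rw [hm, if_neg hk0.ne', add_zero]
    · exact ⟨0, fun h' => absurd h' hk⟩
  choose m hm using hex
  -- the difference
  set S : ℤ := ∑ k ∈ Finset.range (j + 1), (-1) ^ (j + k) * (j.choose k : ℤ) * m k with hS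
  have hsum : dj (fun k => (A ^ k).trace) j =
      dj (fun k => ((-(n : ℂ) * (r - 1) - 1) * 1 ^ k + (n * (u' : ℂ)) * k)) j +
        (n : ℂ) ^ 2 * (S : ℂ) + (-1) ^ j * (n * r) := by
    have h1 : ((-1 : ℂ)) ^ j * (n * r) = ∑ k ∈ Finset.range (j + 1),
        (-1) ^ (j + k) * (j.choose k : ℂ) * (if k = 0 then (n : ℂ) * r else 0) := by
      rw [Finset.sum_eq_single_of_mem 0 (Finset.mem_range.2 (by omega))]
      · simp
      · intro k _ hk
        rw [if_neg hk, mul_zero]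
    rw [h1, hS]
    unfold dj
    push_cast
    rw [Finset.mul_sum, ← Finset.sum_add_distrib, ← Finset.sum_add_distrib]
    refine Finset.sum_congr rfl fun k hk => ?_
    rw [hm k (by rw [Finset.mem_range] at hk; omega)]
    push_cast
    rw [one_pow]
    ring
  have hlin : ∃ t : ℤ, (2 ≤ j → t = 0) ∧
      dj (fun k => ((-(n : ℂ) * (r - 1) - 1) * 1 ^ k + (n * (u' : ℂ)) * k)) j = n * t := by
    have h1 : dj (fun k => ((-(n : ℂ) * (r - 1) - 1) * 1 ^ k + (n * (u' : ℂ)) * k)) j =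
        n * (u' : ℂ) * dj (fun k => (k : ℂ)) j := by
      rw [dj_add (fun k => (-(n : ℂ) * (r - 1) - 1) * 1 ^ k) (fun k => (n * (u' : ℂ)) * k),
        dj_mul_left, dj_mul_left, dj_pow, sub_self, zero_pow (by omega), mul_zero, zero_add]
    rw [h1]
    by_cases hj2 : 2 ≤ j
    · exact ⟨0, fun _ => rfl, by rw [pra4_lin hj2]; simp⟩
    · have hj1 : j = 1 := by omega
      subst hj1
      refine ⟨u', fun h' => absurd h' (by norm_num), ?_⟩
      unfold dj
      simp [Finset.sum_range_succ]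
  obtain ⟨t, ht, hlin⟩ := hlin
  rw [hlin] at hsum
  have hval : dj (fun k => (A ^ k).trace) j = ((t + n * S + (-1) ^ j * r : ℤ) : ℂ) * (n : ℂ) := by
    rw [hsum]
    push_cast
    ring
  rw [hval, pra4_coeff (by omega) ρ j hj hjn]
  have hL := lead_int_mul (t + n * S + (-1) ^ j * r) (h.lead_n)
  by_cases hjN : j = n - 1
  · rw [if_pos hjN]
    have heven : Even j := by
      obtain ⟨t', ht'⟩ := hodd
      exact ⟨t', by omega⟩
    have ht0 : t = 0 := ht (by omega)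
    have hres : ((t + n * S + (-1) ^ j * r : ℤ) : RF V) * (-1) = ι (-ρ) := by
      rw [ht0, heven.neg_one_pow]
      rw [← map_intCast ι, map_neg]
      have : (((0 : ℤ) + n * S + 1 * r : ℤ) : ZMod n) = ρ := by
        push_cast
        rw [ZMod.natCast_self, hr]
        ring
      rw [this]
      ring
    rw [← hres]
    subst hjN
    exact hL
  · rw [if_neg hjN, map_zero]
    exact lead_lt h.l_nonunit (by omega) hL

end Pool.Agent.LibPR30
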