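import Mathlib

set_option autoImplicit false

/-!
# Frobenius eigenvalues to first order above the order of the characters (MP_93fb11)
-/

namespace Pool.Agent.LibPR30

open Polynomial Module

/-- The number of solutions in `E` of `y_1 ⋯ y_n = c`, `y_1 + ⋯ + y_n = s`. -/
noncomputable def dcount (n : ℕ) {E : Type*} [Field E] (c s : E) : ℕ :=
  Nat.card {y : Fin n → E // ∏ i, y i = c ∧ ∑ i, y i = s}

/-- The condition on the traces of the powers of `A`: the numbers of solutions over all finite
extensions `E` of `F`. -/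
def IsDwork (F : Type) [Field F] (n : ℕ) (c s : F) {r : ℕ} (A : Matrix (Fin r) (Fin r) ℂ) : Prop :=
  ∀ (E : Type) [Field E] [Finite E] [Algebra F E], (A ^ finrank F E).trace =
    (-1) ^ n * (dcount n (algebraMap F E c) (algebraMap F E s) -
      (((Nat.card E : ℂ) - 1) ^ (n - 1) - (-1) ^ (n - 1)) / Nat.card E)

/-- The hypergeometric sum over `E`: the sum over all `x_1, …, x_r` in `E` with product `c` of
`∏ χ^(a_i)(N x_i) χ^(b_i - a_i)(N (1 - x_i))`. -/
noncomputable def hsum {F : Type} [Field F] (χ : MulChar F ℂ) {r : ℕ} (a b : Fin r → ℤ)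
    (c : F) (E : Type) [Field E] [Algebra F E] : ℂ :=
  ∑ᶠ x : {x : Fin r → E // ∏ i, x i = algebraMap F E c},
    ∏ i, (χ ^ a i) (Algebra.norm F (x.1 i)) * (χ ^ (b i - a i)) (Algebra.norm F (1 - x.1 i))

/-- The condition on the traces of the powers of `A`: the hypergeometric sums over all finite
extensions `E` of `F`. -/
def IsHyp {F : Type} [Field F] (χ : MulChar F ℂ) {r : ℕ} (a b : Fin r → ℤ) (c : F)
    (A : Matrix (Fin r) (Fin r) ℂ) : Prop :=
  ∀ (E : Type) [Field E] [Finite E] [Algebra F E],
    (A ^ finrank F E).trace = (-1) ^ (r + 1) * hsum χ a b c E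

/-! ### Characters and the group algebra -/

/-- The character `χ ∘ N` of the extension `E`. -/
noncomputable def nch {F : Type} [Field F] (χ : MulChar F ℂ) (E : Type) [Field E] [Finite E]
    [Algebra F E] : MulChar E ℂ where
  toMonoidHom := χ.toMonoidHom.comp (Algebra.norm F)
  map_nonunit' := by
    intro a ha
    have h0 : a = 0 := by
      by_contra h
      exact ha (Ne.isUnit h)
    have : FiniteDimensional F E := Module.Finite.of_finite
    subst h0
    change χ (Algebra.norm F (0 : E)) = 0
    rw [Algebra.norm_zero, MulChar.map_zero]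

theorem nch_apply {F : Type} [Field F] (χ : MulChar F ℂ) (K : Type) [Field K] [Finite K]
    [Algebra F K] (x : K) : nch χ K x = χ (Algebra.norm F x) := rfl

section gr

variable {E : Type} [Field E] [Fintype E] [DecidableEq E] {n : ℕ}

/-- The function `ψ^a(u) ψ^(b-a)(1-u)` as an element of the group algebra. -/
noncomputable def fel (ψ : MulChar E ℂ) (p : ZMod n × ZMod n) : MonoidAlgebra ℂ Eˣ :=
  ∑ u : Eˣ, MonoidAlgebra.single u
    ((ψ ^ p.1.val) (u : E) * (ψ ^ (p.2 - p.1).val) (1 - (u : E)))

/-- The function `ψ^b(u)` as an element of the group algebra. -/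
noncomputable def sel (ψ : MulChar E ℂ) (b : ZMod n) : MonoidAlgebra ℂ Eˣ :=
  ∑ u : Eˣ, MonoidAlgebra.single u ((ψ ^ b.val) (u : E))

/-- The convolution of the functions of the pairs in `L`. -/
noncomputable def gel (ψ : MulChar E ℂ) (L : Multiset (ZMod n × ZMod n)) : MonoidAlgebra ℂ Eˣ :=
  (L.map (fel ψ)).prod

/-- minus the Jacobi sum -/
noncomputable def jn (ψ : MulChar E ℂ) (u v : ZMod n) : ℂ := -jacobiSum (ψ ^ u.val) (ψ ^ v.val)

end gr

/-- Extensions of `F` of all degrees. -/
structure Tow (F : Type) [Field F] where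
  E : ℕ → Type
  [fld : ∀ k, Field (E k)]
  [fin : ∀ k, Fintype (E k)]
  [dec : ∀ k, DecidableEq (E k)]
  [alg : ∀ k, Algebra F (E k)]
  rank : ∀ k, 0 < k → finrank F (E k) = k

attribute [instance] Tow.fld Tow.fin Tow.dec Tow.alg

section seq

variable {F : Type} [Field F] (𝓔 : Tow F) (χ : MulChar F ℂ) (c : Fˣ) {n : ℕ}

/-- the traces `(-1)^(r-1) S_k` -/
noncomputable def T (L : Multiset (ZMod n × ZMod n)) (k : ℕ) : ℂ :=
  if k = 0 then (Multiset.card L : ℂ) else
    -(-1) ^ (Multiset.card L) *
      (gel (nch χ (𝓔.E k)) L).coeff (Units.map (algebraMap F (𝓔.E k) : F →* 𝓔.E k) c)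

/-- the Jacobi sums over the extensions, with the sign -/
noncomputable def W (u v : ZMod n) (k : ℕ) : ℂ := if k = 0 then 1 else jn (nch χ (𝓔.E k)) u v

/-- the degenerate terms -/
noncomputable def U (b : ZMod n) (L : Multiset (ZMod n × ZMod n)) (k : ℕ) : ℂ :=
  (χ ^ b.val) (c : F) ^ k * (L.map fun p => W 𝓔 χ (p.1 - b) (p.2 - p.1) k).prod

end seq

/-! ### Monic polynomials -/

section Mon

variable {F : Type} [Field F] [Fintype F]

open Classical in
/-- monic polynomials of degree `m` -/
noncomputable def MonF (F : Type) [Field F] [Fintype F] (m : ℕ) : Finset F[X] :=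
  (Finset.univ : Finset (Fin m → F)).image (fun v => X ^ m + ∑ i : Fin m, C (v i) * X ^ (i : ℕ))

/-- the sum of the weights of the monic polynomials of degree `m` -/
noncomputable def cc (w : F[X] → ℂ) (m : ℕ) : ℂ := ∑ f ∈ MonF F m, w f

open Classical in
/-- the power sums -/
noncomputable def ss (w : F[X] → ℂ) (m : ℕ) : ℂ :=
  ∑ d ∈ m.divisors, ∑ g ∈ (MonF F d).filter (fun g => Irreducible g), (d : ℂ) * w g ^ (m / d)

/-- the weight given by characters at points -/
noncomputable def wt {s : ℕ} (χ : Fin s → MulChar F ℂ) (u : Fin s → F) (f : F[X]) : ℂ :=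
  ∏ i, χ i (f.eval (u i))

end Mon

/-! ### Leading terms -/

/-- the residue field -/
abbrev RF (V : ValuationSubring ℂ) : Type := IsLocalRing.ResidueField V

/-- `x = l ^ j v` with `v` in `V` of residue `u` -/
def Lead (V : ValuationSubring ℂ) (l : ℂ) (j : ℕ) (x : ℂ) (u : RF V) : Prop :=
  ∃ v : V, x = l ^ j * (v : ℂ) ∧ IsLocalRing.residue V v = u

/-- the `j`-th difference of `T` at `0` -/
noncomputable def dj (T : ℕ → ℂ) (j : ℕ) : ℂ :=
  ∑ k ∈ Finset.range (j + 1), (-1) ^ (j + k) * (j.choose k : ℂ) * T k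

/-- the differences of `T` have the leading terms `p` -/
def Good (V : ValuationSubring ℂ) (l : ℂ) (T : ℕ → ℂ) (p : ℕ → RF V) : Prop :=
  ∀ j, Lead V l j (dj T j) (p j)

/-- a place above the odd prime `p` and a primitive `n`-th root of unity `z`, `n` a power of `p` -/
structure Ctx (p n : ℕ) (V : ValuationSubring ℂ) (z : ℂ) : Prop where
  prime : p.Prime
  two : p ≠ 2
  pow : ∃ e : ℕ, n = p ^ (e + 1)
  prim : IsPrimitiveRoot z n
  nonunit : (p : ℂ) ∈ V.nonunits

/-! ### The model -/

/-- `- X f' / f` for polynomials `f` with `f(0) = 1` -/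
noncomputable def lp {R : Type*} [CommRing R] (f : R[X]) : PowerSeries R :=
  -(PowerSeries.X * ((derivative f : R[X]) : PowerSeries R)) *
    PowerSeries.invOfUnit (f : PowerSeries R) 1

/-- the reversed residual polynomial -/
noncomputable def mdl {R : Type*} [CommRing R] (ρ : R) (L : Multiset (R × R)) : R[X] :=
  C (1 - ρ) * (L.map fun p => 1 - C p.1 * X).prod + C ρ * (L.map fun p => 1 - C p.2 * X).prod

/-- the power sums of the roots of the residual polynomial -/
noncomputable def pL {R : Type*} [CommRing R] (ρ : R) (L : Multiset (R × R)) (j : ℕ) : R :=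
  if j = 0 then (Multiset.card L : R) else PowerSeries.coeff j (lp (mdl ρ L))

end Pool.Agent.LibPR30
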