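import Pool.Agent.LibPR30.Defs
set_option autoImplicit false

/-!
`sel ψ b * fel ψ p = ∑_{u,v} ψ^b(u) f(v) [u v] = ∑_w ψ^b(w) (∑_v ψ^(-b)(v) f(v)) [w]`, the inner sum is the Jacobi sum of `ψ^(p.1 - b)`,
`ψ^(p.2 - p.1)` (`jacobiSum χ φ = ∑ x, χ x * φ (1 - x)`; the term `x = 0` is 0; `ψ^((a - b).val) = ψ^a.val * (ψ^b.val)⁻¹` from `ψ^n = 1`).
`sel_mul_gel`: Multiset induction. `fel_diag`: `ψ^0 = 1` and the trivial character is 0 at `1 - u = 0` and 1 elsewhere.
`MonoidAlgebra` is a structure now: coefficients are `x.coeff u`; `MonoidAlgebra.single_mul_single` etc.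
-/

namespace Pool.Agent.LibPR30

open Polynomial Module

variable {E : Type} [Field E] [Fintype E] [DecidableEq E] {n : ℕ}

omit [Fintype E] [DecidableEq E] in
private theorem K1_pow (ψ : MulChar E ℂ) [NeZero n] (hψ : ψ ^ n = 1) (a b : ZMod n) :
    ψ ^ (a - b).val * ψ ^ b.val = ψ ^ a.val := by
  have h : a.val = ((a - b).val + b.val) % n := by
    rw [← ZMod.val_add, sub_add_cancel]
  rw [← pow_add, pow_eq_pow_mod ((a - b).val + b.val) hψ, ← h]

private theorem K1_sum (F : E → ℂ) (h : F 0 = 0) : ∑ x : E, F x = ∑ u : Eˣ, F (u : E) := by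
  have h1 : ∑ u : Eˣ, F (u : E) = ∑ x ∈ (Finset.univ : Finset Eˣ).image (fun u : Eˣ => (u : E)), F x := by
    rw [Finset.sum_image]
    intro u _ v _ huv
    exact Units.ext huv
  rw [h1]
  symm
  refine Finset.sum_subset (Finset.subset_univ _) fun x _ hx => ?_
  have hx0 : x = 0 := by
    by_contra hne
    exact hx (Finset.mem_image.2 ⟨Units.mk0 x hne, Finset.mem_univ _, rfl⟩)
  rw [hx0, h]

theorem sel_mul_fel (ψ : MulChar E ℂ) [NeZero n] (hψ : ψ ^ n = 1) (b : ZMod n)
    (p : ZMod n × ZMod n) :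
    sel ψ b * fel ψ p = (-jn ψ (p.1 - b) (p.2 - p.1)) • sel ψ b := by
  unfold sel fel jn jacobiSum
  rw [neg_neg, K1_sum _ (by rw [MulChar.map_zero, zero_mul]), Finset.sum_mul_sum, Finset.sum_comm]
  have h1 : ∀ v : Eˣ, ∑ u : Eˣ, MonoidAlgebra.single u ((ψ ^ b.val) (u : E)) *
      MonoidAlgebra.single v ((ψ ^ p.1.val) (v : E) * (ψ ^ (p.2 - p.1).val) (1 - (v : E))) =
      ∑ w : Eˣ, MonoidAlgebra.single w ((ψ ^ b.val) (w : E) *
        ((ψ ^ (p.1 - b).val) (v : E) * (ψ ^ (p.2 - p.1).val) (1 - (v : E)))) := by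
    intro v
    refine Fintype.sum_equiv (Equiv.mulRight v) _ _ fun u => ?_
    rw [MonoidAlgebra.single_mul_single, Equiv.coe_mulRight]
    congr 1
    rw [Units.val_mul, map_mul, ← K1_pow ψ hψ p.1 b, MulChar.mul_apply]
    ring
  rw [Finset.sum_congr rfl fun v _ => h1 v, Finset.sum_comm, Finset.smul_sum]
  refine Finset.sum_congr rfl fun w _ => ?_
  rw [MonoidAlgebra.smul_single', Finset.sum_mul]
  have h2 : ∀ (s : Finset Eˣ) (f : Eˣ → ℂ), MonoidAlgebra.single w (∑ v ∈ s, f v) =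
      ∑ v ∈ s, MonoidAlgebra.single w (f v) := by
    intro s f
    exact map_sum (MonoidAlgebra.singleAddHom w) f s
  rw [h2]
  refine Finset.sum_congr rfl fun v _ => ?_
  congr 1
  ring

theorem sel_mul_gel (ψ : MulChar E ℂ) [NeZero n] (hψ : ψ ^ n = 1) (b : ZMod n)
    (L : Multiset (ZMod n × ZMod n)) (x : Eˣ) :
    (sel ψ b * gel ψ L).coeff x = (ψ ^ b.val) (x : E) *
      (L.map fun p => -jn ψ (p.1 - b) (p.2 - p.1)).prod := by
  have key : sel ψ b * gel ψ L = (L.map fun p => -jn ψ (p.1 - b) (p.2 - p.1)).prod • sel ψ b := by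
    induction L using Multiset.induction_on with
    | empty =>
      unfold gel
      simp
    | cons p L ih =>
      have h1 : gel ψ (p ::ₘ L) = fel ψ p * gel ψ L := by
        unfold gel
        rw [Multiset.map_cons, Multiset.prod_cons]
      rw [h1, ← mul_assoc, sel_mul_fel ψ hψ, smul_mul_assoc, ih, Multiset.map_cons, Multiset.prod_cons, smul_smul]
  have h2 : (sel ψ b).coeff x = (ψ ^ b.val) (x : E) := by
    unfold sel
    rw [MonoidAlgebra.coeff_sum, Finset.sum_apply']
    simp only [MonoidAlgebra.coeff_single]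
    rw [Finset.sum_eq_single x]
    · simp
    · intro u _ hu
      rw [Finsupp.single_apply, if_neg hu]
    · intro h
      exact absurd (Finset.mem_univ x) h
  rw [key, MonoidAlgebra.coeff_smul_apply, h2, smul_eq_mul, mul_comm]

theorem fel_diag (ψ : MulChar E ℂ) (b : ZMod n) : fel ψ (b, b) = sel ψ b - 1 := by
  unfold fel sel
  rw [eq_sub_iff_add_eq]
  have h0 : ∀ u : Eˣ, (ψ ^ ((b, b) : ZMod n × ZMod n).1.val) (u : E) *
      (ψ ^ (((b, b) : ZMod n × ZMod n).2 - ((b, b) : ZMod n × ZMod n).1).val) (1 - (u : E)) =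
      (ψ ^ b.val) (u : E) - (if u = 1 then 1 else 0) := by
    intro u
    show (ψ ^ b.val) (u : E) * (ψ ^ (b - b).val) (1 - (u : E)) = _
    rw [sub_self, ZMod.val_zero, pow_zero]
    by_cases hu : u = 1
    · subst hu
      rw [if_pos rfl, Units.val_one, sub_self, MulChar.map_zero, mul_zero, map_one, sub_self]
    · have hne : (1 - (u : E)) ≠ 0 := by
        intro h
        apply hu
        apply Units.ext
        rw [Units.val_one]
        exact (sub_eq_zero.1 h).symm
      rw [if_neg hu, MulChar.one_apply (Ne.isUnit hne), mul_one, sub_zero]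
  have h1 : (1 : MonoidAlgebra ℂ Eˣ) = ∑ u : Eˣ, MonoidAlgebra.single u (if u = 1 then (1 : ℂ) else 0) := by
    rw [Finset.sum_eq_single 1]
    · rw [if_pos rfl]
      rfl
    · intro u _ hu
      rw [if_neg hu, MonoidAlgebra.single_zero]
    · intro h
      exact absurd (Finset.mem_univ _) h
  rw [h1, ← Finset.sum_add_distrib]
  refine Finset.sum_congr rfl fun u _ => ?_
  rw [h0, ← MonoidAlgebra.single_add, sub_add_cancel]

end Pool.Agent.LibPR30
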