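import Pool.Agent.LibPR30.Defs
set_option autoImplicit false

/-!
Row PR30 K2. Convolution of two beta functions in the group algebra.
The coefficient at `w` is `ψ^b(w) ∑_{s ≠ 0} ψ^(b-a)(s-1) ψ^(c-b)(1 - w s)`. If `w ≠ 1` substitute `s = 1 + ((1-w)/w) t`; if `w = 1` use
orthogonality.
-/

namespace Pool.Agent.LibPR30

open Polynomial Module

variable {E : Type} [Field E] [Fintype E] [DecidableEq E] {n : ℕ}

omit [Fintype E] [DecidableEq E] in
private theorem K2_pow (ψ : MulChar E ℂ) [NeZero n] (hψ : ψ ^ n = 1) (a b : ZMod n) :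
    ψ ^ (a - b).val * ψ ^ b.val = ψ ^ a.val := by
  have h : a.val = ((a - b).val + b.val) % n := by
    rw [← ZMod.val_add, sub_add_cancel]
  rw [← pow_add, pow_eq_pow_mod ((a - b).val + b.val) hψ, ← h]

omit [Fintype E] [DecidableEq E] in
private theorem K2_neg_one (ψ : MulChar E ℂ) (hψ : ψ ^ n = 1) (hn : Odd n) : ψ (-1 : E) = 1 := by
  have h1 : ψ (-1 : E) ^ 2 = 1 := by
    rw [← map_pow, neg_one_sq, map_one]
  have h2 : ψ (-1 : E) ^ n = 1 := by
    have h3 : (ψ ^ n) (-1 : E) = ψ (-1 : E) ^ n := by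
      have := MulChar.pow_apply_coe ψ n (-1 : Eˣ)
      simpa using this
    rw [← h3, hψ]
    have := MulChar.one_apply_coe (R' := ℂ) (-1 : Eˣ)
    simpa using this
  obtain ⟨k, hk⟩ := hn
  rw [hk, pow_add, pow_mul, h1, one_pow, one_mul, pow_one] at h2
  exact h2

omit [Fintype E] [DecidableEq E] in
private theorem K2_pow_neg_one (ψ : MulChar E ℂ) (hψ : ψ ^ n = 1) (hn : Odd n) (k : ℕ) :
    (ψ ^ k) (-1 : E) = 1 := by
  have h3 : (ψ ^ k) (-1 : E) = ψ (-1 : E) ^ k := by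
    have := MulChar.pow_apply_coe ψ k (-1 : Eˣ)
    simpa using this
  rw [h3, K2_neg_one ψ hψ hn, one_pow]

private theorem K2_sum (F : E → ℂ) : ∑ u : Eˣ, F (u : E) = ∑ x : E, F x - F 0 := by
  have h1 : ∑ u : Eˣ, F (u : E) =
      ∑ x ∈ (Finset.univ : Finset Eˣ).image (fun u : Eˣ => (u : E)), F x := by
    rw [Finset.sum_image]
    intro u _ v _ huv
    exact Units.ext huv
  have h2 : (Finset.univ : Finset Eˣ).image (fun u : Eˣ => (u : E)) = Finset.univ.erase 0 := by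
    ext x
    rw [Finset.mem_image, Finset.mem_erase]
    constructor
    · rintro ⟨u, _, rfl⟩
      exact ⟨u.ne_zero, Finset.mem_univ _⟩
    · rintro ⟨hx, _⟩
      exact ⟨Units.mk0 x hx, Finset.mem_univ _, rfl⟩
  rw [h1, h2, Finset.sum_erase_eq_sub (Finset.mem_univ _)]

omit [DecidableEq E] in
/-- the inner sum for `w ≠ 1` -/
private theorem K2_ne (α β : MulChar E ℂ) (w : Eˣ) (hw : w ≠ 1) :
    ∑ s : E, α (s - 1) * β (1 - s * (w : E)) =
      α (1 - (w : E)) * α ((w⁻¹ : Eˣ) : E) * β (1 - (w : E)) * jacobiSum α β := by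
  have hw1 : (1 - (w : E)) ≠ 0 := by
    intro h
    apply hw
    apply Units.ext
    rw [Units.val_one]
    exact (sub_eq_zero.1 h).symm
  have hw0 : (w : E) ≠ 0 := w.ne_zero
  have hk : (1 - (w : E)) / (w : E) ≠ 0 := div_ne_zero hw1 hw0
  unfold jacobiSum
  rw [Finset.mul_sum]
  have key : ∀ t : E, α ((1 + (1 - (w : E)) / (w : E) * t) - 1) *
      β (1 - (1 + (1 - (w : E)) / (w : E) * t) * (w : E)) =
      α (1 - (w : E)) * α ((w⁻¹ : Eˣ) : E) * β (1 - (w : E)) * (α t * β (1 - t)) := by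
    intro t
    have e1 : (1 + (1 - (w : E)) / (w : E) * t) - 1 = (1 - (w : E)) * ((w⁻¹ : Eˣ) : E) * t := by
      rw [Units.val_inv_eq_inv_val]
      ring
    have e2 : 1 - (1 + (1 - (w : E)) / (w : E) * t) * (w : E) = (1 - (w : E)) * (1 - t) := by
      field_simp
      ring
    rw [e1, e2, map_mul, map_mul, map_mul]
    ring
  rw [← Finset.sum_congr rfl fun t _ => key t]
  refine (Function.Bijective.sum_comp (e := fun t : E => 1 + (1 - (w : E)) / (w : E) * t) ?_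
    (fun s => α (s - 1) * β (1 - s * (w : E)))).symm
  rw [Function.bijective_iff_has_inverse]
  refine ⟨fun s => (s - 1) / ((1 - (w : E)) / (w : E)), fun t => ?_, fun s => ?_⟩
  · show (1 + (1 - (w : E)) / (w : E) * t - 1) / ((1 - (w : E)) / (w : E)) = t
    rw [add_sub_cancel_left, mul_div_cancel_left₀ _ hk]
  · show 1 + (1 - (w : E)) / (w : E) * ((s - 1) / ((1 - (w : E)) / (w : E))) = s
    rw [mul_div_cancel₀ _ hk]
    ring

/-- the inner sum for `w = 1` -/
private theorem K2_one (α β : MulChar E ℂ) (hβ : β (-1 : E) = 1) :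
    ∑ s : E, α (s - 1) * β (1 - s * ((1 : Eˣ) : E)) =
      if α * β = 1 then (Fintype.card E : ℂ) - 1 else 0 := by
  have h1 : ∀ s : E, α (s - 1) * β (1 - s * ((1 : Eˣ) : E)) = (α * β) (s - 1) := by
    intro s
    rw [Units.val_one, mul_one, MulChar.mul_apply]
    congr 1
    have : 1 - s = (-1) * (s - 1) := by ring
    rw [this, map_mul, hβ, one_mul]
  rw [Finset.sum_congr rfl fun s _ => h1 s]
  have h2 : ∑ s : E, (α * β) (s - 1) = ∑ s : E, (α * β) s :=
    Fintype.sum_equiv (Equiv.subRight 1) _ _ fun s => rfl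
  rw [h2]
  split_ifs with h
  · rw [h, MulChar.sum_one_eq_card_units, Fintype.card_units]
    have : 1 ≤ Fintype.card E := Fintype.card_pos
    push_cast [Nat.cast_sub this]
    rfl
  · exact MulChar.sum_eq_zero_of_ne_one h

private theorem K2_coeff (ψ : MulChar E ℂ) [NeZero n] (hψ : orderOf ψ = n) (hn : Odd n)
    (a b c : ZMod n) (w : Eˣ) :
    ∑ x : Eˣ, ((ψ ^ a.val) (x : E) * (ψ ^ (b - a).val) (1 - (x : E))) *
      ((ψ ^ b.val) ((x⁻¹ * w : Eˣ) : E) * (ψ ^ (c - b).val) (1 - ((x⁻¹ * w : Eˣ) : E))) =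
    -jn ψ (b - a) (c - b) * ((ψ ^ a.val) (w : E) * (ψ ^ (c - a).val) (1 - (w : E))) -
      (ψ ^ b.val) (w : E) + (if a = c then ((Fintype.card E : ℂ) - 1) else 0) *
        (if w = 1 then 1 else 0) := by
  have hψn : ψ ^ n = 1 := by
    rw [← hψ]
    exact pow_orderOf_eq_one ψ
  have hab := K2_pow ψ hψn b a
  have hac : ψ ^ (b - a).val * ψ ^ (c - b).val = ψ ^ (c - a).val := by
    have h := K2_pow ψ hψn (c - a) (b - a)
    rw [sub_sub_sub_cancel_right] at h
    rw [mul_comm]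
    exact h
  have hm1 := K2_pow_neg_one ψ hψn hn (b - a).val
  have hm2 := K2_pow_neg_one ψ hψn hn (c - b).val
  set α := ψ ^ (b - a).val with hα
  set β := ψ ^ (c - b).val with hβ
  -- the summand
  have h1 : ∀ x : Eˣ, ((ψ ^ a.val) (x : E) * α (1 - (x : E))) *
      ((ψ ^ b.val) ((x⁻¹ * w : Eˣ) : E) * β (1 - ((x⁻¹ * w : Eˣ) : E))) =
      (ψ ^ b.val) (w : E) * (α (((x⁻¹ : Eˣ) : E) - 1) * β (1 - ((x⁻¹ : Eˣ) : E) * (w : E))) := by
    intro x
    rw [Units.val_mul, map_mul, ← hab, MulChar.mul_apply, MulChar.mul_apply]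
    have e1 : α (((x⁻¹ : Eˣ) : E) - 1) = α ((x⁻¹ : Eˣ) : E) * α (1 - (x : E)) := by
      rw [← map_mul]
      congr 1
      rw [mul_sub, mul_one, Units.inv_mul]
    have e2 : (ψ ^ a.val) (x : E) * (ψ ^ a.val) ((x⁻¹ : Eˣ) : E) = 1 := by
      rw [← map_mul, Units.mul_inv, map_one]
    rw [e1]
    calc _ = ((ψ ^ a.val) (x : E) * (ψ ^ a.val) ((x⁻¹ : Eˣ) : E)) * (α (w : E) *
          (ψ ^ a.val) (w : E) * (α ((x⁻¹ : Eˣ) : E) * α (1 - (x : E)) *
          β (1 - ((x⁻¹ : Eˣ) : E) * (w : E)))) := by ring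
      _ = _ := by rw [e2, one_mul]
  rw [Finset.sum_congr rfl fun x _ => h1 x, ← Finset.mul_sum]
  have h2 : ∑ x : Eˣ, α (((x⁻¹ : Eˣ) : E) - 1) * β (1 - ((x⁻¹ : Eˣ) : E) * (w : E)) =
      ∑ s : Eˣ, α ((s : E) - 1) * β (1 - (s : E) * (w : E)) :=
    Fintype.sum_equiv (Equiv.inv Eˣ) _ _ fun x => rfl
  rw [h2, K2_sum (fun s : E => α (s - 1) * β (1 - s * (w : E)))]
  have h3 : α ((0 : E) - 1) * β (1 - (0 : E) * (w : E)) = 1 := by
    rw [zero_sub, hm1, zero_mul, sub_zero, map_one, mul_one]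
  rw [h3]
  by_cases hw : w = 1
  · subst hw
    rw [K2_one α β hm2, Units.val_one, sub_self, MulChar.map_zero, map_one, map_one, hac, if_pos rfl]
    have h4 : (ψ ^ (c - a).val = 1) ↔ a = c := by
      rw [← orderOf_dvd_iff_pow_eq_one, hψ]
      constructor
      · intro h
        have h5 : (c - a).val = 0 := Nat.eq_zero_of_dvd_of_lt h (ZMod.val_lt _)
        rw [ZMod.val_eq_zero, sub_eq_zero] at h5
        exact h5.symm
      · rintro rfl
        rw [sub_self, ZMod.val_zero]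
        exact dvd_zero _
    by_cases h6 : a = c
    · rw [if_pos (h4.2 h6), if_pos h6]
      ring
    · rw [if_neg (fun h => h6 (h4.1 h)), if_neg h6]
      ring
  · rw [K2_ne α β w hw, if_neg hw, ← hac, MulChar.mul_apply]
    have e3 : (ψ ^ b.val) (w : E) * α ((w⁻¹ : Eˣ) : E) = (ψ ^ a.val) (w : E) := by
      rw [← hab, MulChar.mul_apply]
      have : α (w : E) * α ((w⁻¹ : Eˣ) : E) = 1 := by
        rw [← map_mul, Units.mul_inv, map_one]
      calc _ = (α (w : E) * α ((w⁻¹ : Eˣ) : E)) * (ψ ^ a.val) (w : E) := by ring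
        _ = _ := by rw [this, one_mul]
    have e4 : -jn ψ (b - a) (c - b) = jacobiSum α β := by
      unfold jn
      rw [neg_neg]
    rw [e4]
    linear_combination (α (1 - (w : E)) * β (1 - (w : E)) * jacobiSum α β) * e3

theorem fel_mul_fel (ψ : MulChar E ℂ) [NeZero n] (hψ : orderOf ψ = n) (hn : Odd n)
    (a b c : ZMod n) : fel ψ (a, b) * fel ψ (b, c) = (-jn ψ (b - a) (c - b)) • fel ψ (a, c) -
      sel ψ b + (if a = c then ((Fintype.card E : ℂ) - 1) else 0) • (1 : MonoidAlgebra ℂ Eˣ) := by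
  have hsum : ∀ (w : Eˣ) (s : Finset Eˣ) (f : Eˣ → ℂ), MonoidAlgebra.single w (∑ v ∈ s, f v) =
      ∑ v ∈ s, MonoidAlgebra.single w (f v) := by
    intro w s f
    exact map_sum (MonoidAlgebra.singleAddHom w) f s
  have hone : (1 : MonoidAlgebra ℂ Eˣ) =
      ∑ u : Eˣ, MonoidAlgebra.single u (if u = 1 then (1 : ℂ) else 0) := by
    rw [Finset.sum_eq_single 1]
    · rw [if_pos rfl]
      rfl
    · intro u _ hu
      rw [if_neg hu, MonoidAlgebra.single_zero]
    · intro h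
      exact absurd (Finset.mem_univ _) h
  have hL : fel ψ (a, b) * fel ψ (b, c) = ∑ w : Eˣ, MonoidAlgebra.single w
      (∑ x : Eˣ, ((ψ ^ a.val) (x : E) * (ψ ^ (b - a).val) (1 - (x : E))) *
      ((ψ ^ b.val) ((x⁻¹ * w : Eˣ) : E) * (ψ ^ (c - b).val) (1 - ((x⁻¹ * w : Eˣ) : E)))) := by
    unfold fel
    rw [Finset.sum_mul_sum]
    have h1 : ∀ x : Eˣ, ∑ y : Eˣ, MonoidAlgebra.single x
        ((ψ ^ a.val) (x : E) * (ψ ^ (b - a).val) (1 - (x : E))) *
        MonoidAlgebra.single y ((ψ ^ b.val) (y : E) * (ψ ^ (c - b).val) (1 - (y : E))) =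
        ∑ w : Eˣ, MonoidAlgebra.single w
        (((ψ ^ a.val) (x : E) * (ψ ^ (b - a).val) (1 - (x : E))) *
        ((ψ ^ b.val) ((x⁻¹ * w : Eˣ) : E) * (ψ ^ (c - b).val) (1 - ((x⁻¹ * w : Eˣ) : E)))) := by
      intro x
      refine Fintype.sum_equiv (Equiv.mulLeft x) _ _ fun y => ?_
      rw [MonoidAlgebra.single_mul_single, Equiv.coe_mulLeft, inv_mul_cancel_left]
    rw [Finset.sum_congr rfl fun x _ => h1 x, Finset.sum_comm]
    exact Finset.sum_congr rfl fun w _ => (hsum w _ _).symm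
  rw [hL, hone]
  unfold fel sel
  rw [Finset.smul_sum, Finset.smul_sum, ← Finset.sum_sub_distrib, ← Finset.sum_add_distrib]
  refine Finset.sum_congr rfl fun w _ => ?_
  rw [MonoidAlgebra.smul_single', MonoidAlgebra.smul_single', ← MonoidAlgebra.single_sub,
    ← MonoidAlgebra.single_add, K2_coeff ψ hψ hn a b c w]

end Pool.Agent.LibPR30
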