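import Pool.Agent.LibPR30.Defs
import Pool.Agent.LibPR30.K1
import Pool.Agent.LibPR30.K2
import Pool.Agent.LibPR30.K4
set_option autoImplicit false

/-!
From `fel_diag`, `sel_mul_gel`, `fel_mul_fel`, `orderOf_nch`, `card_tow`, `nch_algebraMap`, `nch_pow` (Rows). `k = 0`: by definition
(card). `k > 0`: `gel ψ (p ::ₘ L) = fel ψ p * gel ψ L`; take the coefficient at `c`. Signs:
T_diag: `-(-1)^(m+1) * (ψ^b(c) ∏(-jn) - gel L (c)) = ψ^b(c) ∏ jn - (-1)^m gel L (c)`, `m = card L`.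
T_chain: `-(-1)^(m+2) (-jn * gel((a,d)::L)(c) - ψ^b(c) ∏(-jn) + [a=d](Q-1) gel L (c))`. `(ψ^b.val)(c) = (χ^b.val)(c)^k`.
-/

namespace Pool.Agent.LibPR30

open Polynomial Module

private theorem K5_prod_neg {α : Type*} (L : Multiset α) (f : α → ℂ) :
    (L.map fun p => -f p).prod = (-1) ^ (Multiset.card L) * (L.map f).prod := by
  induction L using Multiset.induction_on with
  | empty => simp
  | cons a s ih =>
    rw [Multiset.map_cons, Multiset.prod_cons, ih, Multiset.map_cons, Multiset.prod_cons,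
      Multiset.card_cons, pow_succ]
    ring

private theorem K5_gel_cons {E : Type} [Field E] [Fintype E] [DecidableEq E] {n : ℕ}
    (ψ : MulChar E ℂ) (p : ZMod n × ZMod n) (L : Multiset (ZMod n × ZMod n)) :
    gel ψ (p ::ₘ L) = fel ψ p * gel ψ L := by
  unfold gel
  rw [Multiset.map_cons, Multiset.prod_cons]

private theorem K5_fel_coeff {E : Type} [Field E] [Fintype E] [DecidableEq E] {n : ℕ}
    (ψ : MulChar E ℂ) (p : ZMod n × ZMod n) (x : Eˣ) :
    (fel ψ p).coeff x = (ψ ^ p.1.val) (x : E) * (ψ ^ (p.2 - p.1).val) (1 - (x : E)) := by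
  unfold fel
  rw [MonoidAlgebra.coeff_sum, Finsupp.finsetSum_apply]
  simp only [MonoidAlgebra.coeff_single, Finsupp.single_apply]
  rw [Finset.sum_ite_eq' Finset.univ x]
  simp

private theorem K5_val {F : Type} [Field F] (𝓔 : Tow F) (c : Fˣ) (k : ℕ) :
    ((Units.map (algebraMap F (𝓔.E k) : F →* 𝓔.E k) c : (𝓔.E k)ˣ) : 𝓔.E k) =
      algebraMap F (𝓔.E k) (c : F) := rfl

private theorem K5_pow {F : Type} [Field F] [Finite F] (𝓔 : Tow F) (χ : MulChar F ℂ) (y : F)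
    {k : ℕ} (hk : 0 < k) (m : ℕ) :
    ((nch χ (𝓔.E k)) ^ m) (algebraMap F (𝓔.E k) y) = ((χ ^ m) y) ^ k := by
  rw [nch_pow, nch_algebraMap, 𝓔.rank k hk]

variable {F : Type} [Field F] [Finite F]
variable {n : ℕ} (𝓔 : Tow F) (χ : MulChar F ℂ) (c : Fˣ) (hn : 1 < n) (hn2 : Odd n)
  (hχ : orderOf χ = n)
include hn hn2 hχ

theorem T_diag (b : ZMod n) (L : Multiset (ZMod n × ZMod n)) (k : ℕ) :
    T 𝓔 χ c ((b, b) ::ₘ L) k = T 𝓔 χ c L k + U 𝓔 χ c b L k := by
  rcases Nat.eq_zero_or_pos k with rfl | hk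
  · simp [T, U, W]
  · have hk0 : k ≠ 0 := hk.ne'
    have : NeZero n := ⟨by omega⟩
    have hord : orderOf (nch χ (𝓔.E k)) = n := (orderOf_nch χ (𝓔.E k)).trans hχ
    have hψ : nch χ (𝓔.E k) ^ n = 1 := by
      rw [← hord]
      exact pow_orderOf_eq_one _
    have h1 := sel_mul_gel (nch χ (𝓔.E k)) hψ b L
      (Units.map (algebraMap F (𝓔.E k) : F →* 𝓔.E k) c)
    have h2 : gel (nch χ (𝓔.E k)) ((b, b) ::ₘ L) =
        sel (nch χ (𝓔.E k)) b * gel (nch χ (𝓔.E k)) L - gel (nch χ (𝓔.E k)) L := by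
      rw [K5_gel_cons, fel_diag, sub_mul, one_mul]
    rw [K5_val, K5_pow 𝓔 χ _ hk, K5_prod_neg] at h1
    have h3 : ((-1 : ℂ) ^ Multiset.card L) * (-1) ^ Multiset.card L = 1 := by
      rw [← mul_pow]
      norm_num
    simp only [T, U, W, if_neg hk0]
    rw [h2, MonoidAlgebra.coeff_sub, Finsupp.sub_apply, h1, Multiset.card_cons, pow_succ]
    linear_combination ((χ ^ b.val) (c : F) ^ k *
      (L.map fun p => jn (nch χ (𝓔.E k)) (p.1 - b) (p.2 - p.1)).prod) * h3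

theorem T_chain (a b d : ZMod n) (L : Multiset (ZMod n × ZMod n)) (k : ℕ) :
    T 𝓔 χ c ((a, b) ::ₘ (b, d) ::ₘ L) k = W 𝓔 χ (b - a) (d - b) k * T 𝓔 χ c ((a, d) ::ₘ L) k +
      U 𝓔 χ c b L k + (if a = d then ((Nat.card F : ℂ) ^ k - 1) * T 𝓔 χ c L k else 0) := by
  rcases Nat.eq_zero_or_pos k with rfl | hk
  · simp only [T, U, W, if_true, Multiset.card_cons]
    simp
  · have hk0 : k ≠ 0 := hk.ne'
    have : NeZero n := ⟨by omega⟩
    have hord : orderOf (nch χ (𝓔.E k)) = n := (orderOf_nch χ (𝓔.E k)).trans hχ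
    have hψ : nch χ (𝓔.E k) ^ n = 1 := by
      rw [← hord]
      exact pow_orderOf_eq_one _
    have h1 := sel_mul_gel (nch χ (𝓔.E k)) hψ b L
      (Units.map (algebraMap F (𝓔.E k) : F →* 𝓔.E k) c)
    have hcard : (Fintype.card (𝓔.E k) : ℂ) = (Nat.card F : ℂ) ^ k := by
      rw [card_tow 𝓔 k hk]
      push_cast
      ring
    have h2 : gel (nch χ (𝓔.E k)) ((a, b) ::ₘ (b, d) ::ₘ L) =
        (-jn (nch χ (𝓔.E k)) (b - a) (d - b)) • gel (nch χ (𝓔.E k)) ((a, d) ::ₘ L) -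
          sel (nch χ (𝓔.E k)) b * gel (nch χ (𝓔.E k)) L +
          (if a = d then ((Nat.card F : ℂ) ^ k - 1) else 0) • gel (nch χ (𝓔.E k)) L := by
      rw [K5_gel_cons, K5_gel_cons, ← mul_assoc,
        fel_mul_fel (nch χ (𝓔.E k)) hord hn2 a b d, add_mul, sub_mul,
        smul_mul_assoc, smul_mul_assoc, one_mul, K5_gel_cons, hcard]
    rw [K5_val, K5_pow 𝓔 χ _ hk, K5_prod_neg] at h1
    have h3 : ((-1 : ℂ) ^ Multiset.card L) * (-1) ^ Multiset.card L = 1 := by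
      rw [← mul_pow]
      norm_num
    simp only [T, U, W, if_neg hk0]
    rw [h2, MonoidAlgebra.coeff_add, Finsupp.add_apply, MonoidAlgebra.coeff_sub, Finsupp.sub_apply,
      MonoidAlgebra.coeff_smul_apply, MonoidAlgebra.coeff_smul_apply, h1, Multiset.card_cons,
      Multiset.card_cons, Multiset.card_cons, smul_eq_mul, smul_eq_mul]
    split_ifs
    · linear_combination ((χ ^ b.val) (c : F) ^ k *
        (L.map fun p => jn (nch χ (𝓔.E k)) (p.1 - b) (p.2 - p.1)).prod) * h3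
    · linear_combination ((χ ^ b.val) (c : F) ^ k *
        (L.map fun p => jn (nch χ (𝓔.E k)) (p.1 - b) (p.2 - p.1)).prod) * h3

theorem T_single (a b : ZMod n) (k : ℕ) :
    T 𝓔 χ c {(a, b)} k = ((χ ^ a.val) (c : F) * (χ ^ (b - a).val) (1 - (c : F))) ^ k := by
  rcases Nat.eq_zero_or_pos k with rfl | hk
  · simp [T]
  · have hk0 : k ≠ 0 := hk.ne'
    have h1 : gel (nch χ (𝓔.E k)) {(a, b)} = fel (nch χ (𝓔.E k)) (a, b) := by
      unfold gel
      rw [Multiset.map_singleton, Multiset.prod_singleton]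
    have h2 : (1 : 𝓔.E k) - algebraMap F (𝓔.E k) (c : F) = algebraMap F (𝓔.E k) (1 - (c : F)) := by
      rw [map_sub, map_one]
    simp only [T, if_neg hk0]
    rw [h1, K5_fel_coeff, K5_val, h2]
    dsimp only
    rw [K5_pow 𝓔 χ _ hk, K5_pow 𝓔 χ _ hk, Multiset.card_singleton, mul_pow]
    ring

end Pool.Agent.LibPR30
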