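import Pool.Agent.LibPR30.Defs
import Pool.Agent.LibPR30.K4
set_option autoImplicit false

namespace Pool.Agent.LibPR30

open Polynomial Module

section a
variable {E : Type} [Field E] [Fintype E] [DecidableEq E] {n : ℕ}

theorem K3_prod_single {r : ℕ} (u : Fin r → Eˣ) (g : Fin r → ℂ) (s : Finset (Fin r)) :
    ∏ i ∈ s, (MonoidAlgebra.single (u i) (g i) : MonoidAlgebra ℂ Eˣ) =
      MonoidAlgebra.single (∏ i ∈ s, u i) (∏ i ∈ s, g i) := by
  classical
  induction s using Finset.induction_on with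
  | empty => simp [MonoidAlgebra.one_def]
  | insert i s hi ih =>
    rw [Finset.prod_insert hi, Finset.prod_insert hi, Finset.prod_insert hi, ih,
      MonoidAlgebra.single_mul_single]

theorem K3_coeff_sum {ι : Type*} (s : Finset ι) (f : ι → MonoidAlgebra ℂ Eˣ) (x : Eˣ) :
    (∑ i ∈ s, f i).coeff x = ∑ i ∈ s, (f i).coeff x := by
  classical
  induction s using Finset.induction_on with
  | empty => simp
  | insert i s hi ih =>
    rw [Finset.sum_insert hi, Finset.sum_insert hi, ← ih, MonoidAlgebra.coeff_add]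
    rfl

theorem gel_eq_sum (ψ : MulChar E ℂ) {r : ℕ} (p : Fin r → ZMod n × ZMod n) (x : Eˣ) :
    (gel ψ (Finset.univ.val.map p)).coeff x =
      ∑ u ∈ (Finset.univ : Finset (Fin r → Eˣ)).filter (fun u => ∏ i, u i = x),
        ∏ i, ((ψ ^ (p i).1.val) (u i : E) * (ψ ^ ((p i).2 - (p i).1).val) (1 - (u i : E))) := by
  have h1 : gel ψ (Finset.univ.val.map p) = ∏ i, fel ψ (p i) := by
    unfold gel
    rw [Multiset.map_map]
    rfl
  have h2 : ∏ i, fel ψ (p i) = ∑ u : Fin r → Eˣ, MonoidAlgebra.single (∏ i, u i)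
      (∏ i, ((ψ ^ (p i).1.val) (u i : E) * (ψ ^ ((p i).2 - (p i).1).val) (1 - (u i : E)))) := by
    simp only [fel]
    rw [Finset.prod_univ_sum, Fintype.piFinset_univ]
    refine Finset.sum_congr rfl fun u _ => ?_
    exact K3_prod_single u _ Finset.univ
  rw [h1, h2, K3_coeff_sum, Finset.sum_filter]
  refine Finset.sum_congr rfl fun u _ => ?_
  rw [MonoidAlgebra.coeff_single, Finsupp.single_apply]

end a

section b
variable {F : Type} [Field F] [Finite F]

theorem pow_val_eq (χ : MulChar F ℂ) {n : ℕ} (hn : n ≠ 0) (hχ : orderOf χ = n) (m : ℤ) :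
    χ ^ ((m : ZMod n)).val = χ ^ m := by
  have : NeZero n := ⟨hn⟩
  rw [← zpow_natCast, ZMod.val_intCast, ← hχ, zpow_mod_orderOf]

theorem hsum_eq (χ : MulChar F ℂ) {n r : ℕ} (hn : n ≠ 0) (hχ : orderOf χ = n)
    (a b : Fin r → ℤ) (c : Fˣ) (E : Type) [Field E]
    [Fintype E] [DecidableEq E] [Algebra F E] : hsum χ a b (c : F) E =
      (gel (nch χ E) (Finset.univ.val.map fun i => ((a i : ZMod n), (b i : ZMod n)))).coeff
        (Units.map (algebraMap F E : F →* E) c) := by
  classical
  rw [gel_eq_sum]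
  unfold hsum
  rw [finsum_eq_sum_of_fintype]
  symm
  have hc0 : algebraMap F E (c : F) ≠ 0 := by
    rw [Ne, map_eq_zero]
    exact c.ne_zero
  have hne : ∀ x : {x : Fin r → E // ∏ i, x i = algebraMap F E (c : F)}, ∀ i, x.1 i ≠ 0 := by
    intro x i hi
    apply hc0
    rw [← x.2]
    exact Finset.prod_eq_zero (Finset.mem_univ i) hi
  refine Finset.sum_bij' (fun u hu => ⟨fun i => (u i : E), ?_⟩)
    (fun x _ => fun i => Units.mk0 (x.1 i) (hne x i)) ?_ ?_ ?_ ?_ ?_
  · have h1 := (Finset.mem_filter.1 hu).2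
    have h2 := congrArg (fun v : Eˣ => (v : E)) h1
    simpa using h2
  · intro u _
    exact Finset.mem_univ _
  · intro x _
    rw [Finset.mem_filter]
    refine ⟨Finset.mem_univ _, ?_⟩
    apply Units.ext
    rw [Units.coe_prod]
    exact x.2
  · intro u _
    funext i
    exact Units.ext rfl
  · intro x _
    rfl
  · intro u _
    refine Finset.prod_congr rfl fun i _ => ?_
    simp only [nch_pow, nch_apply]
    rw [← Int.cast_sub, pow_val_eq χ hn hχ, pow_val_eq χ hn hχ]

end b

end Pool.Agent.LibPR30
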