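import Pool.Agent.LibPR30.Defs
set_option autoImplicit false

/-!
Row PR30 R1: the Newton identities for a completely multiplicative weight on the monic polynomials over `F`
and the sum of the weights of the minimal polynomials.
-/

namespace Pool.Agent.LibPR30

set_option linter.unusedSectionVars false

open Polynomial Module

variable {F : Type} [Field F] [Fintype F]

section helpers

open scoped Classical

theorem r1_mem_Mon (n : ℕ) (f : F[X]) : f ∈ MonF F n ↔ f.Monic ∧ f.natDegree = n := by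
  unfold MonF
  rw [Finset.mem_image]
  constructor
  · rintro ⟨v, -, rfl⟩
    have h : (∑ i : Fin n, Polynomial.C (v i) * X ^ (i : ℕ) : F[X]).degree < (n : WithBot ℕ) :=
      Polynomial.degree_sum_fin_lt v
    refine ⟨monic_X_pow_add h, natDegree_eq_of_degree_eq_some ?_⟩
    rw [degree_add_eq_left_of_degree_lt, degree_X_pow]
    rw [degree_X_pow]
    exact h
  · rintro ⟨hf, hn⟩
    refine ⟨fun i => f.coeff i, Finset.mem_univ _, ?_⟩
    have h := hf.as_sum
    rw [hn, Finset.sum_range] at h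
    exact h.symm

/-- pairs `(d, m)` with `d m ≤ n` and an irreducible monic polynomial of degree `d` -/
noncomputable def r1PP (F : Type) [Field F] [Fintype F] (n : ℕ) : Finset (Σ _ : ℕ × ℕ, F[X]) :=
  (((Finset.Icc 1 n) ×ˢ (Finset.Icc 1 n)).filter (fun x => x.1 * x.2 ≤ n)).sigma
    (fun x => (MonF F x.1).filter (fun g => Irreducible g))

theorem r1_pow_dvd (f g : F[X]) (hf : f ≠ 0) (hg : Irreducible g) (hgm : g.Monic)
    (m : ℕ) : g ^ m ∣ f ↔ m ≤ (UniqueFactorizationMonoid.normalizedFactors f).count g := by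
  have hn : normalize g = g := hgm.normalize_eq_self
  rw [UniqueFactorizationMonoid.dvd_iff_normalizedFactors_le_normalizedFactors
    (pow_ne_zero m hg.ne_zero) hf, UniqueFactorizationMonoid.normalizedFactors_pow,
    UniqueFactorizationMonoid.normalizedFactors_irreducible hg, hn, Multiset.nsmul_singleton,
    Multiset.le_count_iff_replicate_le]

theorem r1_natDegree_eq (f : F[X]) (hf : f.Monic) :
    f.natDegree = ∑ g ∈ (UniqueFactorizationMonoid.normalizedFactors f).toFinset,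
      (UniqueFactorizationMonoid.normalizedFactors f).count g * g.natDegree := by
  have h1 : (UniqueFactorizationMonoid.normalizedFactors f).prod = f := by
    rw [UniqueFactorizationMonoid.prod_normalizedFactors_eq hf.ne_zero, hf.normalize_eq_self]
  have h0 : (0 : F[X]) ∉ UniqueFactorizationMonoid.normalizedFactors f :=
    UniqueFactorizationMonoid.zero_notMem_normalizedFactors f
  have h2 : f.natDegree = ((UniqueFactorizationMonoid.normalizedFactors f).map natDegree).sum := by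
    conv_lhs => rw [← h1]
    rw [natDegree_multiset_prod _ h0]
  rw [h2, Finset.sum_multiset_map_count]
  rfl

/-- C10: `deg f = ∑_{g^m ∣ f} deg g` -/
theorem r1_deg_eq (n : ℕ) (f : F[X]) (hf : f ∈ MonF F n) :
    (n : ℂ) = ∑ x ∈ r1PP F n, if x.2 ^ x.1.2 ∣ f then (x.1.1 : ℂ) else 0 := by
  obtain ⟨hfm, hfd⟩ := (r1_mem_Mon n f).1 hf
  have hf0 := hfm.ne_zero
  have hkey : n = ∑ g ∈ (UniqueFactorizationMonoid.normalizedFactors f).toFinset,
      ∑ m ∈ Finset.Icc 1 ((UniqueFactorizationMonoid.normalizedFactors f).count g), g.natDegree := by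
    rw [← hfd, r1_natDegree_eq f hfm]
    refine Finset.sum_congr rfl fun g _ => ?_
    rw [Finset.sum_const, Nat.card_Icc, smul_eq_mul]
    congr 1
  rw [← Finset.sum_filter]
  have hn : (n : ℂ) = ((∑ g ∈ (UniqueFactorizationMonoid.normalizedFactors f).toFinset,
      ∑ m ∈ Finset.Icc 1 ((UniqueFactorizationMonoid.normalizedFactors f).count g),
        g.natDegree : ℕ) : ℂ) := by rw [← hkey]
  rw [hn, Finset.sum_sigma']
  push_cast
  refine Finset.sum_bij' (fun y _ => (⟨(y.1.natDegree, y.2), y.1⟩ : Σ _ : ℕ × ℕ, F[X]))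
    (fun x _ => (⟨x.2, x.1.2⟩ : Σ _ : F[X], ℕ)) ?_ ?_ ?_ ?_ ?_
  · rintro ⟨g, m⟩ hy
    rw [Finset.mem_sigma, Multiset.mem_toFinset, Finset.mem_Icc] at hy
    obtain ⟨hg, h1, h2⟩ := hy
    rw [Polynomial.mem_normalizedFactors_iff hf0] at hg
    obtain ⟨hgi, hgm, hgd⟩ := hg
    have hdvd : g ^ m ∣ f := (r1_pow_dvd f g hf0 hgi hgm m).2 h2
    have hdeg : 0 < g.natDegree := hgi.natDegree_pos
    have hle : g.natDegree * m ≤ n := by
      have := natDegree_le_of_dvd hdvd hf0
      rw [hgm.natDegree_pow, hfd] at this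
      rwa [mul_comm]
    have h3 : g.natDegree ≤ n := le_trans (Nat.le_mul_of_pos_right _ h1) hle
    have h4 : m ≤ n := le_trans (Nat.le_mul_of_pos_left _ hdeg) hle
    rw [Finset.mem_filter, r1PP, Finset.mem_sigma, Finset.mem_filter, Finset.mem_filter,
      Finset.mem_product, Finset.mem_Icc, Finset.mem_Icc, r1_mem_Mon]
    exact ⟨⟨⟨⟨⟨hdeg, h3⟩, h1, h4⟩, hle⟩, ⟨hgm, rfl⟩, hgi⟩, hdvd⟩
  · rintro ⟨⟨d, m⟩, g⟩ hx
    rw [Finset.mem_filter, r1PP, Finset.mem_sigma, Finset.mem_filter, Finset.mem_filter,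
      Finset.mem_product, Finset.mem_Icc, Finset.mem_Icc, r1_mem_Mon] at hx
    obtain ⟨⟨⟨⟨⟨h1, h2⟩, h3, h4⟩, h5⟩, ⟨hgm, hgd⟩, hgi⟩, hdvd⟩ := hx
    rw [Finset.mem_sigma, Multiset.mem_toFinset, Finset.mem_Icc, Polynomial.mem_normalizedFactors_iff hf0]
    refine ⟨⟨hgi, hgm, (dvd_pow_self g (Nat.one_le_iff_ne_zero.1 h3)).trans hdvd⟩, h3, ?_⟩
    exact (r1_pow_dvd f g hf0 hgi hgm m).1 hdvd
  · rintro ⟨g, m⟩ _
    rfl
  · rintro ⟨⟨d, m⟩, g⟩ hx
    rw [Finset.mem_filter, r1PP, Finset.mem_sigma, Finset.mem_filter, Finset.mem_filter, r1_mem_Mon] at hx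
    obtain ⟨⟨-, ⟨-, hgd⟩, -⟩, -⟩ := hx
    simp only at hgd
    simp only [hgd]
  · rintro ⟨g, m⟩ _
    rfl

/-- C11: sum over multiples of a monic `u` of degree `e ≤ n` -/
theorem r1_sum_dvd (w : F[X] → ℂ)
    (hmul : ∀ f g : F[X], f.Monic → g.Monic → w (f * g) = w f * w g) (n e : ℕ) (he : e ≤ n) (u : F[X]) (hu : u ∈ MonF F e) :
    ∑ f ∈ MonF F n, (if u ∣ f then w f else 0) = w u * cc w (n - e) := by
  obtain ⟨hum, hud⟩ := (r1_mem_Mon e u).1 hu
  rw [← Finset.sum_filter, cc, Finset.mul_sum]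
  symm
  refine Finset.sum_bij (fun h _ => u * h) ?_ ?_ ?_ ?_
  · intro h hh
    obtain ⟨hm, hd⟩ := (r1_mem_Mon _ h).1 hh
    rw [Finset.mem_filter, r1_mem_Mon]
    refine ⟨⟨hum.mul hm, ?_⟩, dvd_mul_right u h⟩
    rw [hum.natDegree_mul hm, hud, hd]; omega
  · intro h _ h' _ heq
    exact mul_left_cancel₀ hum.ne_zero heq
  · intro f hf
    rw [Finset.mem_filter, r1_mem_Mon] at hf
    obtain ⟨⟨hfm, hfd⟩, h, rfl⟩ := hf
    have hm : h.Monic := hum.of_mul_monic_left hfm
    refine ⟨h, ?_, rfl⟩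
    rw [r1_mem_Mon]
    refine ⟨hm, ?_⟩
    rw [hum.natDegree_mul hm, hud] at hfd
    omega
  · intro h hh
    obtain ⟨hm, hd⟩ := (r1_mem_Mon _ h).1 hh
    rw [hmul u h hum hm]

theorem r1_reindex_pairs (n : ℕ) (H : ℕ → ℕ → ℂ) :
    ∑ x ∈ ((Finset.Icc 1 n) ×ˢ (Finset.Icc 1 n)).filter (fun x => x.1 * x.2 ≤ n), H x.1 x.2
      = ∑ j ∈ Finset.Icc 1 n, ∑ d ∈ j.divisors, H d (j / d) := by
  rw [Finset.sum_sigma']
  refine Finset.sum_bij' (fun x _ => (⟨x.1 * x.2, x.1⟩ : Σ _ : ℕ, ℕ)) (fun y _ => (y.2, y.1 / y.2))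
    ?_ ?_ ?_ ?_ ?_
  · rintro ⟨d, m⟩ hx
    simp only [Finset.mem_filter, Finset.mem_product, Finset.mem_Icc] at hx
    simp only [Finset.mem_sigma, Finset.mem_Icc, Nat.mem_divisors]
    obtain ⟨⟨⟨h1, h2⟩, h3, h4⟩, h5⟩ := hx
    refine ⟨⟨Nat.mul_pos h1 h3, h5⟩, dvd_mul_right _ _, ?_⟩
    exact (Nat.mul_pos h1 h3).ne'
  · rintro ⟨j, d⟩ hy
    simp only [Finset.mem_sigma, Finset.mem_Icc, Nat.mem_divisors] at hy
    simp only [Finset.mem_filter, Finset.mem_product, Finset.mem_Icc]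
    obtain ⟨⟨h1, h2⟩, h3, h4⟩ := hy
    have hd : 0 < d := Nat.pos_of_dvd_of_pos h3 h1
    have hdj : d ≤ j := Nat.le_of_dvd h1 h3
    have hmul : d * (j / d) = j := Nat.mul_div_cancel' h3
    have hq : 0 < j / d := Nat.div_pos hdj hd
    have hqj : j / d ≤ j := Nat.div_le_self _ _
    exact ⟨⟨⟨hd, hdj.trans h2⟩, hq, hqj.trans h2⟩, by rw [hmul]; exact h2⟩
  · rintro ⟨d, m⟩ hx
    simp only [Finset.mem_filter, Finset.mem_product, Finset.mem_Icc] at hx
    have : 0 < d := hx.1.1.1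
    simp only [Prod.mk.injEq, true_and]
    exact Nat.mul_div_cancel_left m this
  · rintro ⟨j, d⟩ hy
    simp only [Finset.mem_sigma, Finset.mem_Icc, Nat.mem_divisors] at hy
    have hmul : d * (j / d) = j := Nat.mul_div_cancel' hy.2.1
    simp only [hmul]
  · rintro ⟨d, m⟩ hx
    simp only [Finset.mem_filter, Finset.mem_product, Finset.mem_Icc] at hx
    have : 0 < d := hx.1.1.1
    simp only [Nat.mul_div_cancel_left m this]

/-- C12: Newton identity, from C10, C11, C5 -/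
theorem r1_newton_mon (w : F[X] → ℂ) (h1 : w 1 = 1)
    (hmul : ∀ f g : F[X], f.Monic → g.Monic → w (f * g) = w f * w g) (n : ℕ) :
    (n : ℂ) * cc w n = ∑ j ∈ Finset.Icc 1 n, ss w j * cc w (n - j) := by
  have hpw : ∀ f : F[X], f.Monic → ∀ m : ℕ, w (f ^ m) = w f ^ m := by
    intro f hf m
    induction m with
    | zero => rw [pow_zero, pow_zero, h1]
    | succ m ih => rw [pow_succ, pow_succ, hmul (f ^ m) f (hf.pow m) hf, ih]
  have h1 : (n : ℂ) * cc w n = ∑ x ∈ r1PP F n,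
      (x.1.1 : ℂ) * w x.2 ^ x.1.2 * cc w (n - x.1.1 * x.1.2) := by
    rw [cc, Finset.mul_sum]
    have h2 : ∀ f ∈ MonF F n, (n : ℂ) * w f =
        ∑ x ∈ r1PP F n, (x.1.1 : ℂ) * (if x.2 ^ x.1.2 ∣ f then w f else 0) := by
      intro f hf
      rw [r1_deg_eq n f hf, Finset.sum_mul]
      refine Finset.sum_congr rfl fun x _ => ?_
      split_ifs <;> simp
    rw [Finset.sum_congr rfl h2, Finset.sum_comm]
    refine Finset.sum_congr rfl fun x hx => ?_
    rw [← Finset.mul_sum]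
    rw [r1PP, Finset.mem_sigma, Finset.mem_filter, Finset.mem_filter, Finset.mem_product] at hx
    obtain ⟨⟨-, hle⟩, hg, -⟩ := hx
    obtain ⟨hm, hd⟩ := (r1_mem_Mon _ _).1 hg
    have hpow : x.2 ^ x.1.2 ∈ MonF F (x.1.1 * x.1.2) := by
      rw [r1_mem_Mon]
      refine ⟨hm.pow _, ?_⟩
      rw [hm.natDegree_pow, hd, mul_comm]
    rw [r1_sum_dvd w hmul n (x.1.1 * x.1.2) hle _ hpow, hpw _ hm]
    ring
  rw [h1, r1PP, Finset.sum_sigma]
  have h3 := r1_reindex_pairs n (fun d m => ∑ g ∈ (MonF F d).filter (fun g => Irreducible g),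
    (d : ℂ) * w g ^ m * cc w (n - d * m))
  refine Eq.trans ?_ (h3.trans ?_)
  · rfl
  · refine Finset.sum_congr rfl fun j hj => ?_
    rw [ss, Finset.sum_mul]
    refine Finset.sum_congr rfl fun d hd => ?_
    rw [Finset.sum_mul]
    refine Finset.sum_congr rfl fun g _ => ?_
    rw [Nat.mul_div_cancel' (Nat.dvd_of_mem_divisors hd)]

/-- C15: number of elements with given minimal polynomial (`FiniteField.natCard_algHom_of_finrank_dvd`) -/
theorem r1_card_minpoly (K : Type) [Field K] [Fintype K] [Algebra F K] (g : F[X])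
    (hg : g.Monic) (hi : Irreducible g) (hd : g.natDegree ∣ Module.finrank F K) :
    Nat.card {x : K | minpoly F x = g} = g.natDegree := by
  have : Fact (Irreducible g) := ⟨hi⟩
  have hfr : Module.finrank F (AdjoinRoot g) = g.natDegree := by
    rw [(AdjoinRoot.powerBasis hg.ne_zero).finrank, AdjoinRoot.powerBasis_dim]
  have h1 : Nat.card (AdjoinRoot g →ₐ[F] K) = g.natDegree := by
    rw [← hfr] at hd ⊢
    exact FiniteField.natCard_algHom_of_finrank_dvd hd
  rw [← h1]
  apply Nat.card_congr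
  refine Equiv.trans ?_ (AdjoinRoot.equiv K F g hg.ne_zero).symm
  refine Equiv.subtypeEquivRight ?_
  intro x
  rw [mem_aroots]
  constructor
  · intro h
    have h' : minpoly F x = g := h
    refine ⟨hg.ne_zero, ?_⟩
    rw [← h']
    exact minpoly.aeval _ _
  · rintro ⟨_, h⟩
    exact (minpoly.eq_of_irreducible_of_monic hi h hg).symm

theorem r1_ss_eq (w : F[X] → ℂ) (K : Type) [Field K] [Fintype K] [Algebra F K] :
    ∑ x : K, w (minpoly F x) ^ (finrank F K / (minpoly F x).natDegree) = ss w (finrank F K) := by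
  have hfd : FiniteDimensional F K := Module.Finite.of_finite
  have hn : Module.finrank F K ≠ 0 := Module.finrank_pos.ne'
  set n := Module.finrank F K with hndef
  set W : F[X] → ℂ := fun g => w g ^ (n / g.natDegree) with hW
  change ∑ x : K, W (minpoly F x) = ss w n
  rw [ss]
  have hcard : ∀ d ∈ n.divisors, ∀ g ∈ (MonF F d).filter (fun g => Irreducible g),
      (d : ℂ) * w g ^ (n / d) =
        ∑ x ∈ Finset.univ.filter (fun x : K => minpoly F x = g), W (minpoly F x) := by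
    intro d hd g hg
    rw [Finset.mem_filter, r1_mem_Mon] at hg
    obtain ⟨⟨hgm, hgd⟩, hgi⟩ := hg
    have h2 := r1_card_minpoly K g hgm hgi (by rw [hgd]; exact Nat.dvd_of_mem_divisors hd)
    have h3 : (Finset.univ.filter (fun x : K => minpoly F x = g)).card = d := by
      rw [← hgd, ← h2, ← Fintype.card_subtype, Nat.card_eq_fintype_card]
      rfl
    rw [Finset.sum_congr rfl (fun x hx => by rw [(Finset.mem_filter.mp hx).2]), Finset.sum_const,
      h3, nsmul_eq_mul, hW]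
    simp only [hgd]
  rw [Finset.sum_congr rfl (fun d hd => Finset.sum_congr rfl (hcard d hd))]
  rw [← Finset.sum_biUnion]
  · symm
    refine Finset.sum_fiberwise_of_maps_to ?_ _
    intro x _
    rw [Finset.mem_biUnion]
    have hint : IsIntegral F x := .of_finite _ _
    refine ⟨(minpoly F x).natDegree, ?_, ?_⟩
    · rw [Nat.mem_divisors]
      exact ⟨minpoly.degree_dvd hint, hn⟩
    · rw [Finset.mem_filter, r1_mem_Mon]
      exact ⟨⟨minpoly.monic hint, rfl⟩, minpoly.irreducible hint⟩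
  · intro d _ d' _ hdd
    rw [Function.onFun, Finset.disjoint_left]
    intro g hg hg'
    rw [Finset.mem_filter, r1_mem_Mon] at hg hg'
    exact hdd (hg.1.2.symm.trans hg'.1.2)

end helpers

theorem newton_mon (w : F[X] → ℂ) (h1 : w 1 = 1)
    (hmul : ∀ f g : F[X], f.Monic → g.Monic → w (f * g) = w f * w g) (m : ℕ) :
    (m : ℂ) * cc w m = ∑ j ∈ Finset.Icc 1 m, ss w j * cc w (m - j) :=
  r1_newton_mon w h1 hmul m

theorem ss_eq (w : F[X] → ℂ) (K : Type) [Field K] [Fintype K] [Algebra F K] :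
    ∑ x : K, w (minpoly F x) ^ (finrank F K / (minpoly F x).natDegree) = ss w (finrank F K) :=
  r1_ss_eq w K

end Pool.Agent.LibPR30
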