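import Pool.Agent.LibPR30.Defs
set_option autoImplicit false
set_option linter.unusedSectionVars false

/-!
-/

namespace Pool.Agent.LibPR30

open Polynomial Module

variable {F : Type} [Field F] [Fintype F]

private theorem R2_mem (m : ℕ) (f : F[X]) : f ∈ MonF F m ↔ (f - X ^ m).degree < (m : WithBot ℕ) := by
  classical
  unfold MonF
  rw [Finset.mem_image]
  constructor
  · rintro ⟨v, -, rfl⟩
    rw [add_sub_cancel_left]
    exact degree_sum_fin_lt v
  · intro h
    refine ⟨fun i => (f - X ^ m).coeff i, Finset.mem_univ _, ?_⟩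
    have h1 : (∑ i : Fin m, C ((f - X ^ m).coeff i) * X ^ (i : ℕ)) = f - X ^ m := by
      have h5 := Fin.sum_univ_eq_sum_range (fun i => C ((f - X ^ m).coeff i) * X ^ i) m
      rw [h5]
      by_cases h0 : f - X ^ m = 0
      · rw [h0]; simp
      · have h2 : (f - X ^ m).natDegree < m := (natDegree_lt_iff_degree_lt h0).2 h
        rw [← as_sum_range_C_mul_X_pow' (f - X ^ m) h2]
    rw [h1]
    ring

private noncomputable def R2_map (l : F[X]) (a c : F) (f : F[X]) : F[X] :=
  f + C ((c - 1) * f.eval a) * l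

private theorem R2_map_mem (l : F[X]) (a c : F) (m : ℕ) (hl : l.degree < (m : WithBot ℕ)) (f : F[X])
    (hf : f ∈ MonF F m) : R2_map l a c f ∈ MonF F m := by
  rw [R2_mem] at hf ⊢
  have h1 : R2_map l a c f - X ^ m = (f - X ^ m) + C ((c - 1) * f.eval a) * l := by
    unfold R2_map; ring
  rw [h1]
  refine lt_of_le_of_lt (degree_add_le _ _) (max_lt hf ?_)
  refine lt_of_le_of_lt ?_ hl
  by_cases hc : (c - 1) * f.eval a = 0
  · rw [hc, C_0, zero_mul, degree_zero]; exact bot_le
  · rw [degree_C_mul hc]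

private theorem R2_map_eval (l : F[X]) (a c : F) (f : F[X]) (hl : l.eval a = 1) :
    (R2_map l a c f).eval a = c * f.eval a := by
  unfold R2_map
  rw [eval_add, eval_mul, eval_C, hl]
  ring

private theorem R2_map_inv (l : F[X]) (a c d : F) (f : F[X]) (hl : l.eval a = 1) (h : d * c = 1) :
    R2_map l a d (R2_map l a c f) = f := by
  have h1 := R2_map_eval l a c f hl
  have h2 : R2_map l a d (R2_map l a c f)
      = R2_map l a c f + C ((d - 1) * (R2_map l a c f).eval a) * l := rfl
  rw [h2, h1]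
  unfold R2_map
  have h3 : (d - 1) * (c * f.eval a) = - ((c - 1) * f.eval a) := by
    linear_combination (f.eval a) * h
  rw [h3, C_neg]
  ring

theorem cc_wt {s : ℕ} (χ : Fin s → MulChar F ℂ) (u : Fin s → F) (hu : Function.Injective u)
    (hχ : ∃ i, χ i ≠ 1) (m : ℕ) (hm : s ≤ m) : cc (wt χ u) m = 0 := by
  classical
  obtain ⟨i0, hi0⟩ := hχ
  obtain ⟨t, ht⟩ := MulChar.ne_one_iff.1 hi0
  set l : F[X] := Lagrange.basis Finset.univ u i0 with hl
  have hl1 : l.eval (u i0) = 1 :=
    Lagrange.eval_basis_self (hu.injOn) (Finset.mem_univ _)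
  have hl0 : ∀ i, i ≠ i0 → l.eval (u i) = 0 := fun i hi =>
    Lagrange.eval_basis_of_ne (Ne.symm hi) (Finset.mem_univ _)
  have hdeg : l.degree < (m : WithBot ℕ) := by
    have hs : 0 < s := lt_of_le_of_lt (Nat.zero_le _) i0.2
    rw [hl, Lagrange.degree_basis (hu.injOn) (Finset.mem_univ _), Finset.card_univ,
      Fintype.card_fin]
    exact_mod_cast (by omega : s - 1 < m)
  have key : ∀ f : F[X], wt χ u (R2_map l (u i0) (t : F) f) = χ i0 t * wt χ u f := by
    intro f
    unfold wt
    have h1 : ∀ i, χ i ((R2_map l (u i0) (t : F) f).eval (u i))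
        = (if i = i0 then χ i0 t else 1) * χ i (f.eval (u i)) := by
      intro i
      by_cases hi : i = i0
      · subst hi
        rw [if_pos rfl, R2_map_eval l (u i) (t : F) f hl1, map_mul]
      · rw [if_neg hi, one_mul]
        unfold R2_map
        rw [eval_add, eval_mul, hl0 i hi, mul_zero, add_zero]
    rw [Finset.prod_congr rfl (fun i _ => h1 i), Finset.prod_mul_distrib, Finset.prod_ite_eq']
    rw [if_pos (Finset.mem_univ _)]
  have ht1 : ((t⁻¹ : Fˣ) : F) * (t : F) = 1 := Units.inv_mul t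
  have ht2 : (t : F) * ((t⁻¹ : Fˣ) : F) = 1 := Units.mul_inv t
  have hsum : ∑ f ∈ MonF F m, χ i0 t * wt χ u f = ∑ f ∈ MonF F m, wt χ u f := by
    refine Finset.sum_nbij' (R2_map l (u i0) (t : F)) (R2_map l (u i0) ((t⁻¹ : Fˣ) : F)) ?_ ?_ ?_ ?_ ?_
    · intro f hf; exact R2_map_mem l _ _ m hdeg f hf
    · intro f hf; exact R2_map_mem l _ _ m hdeg f hf
    · intro f _; exact R2_map_inv l _ _ _ f hl1 ht1
    · intro f _; exact R2_map_inv l _ _ _ f hl1 ht2
    · intro f _; exact (key f).symm
  rw [← Finset.mul_sum] at hsum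
  have h0 : (χ i0 t - 1) * cc (wt χ u) m = 0 := by
    unfold cc
    linear_combination hsum
  rcases mul_eq_zero.1 h0 with h | h
  · exact absurd (sub_eq_zero.1 h) ht
  · exact h

end Pool.Agent.LibPR30
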