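import Pool.Agent.LibPR30.Defs
set_option autoImplicit false

/-!
`N_{K/F}(u - x) = charpoly(x)(u) = minpoly(x)(u)^(n/deg)`: Mathlib `Algebra.charpoly`/`LinearMap.charpoly` of multiplication, or
`Algebra.norm_eq_...`; another way: apply `Algebra.norm` formula `N(y) = ((-1)^deg * (minpoly F y).coeff 0)^(n/deg)` (compare
`Pool/Agent/LibWeil46/RC14.lean`, `term_eq`) to `y = u - x`, whose minimal polynomial is `(-1)^deg * (minpoly F x).comp (C u - X)`
(value at 0: `(-1)^deg * eval u (minpoly F x)`). Then take `χ i` and the product over `i`.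
-/

namespace Pool.Agent.LibPR30

open Polynomial Module

variable {F : Type} [Field F] [Fintype F]

theorem wtm_norm {F K : Type} [Field F] [Field K] [Algebra F K] [FiniteDimensional F K] (y : K) :
    Algebra.norm F y = ((-1) ^ (minpoly F y).natDegree * (minpoly F y).coeff 0) ^
      (finrank F K / (minpoly F y).natDegree) := by
  have hint : IsIntegral F y := .of_finite F y
  have hpos := minpoly.natDegree_pos hint
  have hfr : finrank (IntermediateField.adjoin F {y}) K =
      finrank F K / (minpoly F y).natDegree := by
    rw [← IntermediateField.adjoin.finrank hint,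
      ← finrank_mul_finrank F (IntermediateField.adjoin F {y}) K, Nat.mul_div_cancel_left]
    rw [IntermediateField.adjoin.finrank hint]
    exact hpos
  rw [Algebra.norm_eq_norm_adjoin, hfr]
  congr 1
  have h := Algebra.PowerBasis.norm_gen_eq_coeff_zero_minpoly
    (IntermediateField.adjoin.powerBasis hint)
  rw [IntermediateField.adjoin.powerBasis_gen, IntermediateField.adjoin.powerBasis_dim,
    IntermediateField.minpoly_gen] at h
  exact h

theorem wtm_eval {F K : Type} [Field F] [Field K] [Algebra F K] [FiniteDimensional F K] (x : K)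
    (u : F) : Algebra.norm F (algebraMap F K u - x) =
      (minpoly F x).eval u ^ (finrank F K / (minpoly F x).natDegree) := by
  have hint : IsIntegral F x := .of_finite F x
  have h1 : minpoly F (algebraMap F K u - x) =
      (-1) ^ ((minpoly F x).comp (X + C u)).natDegree *
        ((minpoly F x).comp (X + C u)).comp (-X) := by
    rw [← neg_sub x, minpoly.neg, minpoly.sub_algebraMap]
  have hd : ((minpoly F x).comp (X + C u)).natDegree = (minpoly F x).natDegree := by
    rw [natDegree_comp, natDegree_X_add_C, mul_one]
  have hd2 : (minpoly F (algebraMap F K u - x)).natDegree = (minpoly F x).natDegree := by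
    rw [h1, hd]
    have h2 : ((-1 : F[X]) ^ (minpoly F x).natDegree) = C ((-1 : F) ^ (minpoly F x).natDegree) := by
      simp
    rw [h2, natDegree_C_mul (pow_ne_zero _ (neg_ne_zero.2 one_ne_zero)), natDegree_comp, hd,
      natDegree_neg, natDegree_X, mul_one]
  rw [wtm_norm, hd2]
  congr 1
  rw [h1, hd, coeff_zero_eq_eval_zero]
  simp only [eval_mul, eval_pow, eval_neg, eval_one, eval_comp, eval_X, eval_add, eval_C]
  rw [← mul_assoc, ← mul_pow]
  simp

theorem wt_minpoly {s : ℕ} (χ : Fin s → MulChar F ℂ) (u : Fin s → F) (K : Type) [Field K]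
    [Fintype K] [Algebra F K] (x : K) :
    wt χ u (minpoly F x) ^ (finrank F K / (minpoly F x).natDegree) =
      ∏ i, χ i (Algebra.norm F (algebraMap F K (u i) - x)) := by
  have hfd : FiniteDimensional F K := Module.Finite.of_finite
  unfold wt
  rw [← Finset.prod_pow]
  refine Finset.prod_congr rfl fun i _ => ?_
  rw [wtm_eval, map_pow]

end Pool.Agent.LibPR30
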