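import Pool.Agent.LibPR30.Defs
import Pool.Agent.LibPR30.R1
import Pool.Agent.LibPR30.R2
import Pool.Agent.LibPR30.R3
set_option autoImplicit false

/-!
From `newton_mon`, `ss_eq`, `cc_wt`, `wt_minpoly` (all in Rows.lean; use them). `w = wt χ u` is multiplicative. Let `p_m = ss w m`, `A_m = cc w m`.
(1) two points `u = ![0, 1]`, `χ = ![α, β]`: `A_0 = 1`, `A_m = 0` for `m ≥ 2`, Newton: `p_1 = A_1`, `0 = p_m + p_(m-1) A_1` for `m ≥ 2`,
so `- p_m = (- p_1)^m` (strong induction). For `K`: `p_m = ∑_{x : K} α(N(0 - x)) β(N(1 - x)) = α(-1)^m J(nch α K, nch β K)`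
(`N(-x) = (-1)^m N x`), also for `K = F`. Multiply by `α(-1)^m = ±1`.
(2) three points: `A_0 = 1`, `A_m = 0` for `m ≥ 3`: with `ω_0 + ω_1 = - A_1`, `ω_0 ω_1 = A_2` (roots of a quadratic polynomial over ℂ) one gets
`- p_m = ω_0^m + ω_1^m` for all `m ≥ 1` (m = 1, 2 directly from Newton, then the recursion `x_m = -A_1 x_(m-1) - A_2 x_(m-2)`).
-/

namespace Pool.Agent.LibPR30

open Polynomial Module

variable {F : Type} [Field F] [Fintype F]

private theorem R4_one {s : ℕ} (χ : Fin s → MulChar F ℂ) (u : Fin s → F) : wt χ u 1 = 1 := by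
  unfold wt
  simp

private theorem R4_mul {s : ℕ} (χ : Fin s → MulChar F ℂ) (u : Fin s → F) (f g : F[X]) :
    wt χ u (f * g) = wt χ u f * wt χ u g := by
  unfold wt
  rw [← Finset.prod_mul_distrib]
  exact Finset.prod_congr rfl fun i _ => by rw [eval_mul, map_mul]

private theorem R4_cc0 (w : F[X] → ℂ) (h1 : w 1 = 1) : cc w 0 = 1 := by
  unfold cc MonF
  simp [h1]

private theorem R4_newton {s : ℕ} (χ : Fin s → MulChar F ℂ) (u : Fin s → F) (m : ℕ) :
    (m : ℂ) * cc (wt χ u) m = ∑ j ∈ Finset.Icc 1 m, ss (wt χ u) j * cc (wt χ u) (m - j) :=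
  newton_mon (wt χ u) (R4_one χ u) (fun f g _ _ => R4_mul χ u f g) m

private theorem R4_sum {s : ℕ} (χ : Fin s → MulChar F ℂ) (u : Fin s → F) (K : Type) [Field K]
    [Fintype K] [Algebra F K] :
    ∑ x : K, ∏ i, χ i (Algebra.norm F (algebraMap F K (u i) - x)) =
      ss (wt χ u) (finrank F K) := by
  rw [← ss_eq (wt χ u) K]
  exact Finset.sum_congr rfl fun x _ => (wt_minpoly χ u K x).symm

private theorem R4_pos (K : Type) [Field K] [Fintype K] [Algebra F K] : 0 < finrank F K := by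
  have : FiniteDimensional F K := Module.Finite.of_finite
  exact finrank_pos

private theorem R4_p1 {s : ℕ} (χ : Fin s → MulChar F ℂ) (u : Fin s → F) :
    cc (wt χ u) 1 = ss (wt χ u) 1 := by
  have h := R4_newton χ u 1
  simpa [R4_cc0 _ (R4_one χ u)] using h

private theorem R4_two (χ : Fin 2 → MulChar F ℂ) (u : Fin 2 → F) (hu : Function.Injective u)
    (hχ : ∃ i, χ i ≠ 1) (m : ℕ) (hm : 1 ≤ m) :
    -ss (wt χ u) m = (-ss (wt χ u) 1) ^ m := by
  induction m, hm using Nat.le_induction with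
  | base => rw [pow_one]
  | succ m hm ih =>
    have h := R4_newton χ u (m + 1)
    rw [cc_wt χ u hu hχ (m + 1) (by omega), mul_zero] at h
    rw [Finset.sum_Icc_succ_top (by omega), Nat.sub_self, R4_cc0 _ (R4_one χ u), mul_one] at h
    obtain ⟨k, rfl⟩ : ∃ k, m = k + 1 := ⟨m - 1, by omega⟩
    rw [Finset.sum_Icc_succ_top (by omega)] at h
    have h0 : ∑ j ∈ Finset.Icc 1 k, ss (wt χ u) j * cc (wt χ u) (k + 1 + 1 - j) = 0 := by
      apply Finset.sum_eq_zero
      intro j hj
      rw [Finset.mem_Icc] at hj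
      rw [cc_wt χ u hu hχ (k + 1 + 1 - j) (by omega), mul_zero]
    rw [h0, zero_add, show k + 1 + 1 - (k + 1) = 1 by omega, R4_p1] at h
    rw [pow_succ, ← ih]
    linear_combination h

private theorem R4_hd (α β : MulChar F ℂ) (K : Type) [Field K] [Fintype K] [Algebra F K] :
    ss (wt ![α, β] ![0, 1]) (finrank F K) =
      α (-1) ^ finrank F K * jacobiSum (nch α K) (nch β K) := by
  rw [← R4_sum, jacobiSum, Finset.mul_sum]
  refine Finset.sum_congr rfl fun x _ => ?_
  rw [Fin.prod_univ_two]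
  simp only [Matrix.cons_val_zero, Matrix.cons_val_one, map_zero, map_one, zero_sub]
  rw [nch_apply, nch_apply]
  have hN : Algebra.norm F (-x) = (-1) ^ finrank F K * Algebra.norm F x := by
    have h1 : (-x : K) = algebraMap F K (-1) * x := by rw [map_neg, map_one, neg_one_mul]
    rw [h1, map_mul, Algebra.norm_algebraMap]
  rw [hN, map_mul, map_pow]
  ring

theorem hasse_davenport [DecidableEq F] (α β : MulChar F ℂ) (hαβ : α ≠ 1 ∨ β ≠ 1) (K : Type)
    [Field K] [Fintype K] [Algebra F K] :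
    -jacobiSum (nch α K) (nch β K) = (-jacobiSum α β) ^ finrank F K := by
  have hu : Function.Injective (![0, 1] : Fin 2 → F) := by
    intro i j hij
    fin_cases i <;> fin_cases j <;> simp_all
  have hχ : ∃ i, (![α, β] : Fin 2 → MulChar F ℂ) i ≠ 1 := by
    rcases hαβ with h | h
    · exact ⟨0, h⟩
    · exact ⟨1, h⟩
  have h1 := R4_two ![α, β] ![0, 1] hu hχ (finrank F K) (R4_pos K)
  rw [R4_hd α β K] at h1
  have h2 := R4_hd α β F
  have e1 : nch α F = α := by
    ext a
    rw [nch_apply, Algebra.norm_self]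
    rfl
  have e2 : nch β F = β := by
    ext a
    rw [nch_apply, Algebra.norm_self]
    rfl
  rw [e1, e2, finrank_self, pow_one] at h2
  rw [h2] at h1
  have hs : α (-1) * α (-1) = 1 := by rw [← map_mul]; simp
  have hs' : α (-1) ^ finrank F K ≠ 0 := by
    apply pow_ne_zero
    intro h0
    rw [h0, zero_mul] at hs
    exact zero_ne_one hs
  apply mul_left_cancel₀ hs'
  rw [← mul_pow]
  calc _ = -(α (-1) ^ finrank F K * jacobiSum (nch α K) (nch β K)) := by ring
    _ = _ := h1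
    _ = _ := by ring

theorem rat_three (χ : Fin 3 → MulChar F ℂ) (u : Fin 3 → F) (hu : Function.Injective u)
    (hχ : ∃ i, χ i ≠ 1) : ∃ ω : Fin 2 → ℂ, ∀ (K : Type) [Field K] [Fintype K] [Algebra F K],
      -∑ x : K, ∏ i, χ i (Algebra.norm F (algebraMap F K (u i) - x)) =
        ∑ i, ω i ^ finrank F K := by
  set a := cc (wt χ u) 1 with ha
  set b := cc (wt χ u) 2 with hb
  obtain ⟨s, hs⟩ := IsAlgClosed.exists_pow_nat_eq (a ^ 2 - 4 * b) (n := 2) (by norm_num)
  have hA0 := R4_cc0 _ (R4_one χ u)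
  have hp1 : ss (wt χ u) 1 = a := by rw [ha, R4_p1]
  have hp2 : ss (wt χ u) 2 = 2 * b - a ^ 2 := by
    have h := R4_newton χ u 2
    rw [Finset.sum_Icc_succ_top (by omega), Finset.Icc_self, Finset.sum_singleton, Nat.sub_self,
      hA0, mul_one, show 2 - 1 = 1 from rfl, hp1, ← ha, ← hb] at h
    push_cast at h
    linear_combination -h
  have hrec : ∀ m, 1 ≤ m → ss (wt χ u) (m + 2) =
      -(a * ss (wt χ u) (m + 1)) - b * ss (wt χ u) m := by
    intro m hm
    have h := R4_newton χ u (m + 2)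
    rw [cc_wt χ u hu hχ (m + 2) (by omega), mul_zero] at h
    rw [Finset.sum_Icc_succ_top (by omega), Finset.sum_Icc_succ_top (by omega)] at h
    obtain ⟨k, rfl⟩ : ∃ k, m = k + 1 := ⟨m - 1, by omega⟩
    rw [Finset.sum_Icc_succ_top (by omega)] at h
    have h0 : ∑ j ∈ Finset.Icc 1 k, ss (wt χ u) j * cc (wt χ u) (k + 1 + 2 - j) = 0 := by
      apply Finset.sum_eq_zero
      intro j hj
      rw [Finset.mem_Icc] at hj
      rw [cc_wt χ u hu hχ (k + 1 + 2 - j) (by omega), mul_zero]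
    rw [h0, zero_add, show k + 1 + 2 - (k + 1) = 2 by omega,
      show k + 1 + 2 - (k + 1 + 1) = 1 by omega, show k + 1 + 2 - (k + 1 + 1 + 1) = 0 by omega,
      hA0, ← ha, ← hb] at h
    change ss (wt χ u) (k + 1 + 1 + 1) = _
    linear_combination -h
  have key : ∀ m, 1 ≤ m → -ss (wt χ u) m = ((-a + s) / 2) ^ m + ((-a - s) / 2) ^ m ∧
      -ss (wt χ u) (m + 1) = ((-a + s) / 2) ^ (m + 1) + ((-a - s) / 2) ^ (m + 1) := by
    intro m hm
    induction m, hm using Nat.le_induction with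
    | base =>
      refine ⟨?_, ?_⟩
      · rw [hp1]; ring
      · rw [show 1 + 1 = 2 from rfl, hp2]
        linear_combination (-1 / 2 : ℂ) * hs
    | succ m hm ih =>
      refine ⟨ih.2, ?_⟩
      rw [show m + 1 + 1 = m + 2 from rfl, hrec m hm]
      have r1 : ((-a + s) / 2) ^ 2 = -a * ((-a + s) / 2) - b := by
        linear_combination (1 / 4 : ℂ) * hs
      have r2 : ((-a - s) / 2) ^ 2 = -a * ((-a - s) / 2) - b := by
        linear_combination (1 / 4 : ℂ) * hs
      have e1 : ((-a + s) / 2) ^ (m + 2) = ((-a + s) / 2) ^ m * (-a * ((-a + s) / 2) - b) := by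
        rw [← r1, ← pow_add]
      have e2 : ((-a - s) / 2) ^ (m + 2) = ((-a - s) / 2) ^ m * (-a * ((-a - s) / 2) - b) := by
        rw [← r2, ← pow_add]
      rw [e1, e2]
      have i1 := ih.1
      have i2 := ih.2
      rw [pow_succ, pow_succ] at i2
      linear_combination (-a) * i2 - b * i1
  refine ⟨![(-a + s) / 2, (-a - s) / 2], fun K _ _ _ => ?_⟩
  rw [R4_sum, Fin.sum_univ_two]
  exact (key _ (R4_pos K)).1

end Pool.Agent.LibPR30
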