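import Pool.Agent.LibPR30.Defs
import Pool.Agent.LibPR30.K3
import Pool.Agent.LibPR30.K4
import Pool.Agent.LibPR30.R4
set_option autoImplicit false

/-!
`L = {(a1,b1),(a2,b2)}`; `T L k = -∑_{x y = c} ψ^a1(x) ψ^(b1-a1)(1-x) ψ^a2(y) ψ^(b2-a2)(1-y)`, `y = c/x`, `1 - y = (x - c)/x`:
`= -ψ^a2(c) ∑_x ψ^(a1 - a2 - (b2 - a2))(x) ψ^(b1-a1)(1-x) ψ^(b2-a2)(x - c)` (`a1 ≠ b2`, `b1 ≠ a1`, `b2 ≠ a2`: nontrivial characters, so the terms
x = 0, 1, c vanish on both sides). Apply `rat_three` (Rows) with the points `![0, 1, c]` and the characters `χ^(a1-b2).val, χ^(b1-a1).val, χ^(b2-a2).val`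
(`N(0 - x)`, `N(1 - x)`, `N(c - x)`; `χ(-1) = 1` as the order is odd), `ω_i` times `χ^a2(c)`.
-/

namespace Pool.Agent.LibPR30

open Polynomial Module

variable {F : Type} [Field F] [Finite F]
variable {n : ℕ} (𝓔 : Tow F) (χ : MulChar F ℂ) (c : Fˣ) (hn : 1 < n) (hn2 : Odd n)
  (hχ : orderOf χ = n)

omit [Finite F] in
theorem K6_neg_one (hn : 1 < n) (hn2 : Odd n) (hχ : orderOf χ = n) (m : ℕ) :
    (χ ^ m) (-1 : F) = 1 := by
  have h2 : ((χ ^ m) (-1 : F)) ^ 2 = 1 := by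
    rw [← map_pow]
    simp
  have hn' : ((χ ^ m) (-1 : F)) ^ n = 1 := by
    have h := MulChar.pow_apply_coe (χ ^ m) n (-1 : Fˣ)
    rw [← pow_mul, mul_comm, pow_mul, ← hχ, pow_orderOf_eq_one, one_pow,
      MulChar.one_apply_coe] at h
    rw [← hχ]
    simpa using h.symm
  obtain ⟨k, hk⟩ := hn2
  rw [hk, pow_succ, pow_mul, h2, one_pow, one_mul] at hn'
  exact hn'

omit [Finite F] in
theorem K6_pow_add (hn : 1 < n) (hχ : orderOf χ = n) (u v : ZMod n) :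
    χ ^ (u + v).val = χ ^ u.val * χ ^ v.val := by
  have : NeZero n := ⟨by omega⟩
  have h := pow_mod_orderOf χ (u.val + v.val)
  rw [hχ] at h
  rw [ZMod.val_add, ← pow_add, h]

theorem K6_term (hn : 1 < n) (hn2 : Odd n) (hχ : orderOf χ = n) (a₁ b₁ a₂ b₂ : ZMod n)
    (K : Type) [Field K] [Finite K] [Algebra F K] (x : Kˣ) :
    (nch χ K ^ a₁.val) (x : K) * (nch χ K ^ (b₁ - a₁).val) (1 - (x : K)) *
      ((nch χ K ^ a₂.val) (algebraMap F K c * (x : K)⁻¹) *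
        (nch χ K ^ (b₂ - a₂).val) (1 - algebraMap F K c * (x : K)⁻¹)) =
      (χ ^ a₂.val) (c : F) ^ finrank F K *
        ((χ ^ (a₁ - b₂).val) (Algebra.norm F (algebraMap F K 0 - (x : K))) *
          (χ ^ (b₁ - a₁).val) (Algebra.norm F (algebraMap F K 1 - (x : K))) *
          (χ ^ (b₂ - a₂).val) (Algebra.norm F (algebraMap F K c - (x : K)))) := by
  have : FiniteDimensional F K := Module.Finite.of_finite
  have hx : (x : K) ≠ 0 := x.ne_zero
  have hneg : ∀ (m : ℕ) (y : K), (χ ^ m) (Algebra.norm F (-y)) = (χ ^ m) (Algebra.norm F y) := by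
    intro m y
    have e : -y = algebraMap F K (-1) * y := by simp
    rw [e, map_mul, map_mul, Algebra.norm_algebraMap, map_pow, K6_neg_one χ hn hn2 hχ, one_pow,
      one_mul]
  have hNx : Algebra.norm F (x : K) ≠ 0 := by
    rw [Algebra.norm_ne_zero_iff]
    exact hx
  have hinv : ∀ m : ℕ, (χ ^ m) (Algebra.norm F (x : K)) * (χ ^ m) (Algebra.norm F ((x : K)⁻¹)) = 1 := by
    intro m
    rw [← map_mul, ← map_mul, mul_inv_cancel₀ hx, map_one, map_one]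
  simp only [nch_pow, nch_apply]
  have e1 : (1 : K) - algebraMap F K c * (x : K)⁻¹ = (-(algebraMap F K c - (x : K))) * (x : K)⁻¹ := by
    field_simp
    ring
  have e2 : algebraMap F K 0 - (x : K) = -(x : K) := by simp
  have e3 : a₁ = (a₁ - b₂) + (a₂ + (b₂ - a₂)) := by ring
  have e4 : (χ ^ a₁.val) (Algebra.norm F (x : K)) =
      (χ ^ (a₁ - b₂).val) (Algebra.norm F (x : K)) *
        ((χ ^ a₂.val) (Algebra.norm F (x : K)) * (χ ^ (b₂ - a₂).val) (Algebra.norm F (x : K))) := by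
    conv_lhs => rw [e3]
    rw [K6_pow_add χ hn hχ, K6_pow_add χ hn hχ a₂, MulChar.mul_apply, MulChar.mul_apply]
  rw [e1, map_mul, map_mul, map_mul, map_mul, hneg, e2, hneg, e4, Algebra.norm_algebraMap, map_pow,
    map_one]
  have h1 := hinv a₂.val
  have h2 := hinv (b₂ - a₂).val
  linear_combination ((χ ^ (a₁ - b₂).val) (Algebra.norm F (x : K)) *
    (χ ^ (b₁ - a₁).val) (Algebra.norm F (1 - (x : K))) *
    (χ ^ (b₂ - a₂).val) (Algebra.norm F (algebraMap F K c - (x : K))) *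
    (χ ^ a₂.val) (c : F) ^ finrank F K) * (
      (χ ^ (b₂ - a₂).val) (Algebra.norm F (x : K)) *
        (χ ^ (b₂ - a₂).val) (Algebra.norm F ((x : K)⁻¹)) * h1 + h2)

include hn hn2 hχ

theorem rat_two (hc1 : (c : F) ≠ 1) (L : Multiset (ZMod n × ZMod n)) (hL : Multiset.card L = 2)
    (hd : ∀ p ∈ L, ∀ q ∈ L, p.1 ≠ q.2) :
    ∃ ω : Fin 2 → ℂ, ∀ k, 0 < k → T 𝓔 χ c L k = ∑ i, ω i ^ k := by
  classical
  have : NeZero n := ⟨by omega⟩
  have : Fintype F := Fintype.ofFinite F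
  obtain ⟨p, q, rfl⟩ := Multiset.card_eq_two.1 hL
  obtain ⟨a₁, b₁⟩ := p
  obtain ⟨a₂, b₂⟩ := q
  have hab : a₁ ≠ b₂ := hd (a₁, b₁) (by simp) (a₂, b₂) (by simp)
  have hne : χ ^ (a₁ - b₂).val ≠ 1 := by
    intro h
    have h1 := orderOf_dvd_of_pow_eq_one h
    rw [hχ] at h1
    have h2 : (a₁ - b₂).val < n := ZMod.val_lt _
    have h3 := Nat.eq_zero_of_dvd_of_lt h1 h2
    rw [ZMod.val_eq_zero, sub_eq_zero] at h3
    exact hab h3
  have hu : Function.Injective (![0, 1, (c : F)] : Fin 3 → F) := by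
    intro i j hij
    have hc0 : (c : F) ≠ 0 := c.ne_zero
    fin_cases i <;> fin_cases j <;> simp_all [eq_comm]
  obtain ⟨ω, hω⟩ := rat_three ![χ ^ (a₁ - b₂).val, χ ^ (b₁ - a₁).val, χ ^ (b₂ - a₂).val]
    ![0, 1, (c : F)] hu ⟨0, by simpa using hne⟩
  refine ⟨fun i => (χ ^ a₂.val) (c : F) * ω i, ?_⟩
  intro k hk
  have hfr := 𝓔.rank k hk
  have hω' := hω (𝓔.E k)
  rw [hfr] at hω'
  have hS : ∑ x : 𝓔.E k, ∏ i, (![χ ^ (a₁ - b₂).val, χ ^ (b₁ - a₁).val, χ ^ (b₂ - a₂).val] :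
      Fin 3 → MulChar F ℂ) i (Algebra.norm F (algebraMap F (𝓔.E k)
        ((![0, 1, (c : F)] : Fin 3 → F) i) - x)) =
      ∑ x : (𝓔.E k)ˣ, ((χ ^ (a₁ - b₂).val) (Algebra.norm F (algebraMap F (𝓔.E k) 0 - (x : 𝓔.E k))) *
          (χ ^ (b₁ - a₁).val) (Algebra.norm F (algebraMap F (𝓔.E k) 1 - (x : 𝓔.E k))) *
          (χ ^ (b₂ - a₂).val) (Algebra.norm F (algebraMap F (𝓔.E k) c - (x : 𝓔.E k)))) := by
    have : FiniteDimensional F (𝓔.E k) := Module.Finite.of_finite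
    have h1 : ∑ x : (𝓔.E k)ˣ, ((χ ^ (a₁ - b₂).val) (Algebra.norm F (algebraMap F (𝓔.E k) 0 -
          (x : 𝓔.E k))) *
          (χ ^ (b₁ - a₁).val) (Algebra.norm F (algebraMap F (𝓔.E k) 1 - (x : 𝓔.E k))) *
          (χ ^ (b₂ - a₂).val) (Algebra.norm F (algebraMap F (𝓔.E k) c - (x : 𝓔.E k)))) =
        ∑ x ∈ (Finset.univ : Finset (𝓔.E k)ˣ).map ⟨Units.val, Units.val_injective⟩,
          ((χ ^ (a₁ - b₂).val) (Algebra.norm F (algebraMap F (𝓔.E k) 0 - x)) *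
          (χ ^ (b₁ - a₁).val) (Algebra.norm F (algebraMap F (𝓔.E k) 1 - x)) *
          (χ ^ (b₂ - a₂).val) (Algebra.norm F (algebraMap F (𝓔.E k) c - x))) := by
      rw [Finset.sum_map]
      rfl
    rw [h1]
    symm
    rw [Finset.sum_congr rfl (fun x _ => show _ = ∏ i, (![χ ^ (a₁ - b₂).val, χ ^ (b₁ - a₁).val,
      χ ^ (b₂ - a₂).val] : Fin 3 → MulChar F ℂ) i (Algebra.norm F (algebraMap F (𝓔.E k)
        ((![0, 1, (c : F)] : Fin 3 → F) i) - x)) by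
          rw [Fin.prod_univ_three]; rfl)]
    refine Finset.sum_subset (Finset.subset_univ _) ?_
    intro x _ hx
    have hx0 : x = 0 := by
      by_contra h
      exact hx (Finset.mem_map.2 ⟨Units.mk0 x h, Finset.mem_univ _, rfl⟩)
    subst hx0
    rw [Fin.prod_univ_three]
    simp [MulChar.map_zero]
  rw [hS] at hω'
  have hT : T 𝓔 χ c {(a₁, b₁), (a₂, b₂)} k = -∑ x : (𝓔.E k)ˣ,
      (χ ^ a₂.val) (c : F) ^ k *
        ((χ ^ (a₁ - b₂).val) (Algebra.norm F (algebraMap F (𝓔.E k) 0 - (x : 𝓔.E k))) *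
          (χ ^ (b₁ - a₁).val) (Algebra.norm F (algebraMap F (𝓔.E k) 1 - (x : 𝓔.E k))) *
          (χ ^ (b₂ - a₂).val) (Algebra.norm F (algebraMap F (𝓔.E k) c - (x : 𝓔.E k)))) := by
    unfold T
    rw [if_neg hk.ne']
    have hc2 : Multiset.card ({(a₁, b₁), (a₂, b₂)} : Multiset (ZMod n × ZMod n)) = 2 := by simp
    rw [hc2]
    have hm : ({(a₁, b₁), (a₂, b₂)} : Multiset (ZMod n × ZMod n)) =
        Finset.univ.val.map (![(a₁, b₁), (a₂, b₂)] : Fin 2 → ZMod n × ZMod n) := by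
      rfl
    rw [hm, gel_eq_sum]
    rw [show (-(-1 : ℂ) ^ 2) = -1 by norm_num, neg_one_mul]
    congr 1
    refine Finset.sum_nbij' (fun u => u 0)
      (fun x => ![x, Units.map (algebraMap F (𝓔.E k) : F →* 𝓔.E k) c * x⁻¹]) ?_ ?_ ?_ ?_ ?_
    · intro u _
      exact Finset.mem_univ _
    · intro x _
      rw [Finset.mem_filter]
      refine ⟨Finset.mem_univ _, ?_⟩
      rw [Fin.prod_univ_two]
      simp
    · intro u hu
      rw [Finset.mem_filter, Fin.prod_univ_two] at hu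
      funext i
      fin_cases i
      · rfl
      · simp only [← hu.2]
        simp
    · intro x _
      rfl
    · intro u hu
      rw [Finset.mem_filter, Fin.prod_univ_two] at hu
      have h1 : ((u 1 : (𝓔.E k)ˣ) : 𝓔.E k) = algebraMap F (𝓔.E k) c * ((u 0 : (𝓔.E k)ˣ) : 𝓔.E k)⁻¹ := by
        have h2 : u 1 = Units.map (algebraMap F (𝓔.E k) : F →* 𝓔.E k) c * (u 0)⁻¹ := by
          rw [← hu.2]
          simp
        rw [h2]
        simp
      rw [Fin.prod_univ_two]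
      have h3 := K6_term χ c hn hn2 hχ a₁ b₁ a₂ b₂ (𝓔.E k) (u 0)
      rw [hfr, ← h1] at h3
      exact h3
  rw [hT, ← Finset.mul_sum, ← mul_neg, hω', Finset.mul_sum]
  refine Finset.sum_congr rfl fun i _ => ?_
  rw [mul_pow]

end Pool.Agent.LibPR30
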