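import Pool.Agent.LibPR30.Defs
import Pool.Agent.LibPR30.K4
import Pool.Agent.LibPR30.R4
import Pool.Agent.LibPR30.V1
import Pool.Agent.LibPR30.V2
set_option autoImplicit false

/-!
`good_W`: if not both `χ^u.val = 1`, `χ^v.val = 1`: `W u v k = w^k` with `w = -jacobiSum (χ^u.val) (χ^v.val)` by `hasse_davenport` + `nch_pow`
(`Fintype.ofFinite`, classical), `w - 1 = l^2 v` by `Ctx.jn_eq`, apply `good_pow_mul`. If both are trivial: `W k = 2 - q^k` (`jacobiSum_one_one`), and
`(2 - q^k) T' = 2 T' - q^k T'` with `good_pow_mul` (`q - 1 = l^2 v`: `Ctx.sq_of_dvd`, `n ∣ q - 1` as χ has order n) and `good_int_mul`, `good_add`.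
`good_U`: Multiset induction: `U b 0 k = (z^b.val)^k` is good by `good_pow`, `Ctx.lead_z`; `U b (p ::ₘ L) k = W .. k * U b L k`.
(The second theorem has the extra variables ι, hz: keep the block as it is.)
-/

namespace Pool.Agent.LibPR30

open Polynomial Module

private theorem K7_nch_one {F : Type} [Field F] [Finite F] (K : Type) [Field K] [Finite K] [Algebra F K] :
    nch (1 : MulChar F ℂ) K = 1 := by
  have : FiniteDimensional F K := Module.Finite.of_finite
  ext x
  rw [nch_apply, MulChar.one_apply_coe]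
  have hx : IsUnit (Algebra.norm F (x : K)) := x.isUnit.map (Algebra.norm F)
  rw [MulChar.one_apply hx]

private theorem K7_dvd {F : Type} [Field F] [Fintype F] {n : ℕ} (χ : MulChar F ℂ) (hχ : orderOf χ = n) :
    n ∣ Fintype.card F - 1 := by
  rw [← hχ]
  exact MulChar.orderOf_dvd_card_sub_one F χ

variable {F : Type} [Field F] [Finite F]
variable {n : ℕ} (𝓔 : Tow F) (χ : MulChar F ℂ) (c : Fˣ) (hn : 1 < n) (hn2 : Odd n)
  (hχ : orderOf χ = n)
include hn hn2 hχ
variable {p₀ : ℕ} {V : ValuationSubring ℂ} {z : ℂ} (h : Ctx p₀ n V z)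
include h

theorem good_W (u v : ZMod n) {T' : ℕ → ℂ} {p : ℕ → RF V} (hT : Good V (z - 1) T' p) :
    Good V (z - 1) (fun k => W 𝓔 χ u v k * T' k) p := by
  classical
  have : Fintype F := Fintype.ofFinite F
  have hl := h.l_nonunit
  have hd := K7_dvd χ hχ
  by_cases h1 : χ ^ u.val = 1 ∧ χ ^ v.val = 1
  · have hW : ∀ k, W 𝓔 χ u v k = 2 - (Nat.card F : ℂ) ^ k := by
      intro k
      unfold W
      split_ifs with hk
      · rw [hk, pow_zero]
        norm_num
      · have hk' : 0 < k := Nat.pos_of_ne_zero hk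
        unfold jn
        rw [nch_pow, nch_pow, h1.1, h1.2, K7_nch_one, jacobiSum_one_one, card_tow 𝓔 k hk']
        push_cast
        ring
    obtain ⟨w, hw⟩ := h.sq_of_dvd ((Nat.card F : ℤ) - 1) (by
      rw [Nat.card_eq_fintype_card]
      have h2 : 1 ≤ Fintype.card F := Fintype.card_pos
      obtain ⟨m, hm⟩ := hd
      have h3 : Fintype.card F = n * m + 1 := by omega
      refine dvd_trans (Int.natCast_dvd_natCast.2 h.dvd) ⟨(m : ℤ), ?_⟩
      rw [h3]
      push_cast
      ring)
    have h2 := good_int_mul (V := V) (l := z - 1) 2 hT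
    have h3 := good_int_mul (V := V) (l := z - 1) (-1) (good_pow_mul hl hT (w := (Nat.card F : ℂ)) w (by
      rw [← hw]
      push_cast
      ring))
    have h4 := good_add h2 h3
    have e1 : (fun k => W 𝓔 χ u v k * T' k) =
        fun k => ((2 : ℤ) : ℂ) * T' k + ((-1 : ℤ) : ℂ) * ((Nat.card F : ℂ) ^ k * T' k) := by
      funext k
      rw [hW]
      push_cast
      ring
    have e2 : p = fun j => ((2 : ℤ) : RF V) * p j + ((-1 : ℤ) : RF V) * p j := by
      funext j
      push_cast
      ring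
    rw [e1, e2]
    exact h4
  · have h2 : χ ^ u.val ≠ 1 ∨ χ ^ v.val ≠ 1 := not_and_or.1 h1
    have hW : ∀ k, W 𝓔 χ u v k = (jn χ u v) ^ k := by
      intro k
      unfold W
      split_ifs with hk
      · rw [hk, pow_zero]
      · have hk' : 0 < k := Nat.pos_of_ne_zero hk
        unfold jn
        rw [nch_pow, nch_pow, hasse_davenport _ _ h2, 𝓔.rank k hk']
    obtain ⟨w, hw⟩ := h.jn_eq χ (by rw [← hχ]; exact pow_orderOf_eq_one χ) hd u v
    have h3 := good_pow_mul hl hT w hw
    have e1 : (fun k => W 𝓔 χ u v k * T' k) = fun k => (jn χ u v) ^ k * T' k := by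
      funext k
      rw [hW]
    rw [e1]
    exact h3

variable (ι : ZMod n →+* RF V) (hz : χ (c : F) = z)
include hz

theorem good_U (b : ZMod n) (L : Multiset (ZMod n × ZMod n)) :
    Good V (z - 1) (U 𝓔 χ c b L) (fun j => ι b ^ j) := by
  induction L using Multiset.induction_on with
  | empty =>
    have e1 : U 𝓔 χ c b 0 = fun k => (z ^ b.val) ^ k := by
      funext k
      unfold U
      rw [Multiset.map_zero, Multiset.prod_zero, mul_one, MulChar.pow_apply_coe, hz]
    rw [e1]
    exact good_pow (h.lead_z ι b)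
  | cons p L ih =>
    have e1 : U 𝓔 χ c b (p ::ₘ L) = fun k => W 𝓔 χ (p.1 - b) (p.2 - p.1) k * U 𝓔 χ c b L k := by
      funext k
      unfold U
      rw [Multiset.map_cons, Multiset.prod_cons]
      ring
    rw [e1]
    exact good_W 𝓔 χ hn hn2 hχ h _ _ ih

end Pool.Agent.LibPR30
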