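import Pool.Agent.LibPR30.Defs
import Pool.Agent.LibPR30.M1
set_option autoImplicit false

/-!
`mdl ρ ((b,b)::L) = (1 - b X) mdl ρ L`, `mdl ρ ((a,b)::(b,d)::L) = (1 - b X) mdl ρ ((a,d)::L)`, `mdl ρ {(a,b)} = 1 - ((1-ρ)a + ρ b) X`,
then `lp_mul`, `coeff_lp_linear` (Rows). `j = 0`: cardinalities.
-/

namespace Pool.Agent.LibPR30

open Polynomial Module

variable {R : Type*} [CommRing R]

theorem m2_prod_coeff_zero {α : Type*} (g : α → R) (L : Multiset α) :
    (L.map fun p => (1 - C (g p) * X : R[X])).prod.coeff 0 = 1 := by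
  induction L using Multiset.induction_on with
  | empty => simp
  | cons a L ih => rw [Multiset.map_cons, Multiset.prod_cons, Polynomial.mul_coeff_zero, ih]; simp

theorem m2_prod_natDegree {α : Type*} (g : α → R) (L : Multiset α) :
    (L.map fun p => (1 - C (g p) * X : R[X])).prod.natDegree ≤ Multiset.card L := by
  induction L using Multiset.induction_on with
  | empty => simp
  | cons a L ih =>
    rw [Multiset.map_cons, Multiset.prod_cons, Multiset.card_cons]
    refine (Polynomial.natDegree_mul_le).trans ?_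
    have h1 : (1 - C (g a) * X : R[X]).natDegree ≤ 1 := by
      refine (Polynomial.natDegree_sub_le _ _).trans ?_
      refine max_le (by simp) ?_
      exact (Polynomial.natDegree_C_mul_le _ _).trans Polynomial.natDegree_X_le
    omega

theorem mdl_coeff_zero (ρ : R) (L : Multiset (R × R)) : (mdl ρ L).coeff 0 = 1 := by
  unfold mdl
  rw [Polynomial.coeff_add, Polynomial.mul_coeff_zero, Polynomial.mul_coeff_zero,
    m2_prod_coeff_zero (fun p : R × R => p.1) L, m2_prod_coeff_zero (fun p : R × R => p.2) L]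
  simp

theorem natDegree_mdl_le (ρ : R) (L : Multiset (R × R)) :
    (mdl ρ L).natDegree ≤ Multiset.card L := by
  unfold mdl
  refine (Polynomial.natDegree_add_le _ _).trans (max_le ?_ ?_)
  · exact (Polynomial.natDegree_C_mul_le _ _).trans (m2_prod_natDegree (fun p : R × R => p.1) L)
  · exact (Polynomial.natDegree_C_mul_le _ _).trans (m2_prod_natDegree (fun p : R × R => p.2) L)

theorem pL_diag (ρ b : R) (L : Multiset (R × R)) (j : ℕ) :
    pL ρ ((b, b) ::ₘ L) j = pL ρ L j + b ^ j := by
  unfold pL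
  by_cases hj : j = 0
  · simp [hj]
  · rw [if_neg hj, if_neg hj]
    have h : mdl ρ ((b, b) ::ₘ L) = (1 - C b * X) * mdl ρ L := by
      unfold mdl
      simp only [Multiset.map_cons, Multiset.prod_cons]
      ring
    rw [h, lp_mul _ _ (by simp) (mdl_coeff_zero ρ L), map_add,
      coeff_lp_linear b j (Nat.pos_of_ne_zero hj), add_comm]

theorem pL_chain (ρ a b d : R) (L : Multiset (R × R)) (j : ℕ) :
    pL ρ ((a, b) ::ₘ (b, d) ::ₘ L) j = pL ρ ((a, d) ::ₘ L) j + b ^ j := by
  unfold pL
  by_cases hj : j = 0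
  · simp [hj]
  · rw [if_neg hj, if_neg hj]
    have h : mdl ρ ((a, b) ::ₘ (b, d) ::ₘ L) = (1 - C b * X) * mdl ρ ((a, d) ::ₘ L) := by
      unfold mdl
      simp only [Multiset.map_cons, Multiset.prod_cons]
      ring
    rw [h, lp_mul _ _ (by simp) (mdl_coeff_zero ρ _), map_add,
      coeff_lp_linear b j (Nat.pos_of_ne_zero hj), add_comm]

theorem pL_single (ρ a b : R) (j : ℕ) : pL ρ {(a, b)} j = ((1 - ρ) * a + ρ * b) ^ j := by
  unfold pL
  by_cases hj : j = 0
  · simp [hj]
  · rw [if_neg hj]
    have h : mdl ρ {(a, b)} = 1 - C ((1 - ρ) * a + ρ * b) * X := by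
      unfold mdl
      simp only [Multiset.map_singleton, Multiset.prod_singleton, C_add, C_mul, C_sub, C_1]
      ring
    rw [h, coeff_lp_linear _ j (Nat.pos_of_ne_zero hj)]

theorem pL_zero (ρ : R) (j : ℕ) : pL ρ (0 : Multiset (R × R)) j = 0 := by
  unfold pL
  by_cases hj : j = 0
  · simp [hj]
  · rw [if_neg hj]
    have h : mdl ρ (0 : Multiset (R × R)) = 1 := by
      unfold mdl
      simp only [Multiset.map_zero, Multiset.prod_zero, C_sub, C_1]
      ring
    rw [h, lp_one, map_zero]

end Pool.Agent.LibPR30
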