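import Pool.Agent.LibPR30.Defs
import Pool.Agent.LibPR30.M1
import Pool.Agent.LibPR30.V1
import Pool.Agent.LibPR30.V2
set_option autoImplicit false

/-!
`β_i = (ω_i - 1)/(z - 1)`, `dj (∑ ω_i^k) j = ∑ (ω_i - 1)^j = l^j ∑ β_i^j` (`dj_sum`, `dj_pow`). Let `G = ∏ (1 - C β_i X)`; `coeff j (lp G) = ∑ β_i^j`
(`coeff_lp_prod`), so it lies in V with residue `ι (coeff j (lp f))` for `0 < j ≤ r`. Strong induction with `lp_rec` for `G` and for `f` (mapped by ι):
`j * G_j = -∑_{i<j, ...}`: precisely `∑_{i<j} G_i (lp G)_(j-i) = -j G_j`, all `G_i`, `(lp G)_i` in V with the right residues, `j < n` invertible in V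
(residue `ι j ≠ 0`). For `j > r` both coefficients vanish. So `G` comes from `V[X]` and its residue is `f.map ι`.
-/

namespace Pool.Agent.LibPR30

open Polynomial Module

variable {p n : ℕ} {V : ValuationSubring ℂ} {z : ℂ} (h : Ctx p n V z)
  {S : Type*} [CommRing S] (ι : S →+* RF V)
include h

theorem newton_res (r : ℕ) (hr : r < p) (ω : Fin r → ℂ) (f : S[X]) (hf0 : f.coeff 0 = 1)
    (hfd : f.natDegree ≤ r) (hj : ∀ j, 0 < j → j ≤ r →
      Lead V (z - 1) j (dj (fun k => ∑ i, ω i ^ k) j) (ι (PowerSeries.coeff j (lp f)))) :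
    ∃ g : V[X], g.map (algebraMap V ℂ) = ∏ i, (1 - C ((ω i - 1) / (z - 1)) * X) ∧
      g.map (IsLocalRing.residue V) = f.map ι := by
  classical
  have hl : z - 1 ≠ 0 := Ctx.l_ne h
  have hch := h.charP
  obtain ⟨β, hβ⟩ : ∃ β : Fin r → ℂ, β = fun i => (ω i - 1) / (z - 1) := ⟨_, rfl⟩
  obtain ⟨G, hG⟩ : ∃ G : ℂ[X], G = ∏ i, (1 - C (β i) * X) := ⟨_, rfl⟩
  have hG0 : G.coeff 0 = 1 := by
    rw [hG, coeff_zero_eq_eval_zero, eval_prod]
    simp
  have hGd : G.natDegree ≤ r := by
    rw [hG]
    refine (natDegree_prod_le _ _).trans ?_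
    refine (Finset.sum_le_card_nsmul _ _ 1 ?_).trans ?_
    · intro i _
      compute_degree
    · simp
  have hP : ∀ j, 0 < j → j ≤ r →
      Lead V (z - 1) 0 (PowerSeries.coeff j (lp G)) (ι (PowerSeries.coeff j (lp f))) := by
    intro j h0 hjr
    obtain ⟨v, hv, hv'⟩ := hj j h0 hjr
    refine ⟨v, ?_, hv'⟩
    rw [dj_sum Finset.univ (fun i k => ω i ^ k) j] at hv
    simp only [dj_pow] at hv
    rw [hG, coeff_lp_prod Finset.univ β j h0]
    have h1 : ∑ i, (ω i - 1) ^ j = (z - 1) ^ j * ∑ i, β i ^ j := by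
      rw [Finset.mul_sum]
      apply Finset.sum_congr rfl
      intro i _
      rw [hβ, div_pow, mul_div_cancel₀ _ (pow_ne_zero _ hl)]
    rw [h1] at hv
    rw [pow_zero, one_mul]
    exact mul_left_cancel₀ (pow_ne_zero _ hl) hv
  have key : ∀ j, j ≤ r → Lead V (z - 1) 0 (G.coeff j) (ι (f.coeff j)) := by
    intro j
    induction j using Nat.strong_induction_on with
    | _ j ih =>
      intro hjr
      rcases Nat.eq_zero_or_pos j with h0 | h0
      · subst h0
        rw [hG0, hf0, map_one]
        exact ⟨1, by simp, map_one _⟩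
      · have hs : Lead V (z - 1) 0
            (∑ i ∈ Finset.range j, G.coeff i * PowerSeries.coeff (j - i) (lp G))
            (∑ i ∈ Finset.range j, ι (f.coeff i) * ι (PowerSeries.coeff (j - i) (lp f))) := by
          apply lead_sum
          intro i hi
          have hi' := Finset.mem_range.1 hi
          have h3 := lead_mul (ih i hi' (by omega)) (hP (j - i) (by omega) (by omega))
          exact h3
        rw [lp_rec G hG0 j h0] at hs
        have e : ∑ i ∈ Finset.range j, ι (f.coeff i) * ι (PowerSeries.coeff (j - i) (lp f)) =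
            -(j : RF V) * ι (f.coeff j) := by
          rw [← map_natCast ι j, ← map_neg, ← map_mul, ← lp_rec f hf0 j h0, map_sum]
          exact Finset.sum_congr rfl fun i _ => (map_mul ι _ _).symm
        rw [e] at hs
        obtain ⟨v, hv, hv'⟩ := hs
        have hres : IsLocalRing.residue V (j : V) ≠ 0 := by
          rw [map_natCast]
          intro hh
          rw [CharP.cast_eq_zero_iff (RF V) p] at hh
          exact absurd (Nat.le_of_dvd h0 hh) (by omega)
        have hu : IsUnit (j : V) := by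
          by_contra hcon
          exact hres ((IsLocalRing.residue_eq_zero_iff _).2 ((IsLocalRing.mem_maximalIdeal _).2 hcon))
        obtain ⟨u, hu⟩ := hu
        have h1 : ((u : V) : ℂ) = (j : ℂ) := by rw [hu]; rfl
        have h2 : ((u : V) : ℂ) * (((u⁻¹ : Vˣ) : V) : ℂ) = 1 := by
          have h3 : (u : V) * ((u⁻¹ : Vˣ) : V) = 1 := Units.mul_inv u
          have h4 := congrArg (algebraMap V ℂ) h3
          rw [map_mul, map_one] at h4
          exact h4
        have h5 : IsLocalRing.residue V (u : V) * IsLocalRing.residue V ((u⁻¹ : Vˣ) : V) = 1 := by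
          rw [← map_mul, Units.mul_inv, map_one]
        have h6 : IsLocalRing.residue V (u : V) = (j : RF V) := by rw [hu, map_natCast]
        refine ⟨-(v * ((u⁻¹ : Vˣ) : V)), ?_, ?_⟩
        · have h7 : ((-(v * ((u⁻¹ : Vˣ) : V)) : V) : ℂ) = -((v : ℂ) * (((u⁻¹ : Vˣ) : V) : ℂ)) := rfl
          rw [h7, pow_zero, one_mul]
          rw [pow_zero, one_mul] at hv
          rw [← hv, ← h1]
          linear_combination (-(G.coeff j)) * h2
        · rw [map_neg, map_mul, hv', ← h6]
          linear_combination (ι (f.coeff j)) * h5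
  choose v hv using fun j : Fin (r + 1) => key j (Nat.lt_succ_iff.1 j.2)
  let w : ℕ → V := fun j => if hj' : j < r + 1 then v ⟨j, hj'⟩ else 0
  have hw : ∀ j, (w j : ℂ) = G.coeff j := by
    intro j
    by_cases hj' : j < r + 1
    · have h1 := (hv ⟨j, hj'⟩).1
      simp only [w, dif_pos hj']
      rw [pow_zero, one_mul] at h1
      exact h1.symm
    · simp only [w, dif_neg hj']
      rw [coeff_eq_zero_of_natDegree_lt (by omega)]
      rfl
  have hw' : ∀ j, IsLocalRing.residue V (w j) = ι (f.coeff j) := by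
    intro j
    by_cases hj' : j < r + 1
    · simp only [w, dif_pos hj']
      exact (hv ⟨j, hj'⟩).2
    · simp only [w, dif_neg hj']
      rw [coeff_eq_zero_of_natDegree_lt (by omega), map_zero, map_zero]
  have hc : ∀ j, (∑ i ∈ Finset.range (r + 1), monomial i (w i)).coeff j = w j := by
    intro j
    rw [finsetSum_coeff]
    simp only [coeff_monomial]
    rw [Finset.sum_ite_eq' (Finset.range (r + 1)) j]
    split_ifs with h1
    · rfl
    · have h2 : ¬ j < r + 1 := fun h3 => h1 (Finset.mem_range.2 h3)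
      simp only [w, dif_neg h2]
  refine ⟨∑ i ∈ Finset.range (r + 1), monomial i (w i), ?_, ?_⟩
  · have hG' : (∏ i, (1 - C ((ω i - 1) / (z - 1)) * X)) = G := by rw [hG, hβ]
    rw [hG']
    ext j
    rw [coeff_map, hc]
    exact hw j
  · ext j
    rw [coeff_map, coeff_map, hc]
    exact hw' j

end Pool.Agent.LibPR30
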