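import Pool.Agent.LibPR30.Defs
import Pool.Agent.LibPR30.M1
import Pool.Agent.LibPR30.V1
import Pool.Agent.LibPR30.V2
set_option autoImplicit false

/-!
`good_of_newton`: `dj .. j = l^j coeff j (lp G)`, `G = g.map`, `lp_map` for `V → ℂ` and `V → RF V` and ι. (`g.coeff 0 = 1` from hg.)
`injective_of_newton`: suppose `ω i = ω i'`, `i ≠ i'`. All `β_i` are in `V` (V integrally closed; the reversed polynomial of `g` is monic with roots `β_i`), so
`g = ∏ (1 - C β_i X)` in `V[X]` and `Q.map ι` (degree r, monic; `Q.reverse.map ι = ∏ (1 - C (res β_i) X)`, reverse again, `Q = reflect r Q.reverse`)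
`= ∏ (X - C (res β_i))` has a square factor, against separability of `Q.map ι`.
-/

namespace Pool.Agent.LibPR30

open Polynomial Module

/-- reversing the product of the linear factors -/
private theorem N2_reflect {R : Type*} [CommRing R] {κ : Type*} (β : κ → R) (s : Finset κ) :
    reflect s.card (∏ i ∈ s, (1 - C (β i) * X)) = ∏ i ∈ s, (X - C (β i)) ∧
      (∏ i ∈ s, (1 - C (β i) * X)).natDegree ≤ s.card := by
  classical
  induction s using Finset.induction_on with
  | empty => simp
  | insert a s ha ih =>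
    have h1 : (1 - C (β a) * X : R[X]).natDegree ≤ 1 := by
      refine (natDegree_sub_le _ _).trans (max_le ?_ ((natDegree_C_mul_le _ _).trans natDegree_X_le))
      simp
    have h2 : reflect 1 (1 - C (β a) * X : R[X]) = X - C (β a) := by
      have h3 : reflect 1 (C (β a) * X ^ 1 : R[X]) = C (β a) := by
        rw [reflect_C_mul_X_pow]
        simp
      have h4 : reflect 1 (1 : R[X]) = X := by
        have := reflect_C (1 : R) 1
        simpa using this
      rw [reflect_sub, h4]
      rw [pow_one] at h3
      rw [h3]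
    rw [Finset.prod_insert ha, Finset.prod_insert ha, Finset.card_insert_of_notMem ha, add_comm s.card 1]
    refine ⟨?_, ?_⟩
    · rw [reflect_mul _ _ h1 ih.2, h2, ih.1]
    · exact (natDegree_mul_le).trans (add_le_add h1 ih.2)

variable {p n : ℕ} {V : ValuationSubring ℂ} {z : ℂ} (h : Ctx p n V z)
  {S : Type*} [CommRing S] (ι : S →+* RF V)
include h

theorem good_of_newton (r : ℕ) (ω : Fin r → ℂ) (f : S[X]) (hf0 : f.coeff 0 = 1)
    (g : V[X]) (hg : g.map (algebraMap V ℂ) = ∏ i, (1 - C ((ω i - 1) / (z - 1)) * X))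
    (hgf : g.map (IsLocalRing.residue V) = f.map ι) (j : ℕ) (hj : 0 < j) :
      Lead V (z - 1) j (dj (fun k => ∑ i, ω i ^ k) j) (ι (PowerSeries.coeff j (lp f))) := by
  have hz0 : z - 1 ≠ 0 := h.l_ne
  have hinj : Function.Injective (algebraMap V ℂ) := Subtype.val_injective
  have hg0 : g.coeff 0 = 1 := by
    apply hinj
    rw [← Polynomial.coeff_map, hg, map_one, Polynomial.coeff_zero_prod]
    simp
  refine ⟨PowerSeries.coeff j (lp g), ?_, ?_⟩
  · have h1 : ((PowerSeries.coeff j (lp g) : V) : ℂ) = ∑ i, ((ω i - 1) / (z - 1)) ^ j := by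
      have h2 := congrArg (PowerSeries.coeff j) (lp_map (algebraMap V ℂ) g hg0)
      rw [PowerSeries.coeff_map, hg, coeff_lp_prod _ _ j hj] at h2
      exact h2
    rw [h1, dj_sum, Finset.mul_sum]
    refine Finset.sum_congr rfl fun i _ => ?_
    rw [dj_pow, div_pow, mul_div_cancel₀ _ (pow_ne_zero _ hz0)]
  · have h2 := congrArg (PowerSeries.coeff j) (lp_map (IsLocalRing.residue V) g hg0)
    rw [PowerSeries.coeff_map, hgf, ← lp_map ι f hf0, PowerSeries.coeff_map] at h2
    exact h2

theorem injective_of_newton (r : ℕ) (ω : Fin r → ℂ) (Q : S[X])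
    (hQr : Q.natDegree = r) (hsep : (Q.map ι).Separable)
    (g : V[X]) (hg : g.map (algebraMap V ℂ) = ∏ i, (1 - C ((ω i - 1) / (z - 1)) * X))
    (hgf : g.map (IsLocalRing.residue V) = Q.reverse.map ι) : Function.Injective ω := by
  have hz0 : z - 1 ≠ 0 := h.l_ne
  have hinj : Function.Injective (algebraMap V ℂ) := Subtype.val_injective
  set β : Fin r → ℂ := fun i => (ω i - 1) / (z - 1) with hβ
  have hrefl := N2_reflect β Finset.univ
  rw [Finset.card_univ, Fintype.card_fin] at hrefl
  -- the reversed polynomial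
  have hP : (reflect r g).map (algebraMap V ℂ) = ∏ i, (X - C (β i)) := by
    rw [← reflect_map, hg]
    exact hrefl.1
  have hPm : (reflect r g).Monic := by
    apply Polynomial.monic_of_injective hinj
    rw [hP]
    exact monic_prod_of_monic _ _ fun i _ => monic_X_sub_C _
  have hmem : ∀ i, β i ∈ V := by
    intro i
    have h1 : IsIntegral V (β i) := by
      refine ⟨reflect r g, hPm, ?_⟩
      rw [← Polynomial.eval_map, hP, eval_prod]
      exact Finset.prod_eq_zero (Finset.mem_univ i) (by simp)
    obtain ⟨y, hy⟩ := IsIntegrallyClosed.isIntegral_iff.1 h1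
    rw [← hy]
    exact y.2
  have hPV : reflect r g = ∏ i, (X - C (⟨β i, hmem i⟩ : V)) := by
    apply Polynomial.map_injective _ hinj
    rw [hP, Polynomial.map_prod]
    refine Finset.prod_congr rfl fun i _ => ?_
    rw [Polynomial.map_sub, map_X, map_C]
    rfl
  have hQ' : Q.map ι = ∏ i, (X - C (IsLocalRing.residue V ⟨β i, hmem i⟩)) := by
    have h1 : (reflect r g).map (IsLocalRing.residue V) = Q.map ι := by
      rw [← reflect_map, hgf, reflect_map]
      congr 1
      rw [Polynomial.reverse, hQr]
      exact reflect_reflect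
    rw [← h1, hPV, Polynomial.map_prod]
    refine Finset.prod_congr rfl fun i _ => ?_
    rw [Polynomial.map_sub, map_X, map_C]
  have hs : (∏ i, (X - C (IsLocalRing.residue V ⟨β i, hmem i⟩))).Separable := by
    rw [← hQ']
    exact hsep
  have hi := separable_prod_X_sub_C_iff.1 hs
  intro i i' hii
  apply hi
  have h1 : β i = β i' := by
    change (ω i - 1) / (z - 1) = (ω i' - 1) / (z - 1)
    rw [hii]
  exact congrArg _ (Subtype.ext h1)

end Pool.Agent.LibPR30
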