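import Pool.Agent.LibPR30.Defs
import Pool.Agent.LibPR30.K3
import Pool.Agent.LibPR30.K4
import Pool.Agent.LibPR30.V2
set_option autoImplicit false

/-!
`k = 0`: `T = r`, `v 0 = r`, `v s = 0` else. `k > 0`, `ψ = nch χ (𝓔.E k)`: values on units are powers of `z`; choose `κ : (𝓔.E k)ˣ → ZMod n`, `ψ y = z^(κ y).val`
(as in row C1, see PR30_C1.lean in the store). By `gel_eq_sum`, `T = -(-1)^r ∑_u z^(m u).val` over the `u : Fin r → units`, `∏ u = c`, all `u i ≠ 1`, with
`m u = ∑ a_i κ(u_i) + (b_i - a_i) κ(1 - u_i)` in `ZMod n`; `z^m = (1 + (z-1))^m = ∑_{s < n} (z-1)^s (m.choose s)` for `m < n`; so `v s = -(-1)^r ∑_u ((m u).val.choose s)`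
(`v 0` = -(-1)^r times the number of u). Modulo n, for `s < n`: `(m.choose s) = (s!)⁻¹ ∏_{t < s} (m - t)` (`Nat.descFactorial_eq_factorial_mul_choose`), polynomial of degree ≤ s in `m`,
and `m u` is a linear form in the variables: `P k s = -(-1)^r ∑_u C (s!)⁻¹ * ∏_{t<s} (lin_u - C t)` (for `s ≥ n` take `P k s = 0`).
-/

namespace Pool.Agent.LibPR30

open Polynomial Module

variable {F : Type} [Field F] [Finite F] {p n : ℕ} {V : ValuationSubring ℂ} {z : ℂ}
  (h : Ctx p n V z) (ι : ZMod n →+* RF V) (𝓔 : Tow F) (χ : MulChar F ℂ) (c : Fˣ)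
  (hχ : orderOf χ = n) (hz : χ (c : F) = z)

omit [Finite F] in
private theorem P1_exists_kap (h : Ctx p n V z) {E : Type} [Field E] (ψ : MulChar E ℂ)
    (hψ : orderOf ψ = n) (y : E) (hy : y ≠ 0) :
    ∃ κ : ZMod n, ∀ d : ZMod n, (ψ ^ d.val) y = z ^ (κ * d).val := by
  haveI : NeZero n := ⟨h.ne_zero⟩
  obtain ⟨u, rfl⟩ := hy.isUnit
  have h1 : ψ (u : E) ^ n = 1 := by
    rw [← MulChar.pow_apply_coe, ← hψ, pow_orderOf_eq_one, MulChar.one_apply_coe]
  obtain ⟨i, hi, hi2⟩ := h.prim.eq_pow_of_pow_eq_one h1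
  refine ⟨(i : ZMod n), fun d => ?_⟩
  rw [MulChar.pow_apply_coe, ← hi2, ← pow_mul, ZMod.val_mul, ZMod.val_natCast, Nat.mod_eq_of_lt hi]
  exact pow_eq_pow_mod _ h.prim.pow_eq_one

private theorem P1_zpow_add (h : Ctx p n V z) (x y : ZMod n) :
    z ^ (x + y).val = z ^ x.val * z ^ y.val := by
  haveI : NeZero n := ⟨h.ne_zero⟩
  rw [ZMod.val_add, ← pow_add]
  exact (pow_eq_pow_mod _ h.prim.pow_eq_one).symm

private theorem P1_zpow_sum (h : Ctx p n V z) {ι' : Type*} (s : Finset ι') (f : ι' → ZMod n) :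
    z ^ (∑ i ∈ s, f i).val = ∏ i ∈ s, z ^ (f i).val := by
  classical
  haveI : NeZero n := ⟨h.ne_zero⟩
  induction s using Finset.induction_on with
  | empty => simp
  | insert a s ha ih =>
    rw [Finset.sum_insert ha, Finset.prod_insert ha, P1_zpow_add h, ih]

private theorem P1_zpow_val (m : ZMod n) [NeZero n] (w : ℂ) :
    w ^ m.val = ∑ s ∈ Finset.range n, (w - 1) ^ s * ((m.val.choose s : ℕ) : ℂ) := by
  have h1 : w ^ m.val = ((w - 1) + 1) ^ m.val := by rw [sub_add_cancel]
  rw [h1, add_pow]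
  have h2 : Finset.range (m.val + 1) ⊆ Finset.range n := by
    intro x hx
    rw [Finset.mem_range] at hx ⊢
    have := ZMod.val_lt m
    omega
  rw [← Finset.sum_subset h2]
  · refine Finset.sum_congr rfl fun s _ => ?_
    rw [one_pow, mul_one]
  · intro s _ hs
    rw [Finset.mem_range, not_lt] at hs
    rw [Nat.choose_eq_zero_of_lt (by omega), Nat.cast_zero, mul_zero]

private theorem P1_choose_cast (hp : p.Prime) (m s : ℕ) (hs : s < p) :
    ((m.choose s : ℕ) : ZMod p) =
      letI : Fact p.Prime := ⟨hp⟩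
      ((s.factorial : ℕ) : ZMod p)⁻¹ * ∏ t ∈ Finset.range s, ((m : ZMod p) - ((t : ℕ) : ZMod p)) := by
  haveI : Fact p.Prime := ⟨hp⟩
  have h0 : ((s.factorial : ℕ) : ZMod p) ≠ 0 := by
    rw [Ne, ZMod.natCast_eq_zero_iff, hp.dvd_factorial]
    omega
  have h1 : ((s.factorial : ℕ) : ZMod p) * ((m.choose s : ℕ) : ZMod p) =
      ∏ t ∈ Finset.range s, ((m : ZMod p) - ((t : ℕ) : ZMod p)) := by
    rw [← Nat.cast_mul, ← Nat.descFactorial_eq_factorial_mul_choose,
      ← descPochhammer_eval_eq_descFactorial, descPochhammer_eval_eq_prod_range]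
  rw [← h1, ← mul_assoc, inv_mul_cancel₀ h0, one_mul]

private theorem P1_deg {σ R : Type*} [CommRing R] (l : MvPolynomial σ R)
    (hl : l.totalDegree ≤ 1) (s : ℕ) :
    (∏ t ∈ Finset.range s, (l - MvPolynomial.C ((t : ℕ) : R))).totalDegree ≤ s := by
  refine (MvPolynomial.totalDegree_finsetProd _ _).trans ?_
  refine (Finset.sum_le_card_nsmul _ _ 1 ?_).trans (by simp)
  intro t _
  refine (MvPolynomial.totalDegree_sub _ _).trans ?_
  rw [MvPolynomial.totalDegree_C]
  simpa using hl

include h hχ hz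

omit ι in
theorem T_poly (r : ℕ) (hr : 0 < r) :
    ∃ (P : ℕ → ℕ → MvPolynomial (Fin r ⊕ Fin r) (ZMod p)) (v0 : ℕ → ℤ),
      (∀ k s, (P k s).totalDegree ≤ s) ∧ ∀ (a b : Fin r → ZMod n) (k : ℕ), ∃ v : ℕ → ℤ,
        v 0 = v0 k ∧ (∀ s, s < p → ((v s : ℤ) : ZMod p) = MvPolynomial.eval
          (Sum.elim (fun i => ZMod.castHom h.dvd (ZMod p) (a i))
            (fun i => ZMod.castHom h.dvd (ZMod p) (b i))) (P k s)) ∧
        T 𝓔 χ c (Finset.univ.val.map fun i => (a i, b i)) k =
          ∑ s ∈ Finset.range n, (z - 1) ^ s * (v s : ℂ) := by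
  classical
  haveI : NeZero n := ⟨h.ne_zero⟩
  haveI : Fact p.Prime := ⟨h.prime⟩
  obtain ⟨π, hπ⟩ : ∃ π : ZMod n →+* ZMod p, π = ZMod.castHom h.dvd (ZMod p) := ⟨_, rfl⟩
  rw [← hπ]
  have hπv : ∀ x : ZMod n, π x = (x.val : ZMod p) := by
    intro x
    rw [hπ, ZMod.castHom_apply, ZMod.natCast_val]
  have key : ∀ k : ℕ, ∃ (P : ℕ → MvPolynomial (Fin r ⊕ Fin r) (ZMod p)) (v0 : ℤ),
      (∀ s, (P s).totalDegree ≤ s) ∧ ∀ (a b : Fin r → ZMod n), ∃ v : ℕ → ℤ,
        v 0 = v0 ∧ (∀ s, s < p → ((v s : ℤ) : ZMod p) = MvPolynomial.eval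
          (Sum.elim (fun i => π (a i)) (fun i => π (b i))) (P s)) ∧
        T 𝓔 χ c (Finset.univ.val.map fun i => (a i, b i)) k =
          ∑ s ∈ Finset.range n, (z - 1) ^ s * (v s : ℂ) := by
    intro k
    rcases Nat.eq_zero_or_pos k with rfl | hk
    · refine ⟨fun s => if s = 0 then MvPolynomial.C ((r : ℕ) : ZMod p) else 0, (r : ℤ), ?_, ?_⟩
      · intro s
        simp only
        split_ifs with hs
        · rw [MvPolynomial.totalDegree_C]; exact Nat.zero_le _
        · rw [MvPolynomial.totalDegree_zero]; exact Nat.zero_le _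
      · intro a b
        refine ⟨fun s => if s = 0 then (r : ℤ) else 0, if_pos rfl, ?_, ?_⟩
        · intro s _
          simp only
          split_ifs with hs
          · rw [MvPolynomial.eval_C]; push_cast; rfl
          · rw [map_zero]; push_cast; rfl
        · unfold T
          rw [if_pos rfl, Multiset.card_map, Finset.card_val, Finset.card_univ, Fintype.card_fin]
          rw [Finset.sum_eq_single_of_mem 0 (Finset.mem_range.2 h.pos)]
          · simp
          · intro s _ hs
            simp [hs]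
    · set ψ := nch χ (𝓔.E k) with hψdef
      have hψ : orderOf ψ = n := by rw [hψdef, orderOf_nch, hχ]
      set C' : (𝓔.E k)ˣ := Units.map (algebraMap F (𝓔.E k) : F →* 𝓔.E k) c with hC
      have hkap : ∀ y : 𝓔.E k, ∃ κ : ZMod n, y ≠ 0 → ∀ d : ZMod n,
          (ψ ^ d.val) y = z ^ (κ * d).val := by
        intro y
        by_cases hy : y = 0
        · exact ⟨0, fun hy' => absurd hy hy'⟩
        · obtain ⟨κ, hκ⟩ := P1_exists_kap h ψ hψ y hy
          exact ⟨κ, fun _ => hκ⟩
      choose κ hκ using hkap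
      set S : Finset (Fin r → (𝓔.E k)ˣ) := (Finset.univ : Finset (Fin r → (𝓔.E k)ˣ)).filter
        (fun u => ∏ i, u i = C' ∧ ∀ i, 1 - (u i : 𝓔.E k) ≠ 0) with hS
      let lin : (Fin r → (𝓔.E k)ˣ) → MvPolynomial (Fin r ⊕ Fin r) (ZMod p) := fun u =>
        ∑ i : Fin r, (MvPolynomial.C (π (κ (u i : 𝓔.E k) - κ (1 - (u i : 𝓔.E k)))) *
            MvPolynomial.X (Sum.inl i) +
          MvPolynomial.C (π (κ (1 - (u i : 𝓔.E k)))) * MvPolynomial.X (Sum.inr i))
      let m : (Fin r → ZMod n) → (Fin r → ZMod n) → (Fin r → (𝓔.E k)ˣ) → ZMod n := fun a b u =>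
        ∑ i : Fin r, (κ (u i : 𝓔.E k) * a i + κ (1 - (u i : 𝓔.E k)) * (b i - a i))
      have hlin : ∀ a b u, MvPolynomial.eval (Sum.elim (fun i => π (a i)) (fun i => π (b i)))
          (lin u) = (((m a b u).val : ℕ) : ZMod p) := by
        intro a b u
        rw [← hπv]
        simp only [lin, m, map_sum, map_add, map_sub, map_mul, MvPolynomial.eval_C,
          MvPolynomial.eval_X, Sum.elim_inl, Sum.elim_inr]
        refine Finset.sum_congr rfl fun i _ => ?_
        ring
      have hdeg : ∀ u, (lin u).totalDegree ≤ 1 := by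
        intro u
        refine (MvPolynomial.totalDegree_finsetSum _ _).trans ?_
        refine Finset.sup_le fun i _ => ?_
        refine (MvPolynomial.totalDegree_add _ _).trans ?_
        refine max_le ?_ ?_
        · refine (MvPolynomial.totalDegree_mul _ _).trans ?_
          rw [MvPolynomial.totalDegree_C, MvPolynomial.totalDegree_X]
        · refine (MvPolynomial.totalDegree_mul _ _).trans ?_
          rw [MvPolynomial.totalDegree_C, MvPolynomial.totalDegree_X]
      refine ⟨fun s => if s < p then MvPolynomial.C ((-(-1) ^ r : ℤ) : ZMod p) *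
          ∑ u ∈ S, MvPolynomial.C (((s.factorial : ℕ) : ZMod p)⁻¹) *
            ∏ t ∈ Finset.range s, (lin u - MvPolynomial.C ((t : ℕ) : ZMod p)) else 0,
        (-(-1) ^ r) * (S.card : ℤ), ?_, ?_⟩
      · intro s
        simp only
        split_ifs with hs
        · refine (MvPolynomial.totalDegree_mul _ _).trans ?_
          rw [MvPolynomial.totalDegree_C, zero_add]
          refine (MvPolynomial.totalDegree_finsetSum _ _).trans ?_
          refine Finset.sup_le fun u _ => ?_
          refine (MvPolynomial.totalDegree_mul _ _).trans ?_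
          rw [MvPolynomial.totalDegree_C, zero_add]
          exact P1_deg _ (hdeg u) s
        · rw [MvPolynomial.totalDegree_zero]; exact Nat.zero_le _
      · intro a b
        refine ⟨fun s => (-(-1) ^ r) * ∑ u ∈ S, (((m a b u).val.choose s : ℕ) : ℤ), ?_, ?_, ?_⟩
        · simp
        · intro s hs
          simp only
          rw [if_pos hs, map_mul, map_sum, MvPolynomial.eval_C]
          push_cast
          congr 1
          refine Finset.sum_congr rfl fun u _ => ?_
          rw [map_mul, MvPolynomial.eval_C, map_prod, P1_choose_cast h.prime _ s hs]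
          congr 1
          refine Finset.prod_congr rfl fun t _ => ?_
          rw [map_sub, MvPolynomial.eval_C, hlin]
        · unfold T
          rw [if_neg hk.ne', Multiset.card_map, Finset.card_val, Finset.card_univ,
            Fintype.card_fin, gel_eq_sum]
          have e1 : ∑ u ∈ (Finset.univ : Finset (Fin r → (𝓔.E k)ˣ)).filter
                (fun u => ∏ i, u i = Units.map (algebraMap F (𝓔.E k) : F →* 𝓔.E k) c),
                ∏ i, ((nch χ (𝓔.E k) ^ (a i).val) (u i : 𝓔.E k) *
                  (nch χ (𝓔.E k) ^ (b i - a i).val) (1 - (u i : 𝓔.E k))) =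
              ∑ u ∈ S, z ^ (m a b u).val := by
            rw [← Finset.sum_subset (s₁ := S)]
            · refine Finset.sum_congr rfl fun u hu => ?_
              rw [hS, Finset.mem_filter] at hu
              simp only [m]
              rw [P1_zpow_sum h]
              refine Finset.prod_congr rfl fun i _ => ?_
              rw [P1_zpow_add h, ← hκ _ (Units.ne_zero (u i)) (a i), ← hκ _ (hu.2.2 i) (b i - a i)]
            · intro u hu
              rw [hS, Finset.mem_filter] at hu
              rw [Finset.mem_filter]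
              exact ⟨Finset.mem_univ _, hu.2.1⟩
            · intro u hu hu'
              rw [Finset.mem_filter] at hu
              have h3 : ∃ i, 1 - (u i : 𝓔.E k) = 0 := by
                by_contra hcon
                apply hu'
                rw [hS, Finset.mem_filter]
                refine ⟨Finset.mem_univ _, hu.2, fun i hi => hcon ⟨i, hi⟩⟩
              obtain ⟨i, hi⟩ := h3
              refine Finset.prod_eq_zero (Finset.mem_univ i) ?_
              rw [hi, MulChar.map_zero, mul_zero]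
          rw [e1]
          have e2 : ∀ u ∈ S, z ^ (m a b u).val = ∑ s ∈ Finset.range n, (z - 1) ^ s *
              (((m a b u).val.choose s : ℕ) : ℂ) := fun u _ => P1_zpow_val (m a b u) z
          rw [Finset.sum_congr rfl e2, Finset.sum_comm, Finset.mul_sum]
          refine Finset.sum_congr rfl fun s _ => ?_
          rw [← Finset.mul_sum]
          push_cast
          ring
  choose P v0 hP1 hP2 using key
  exact ⟨P, v0, hP1, fun a b k => hP2 k a b⟩

end Pool.Agent.LibPR30
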