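import Pool.Agent.LibPR30.Defs
set_option autoImplicit false

namespace Pool.Agent.LibPR30

open Polynomial Module

private def sb {m : ℕ} (i j : Fin m) (s : Fin m ⊕ Fin m) : Fin m ⊕ Fin m :=
  if s = Sum.inl i then Sum.inr j else s

private theorem dvd_sub_rename {m : ℕ} {R : Type*} [CommRing R] (i j : Fin m)
    (P : MvPolynomial (Fin m ⊕ Fin m) R) :
    (MvPolynomial.X (Sum.inl i) - MvPolynomial.X (Sum.inr j)) ∣
      P - MvPolynomial.rename (sb i j) P := by
  induction P using MvPolynomial.induction_on with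
  | C a => simp
  | add p q hp hq =>
    have h := dvd_add hp hq
    rw [map_add]
    convert h using 1
    ring
  | mul_X p s hp =>
    rw [map_mul, MvPolynomial.rename_X]
    by_cases hs : s = Sum.inl i
    · have h1 : sb i j s = Sum.inr j := by simp [sb, hs]
      rw [h1, hs]
      have h2 : p * MvPolynomial.X (Sum.inl i) -
          MvPolynomial.rename (sb i j) p * MvPolynomial.X (Sum.inr j) =
          (p - MvPolynomial.rename (sb i j) p) * MvPolynomial.X (Sum.inl i) +
            MvPolynomial.rename (sb i j) p *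
              (MvPolynomial.X (Sum.inl i) - MvPolynomial.X (Sum.inr j)) := by ring
      rw [h2]
      exact dvd_add (Dvd.dvd.mul_right hp _) (Dvd.intro_left _ rfl)
    · have h1 : sb i j s = s := by simp [sb, hs]
      rw [h1, ← sub_mul]
      exact Dvd.dvd.mul_right hp _

private theorem rename_lin {m : ℕ} {R : Type*} [CommRing R] [Nontrivial R] (i j i' j' : Fin m)
    (h : MvPolynomial.rename (sb i j) (MvPolynomial.X (Sum.inl i') - MvPolynomial.X (Sum.inr j') :
      MvPolynomial (Fin m ⊕ Fin m) R) = 0) : i' = i ∧ j' = j := by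
  rw [map_sub, MvPolynomial.rename_X, MvPolynomial.rename_X, sub_eq_zero] at h
  have h1 := MvPolynomial.X_injective h
  have h2 : sb i j (Sum.inr j') = Sum.inr j' := by simp [sb]
  rw [h2] at h1
  by_cases hi : i' = i
  · refine ⟨hi, ?_⟩
    rw [hi] at h1
    simp only [sb, if_true] at h1
    exact (Sum.inr_injective h1).symm
  · have h3 : sb i j (Sum.inl i') = Sum.inl i' := by simp [sb, hi]
    rw [h3] at h1
    exact absurd h1 (by simp)

private theorem rename_lin_self {m : ℕ} {R : Type*} [CommRing R] (i j : Fin m) :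
    MvPolynomial.rename (sb i j) (MvPolynomial.X (Sum.inl i) - MvPolynomial.X (Sum.inr j) :
      MvPolynomial (Fin m ⊕ Fin m) R) = 0 := by
  rw [map_sub, MvPolynomial.rename_X, MvPolynomial.rename_X]
  have h2 : sb i j (Sum.inr j) = Sum.inr j := by simp [sb]
  have h3 : sb i j (Sum.inl i) = Sum.inr j := by simp [sb]
  rw [h2, h3, sub_self]

private theorem dvd_iff_rename {m : ℕ} {R : Type*} [CommRing R] (i j : Fin m)
    (P : MvPolynomial (Fin m ⊕ Fin m) R) :
    (MvPolynomial.X (Sum.inl i) - MvPolynomial.X (Sum.inr j)) ∣ P ↔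
      MvPolynomial.rename (sb i j) P = 0 := by
  constructor
  · rintro ⟨Q, rfl⟩
    rw [map_mul, rename_lin_self, zero_mul]
  · intro h
    have h1 := dvd_sub_rename i j P
    rwa [h, sub_zero] at h1

private theorem lin_deg {m : ℕ} {R : Type*} [CommRing R] [Nontrivial R] (i j : Fin m) :
    1 ≤ (MvPolynomial.X (Sum.inl i) - MvPolynomial.X (Sum.inr j) :
      MvPolynomial (Fin m ⊕ Fin m) R).totalDegree := by
  classical
  have h1 : Finsupp.single (Sum.inl i) 1 ∈ (MvPolynomial.X (Sum.inl i) -
      MvPolynomial.X (Sum.inr j) : MvPolynomial (Fin m ⊕ Fin m) R).support := by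
    rw [MvPolynomial.mem_support_iff, MvPolynomial.coeff_sub, MvPolynomial.coeff_X,
      MvPolynomial.coeff_X]
    have h2 : ¬ (Finsupp.single (Sum.inr j : Fin m ⊕ Fin m) 1 = Finsupp.single (Sum.inl i) 1) := by
      intro h3
      have h4 := (Finsupp.single_left_inj (one_ne_zero : (1 : ℕ) ≠ 0)).1 h3
      exact absurd h4 (by simp)
    rw [if_neg h2]
    simp
  have h2 := MvPolynomial.le_totalDegree h1
  simpa using h2

private theorem prod_dvd {m : ℕ} {R : Type*} [CommRing R] [IsDomain R]
    (P : MvPolynomial (Fin m ⊕ Fin m) R)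
    (h : ∀ i j, MvPolynomial.rename (sb i j) P = 0) (T : Finset (Fin m × Fin m)) :
    ∃ Q, P = (∏ t ∈ T, (MvPolynomial.X (Sum.inl t.1) - MvPolynomial.X (Sum.inr t.2))) * Q := by
  classical
  induction T using Finset.induction_on with
  | empty => exact ⟨P, by simp⟩
  | insert t T ht ih =>
    obtain ⟨Q, hQ⟩ := ih
    have h1 := h t.1 t.2
    rw [hQ, map_mul, mul_eq_zero, map_prod, Finset.prod_eq_zero_iff] at h1
    have h2 : MvPolynomial.rename (sb t.1 t.2) Q = 0 := by
      rcases h1 with ⟨u, hu, h2⟩ | h2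
      · exfalso
        obtain ⟨h3, h4⟩ := rename_lin _ _ _ _ h2
        exact ht (by rwa [show t = u from Prod.ext h3.symm h4.symm])
      · exact h2
    obtain ⟨Q', hQ'⟩ := (dvd_iff_rename t.1 t.2 Q).2 h2
    refine ⟨Q', ?_⟩
    rw [Finset.prod_insert ht, hQ, hQ']
    ring

private theorem prod_deg {m : ℕ} {R : Type*} [CommRing R] [IsDomain R]
    (T : Finset (Fin m × Fin m)) :
    (∏ t ∈ T, (MvPolynomial.X (Sum.inl t.1) - MvPolynomial.X (Sum.inr t.2) :
      MvPolynomial (Fin m ⊕ Fin m) R)) ≠ 0 ∧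
    T.card ≤ (∏ t ∈ T, (MvPolynomial.X (Sum.inl t.1) - MvPolynomial.X (Sum.inr t.2) :
      MvPolynomial (Fin m ⊕ Fin m) R)).totalDegree := by
  classical
  induction T using Finset.induction_on with
  | empty => simp
  | insert t T ht ih =>
    have h0 : (MvPolynomial.X (Sum.inl t.1) - MvPolynomial.X (Sum.inr t.2) :
      MvPolynomial (Fin m ⊕ Fin m) R) ≠ 0 := by
      intro h
      have h1 := lin_deg (R := R) t.1 t.2
      rw [h] at h1
      simp at h1
    rw [Finset.prod_insert ht, Finset.card_insert_of_notMem ht]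
    refine ⟨mul_ne_zero h0 ih.1, ?_⟩
    rw [MvPolynomial.totalDegree_mul_of_isDomain h0 ih.1]
    have h1 := lin_deg (R := R) t.1 t.2
    have h2 := ih.2
    omega

theorem poly_vanish {n : ℕ} (hn : n.Prime) (m : ℕ) (P : MvPolynomial (Fin m ⊕ Fin m) (ZMod n))
    (hP1 : P.totalDegree < n) (hP2 : P.totalDegree < m * m)
    (h0 : ∀ a b : Fin m → ZMod n, (∃ i j, a i = b j) → MvPolynomial.eval (Sum.elim a b) P = 0) :
    P = 0 := by
  have : Fact n.Prime := ⟨hn⟩
  have h1 : ∀ i j, MvPolynomial.rename (sb i j) P = 0 := by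
    intro i j
    apply MvPolynomial.eq_zero_of_eval_zero_at_prod_finset _ (fun _ => Finset.univ)
    · intro s
      rw [Finset.card_univ, ZMod.card]
      exact lt_of_le_of_lt (MvPolynomial.degreeOf_le_totalDegree _ _)
        (lt_of_le_of_lt (MvPolynomial.totalDegree_rename_le _ _) hP1)
    · intro x _
      rw [MvPolynomial.eval_rename]
      have h2 : x ∘ sb i j = Sum.elim (fun k => x (sb i j (Sum.inl k)))
          (fun k => x (sb i j (Sum.inr k))) := by
        funext s
        rcases s with s | s <;> rfl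
      rw [h2]
      apply h0
      refine ⟨i, j, ?_⟩
      simp [sb]
  by_contra hP
  obtain ⟨Q, hQ⟩ := prod_dvd P h1 Finset.univ
  obtain ⟨h2, h3⟩ := prod_deg (R := ZMod n) (Finset.univ : Finset (Fin m × Fin m))
  have hQ0 : Q ≠ 0 := by
    rintro rfl
    rw [mul_zero] at hQ
    exact hP hQ
  have h4 := congrArg MvPolynomial.totalDegree hQ
  rw [MvPolynomial.totalDegree_mul_of_isDomain h2 hQ0] at h4
  rw [Finset.card_univ, Fintype.card_prod, Fintype.card_fin] at h3
  omega

end Pool.Agent.LibPR30
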