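import Pool.Agent.LibPR30.Defs
set_option autoImplicit false

/-!
Row PR30 P3. The power sums of the model as polynomials in the parameters.
The families of power series whose `j`-th coefficient is a polynomial of degree at most `j` in the parameters
are closed under sums, products and `f ↦ X f'`.
-/

namespace Pool.Agent.LibPR30

open Polynomial Module

variable {R : Type*} [CommRing R]

private def P3_Cl {m : ℕ} (F : (Fin m → R) → (Fin m → R) → PowerSeries R) : Prop :=
  ∀ j : ℕ, ∃ Q : MvPolynomial (Fin m ⊕ Fin m) R, Q.totalDegree ≤ j ∧ ∀ a b : Fin m → R,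
    MvPolynomial.eval (Sum.elim a b) Q = PowerSeries.coeff j (F a b)

private theorem P3_const {m : ℕ} (P : PowerSeries R) : P3_Cl (m := m) (fun _ _ => P) := by
  intro j
  refine ⟨MvPolynomial.C (PowerSeries.coeff j P), ?_, fun a b => ?_⟩
  · rw [MvPolynomial.totalDegree_C]
    exact Nat.zero_le j
  · rw [MvPolynomial.eval_C]

private theorem P3_var {m : ℕ} (s : Fin m ⊕ Fin m) :
    P3_Cl (R := R) (m := m) (fun a b => PowerSeries.C (Sum.elim a b s) * PowerSeries.X) := by
  intro j
  by_cases hj : j = 1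
  · subst hj
    refine ⟨MvPolynomial.X s, ?_, fun a b => ?_⟩
    · rcases subsingleton_or_nontrivial R with h | h
      · have h0 : (MvPolynomial.X s : MvPolynomial (Fin m ⊕ Fin m) R) = 0 := Subsingleton.elim _ _
        rw [h0, MvPolynomial.totalDegree_zero]
        exact Nat.zero_le 1
      · rw [MvPolynomial.totalDegree_X]
    · rw [MvPolynomial.eval_X, PowerSeries.coeff_C_mul, PowerSeries.coeff_X, if_pos rfl, mul_one]
  · refine ⟨0, ?_, fun a b => ?_⟩
    · rw [MvPolynomial.totalDegree_zero]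
      exact Nat.zero_le j
    · rw [map_zero, PowerSeries.coeff_C_mul, PowerSeries.coeff_X, if_neg hj, mul_zero]

private theorem P3_add {m : ℕ} {F F' : (Fin m → R) → (Fin m → R) → PowerSeries R}
    (h : P3_Cl F) (h' : P3_Cl F') : P3_Cl (fun a b => F a b + F' a b) := by
  intro j
  obtain ⟨Q, h1, h2⟩ := h j
  obtain ⟨Q', h1', h2'⟩ := h' j
  refine ⟨Q + Q', (MvPolynomial.totalDegree_add Q Q').trans (max_le h1 h1'), fun a b => ?_⟩
  rw [map_add, map_add, h2, h2']

private theorem P3_mul {m : ℕ} {F F' : (Fin m → R) → (Fin m → R) → PowerSeries R}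
    (h : P3_Cl F) (h' : P3_Cl F') : P3_Cl (fun a b => F a b * F' a b) := by
  intro j
  choose Q h1 h2 using h
  choose Q' h1' h2' using h'
  refine ⟨∑ p ∈ Finset.HasAntidiagonal.antidiagonal j, Q p.1 * Q' p.2, ?_, fun a b => ?_⟩
  · refine (MvPolynomial.totalDegree_finset_sum _ _).trans (Finset.sup_le fun p hp => ?_)
    have hp' := Finset.HasAntidiagonal.mem_antidiagonal.1 hp
    have h3 := MvPolynomial.totalDegree_mul (Q p.1) (Q' p.2)
    have h4 := h1 p.1
    have h5 := h1' p.2
    omega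
  · rw [map_sum, PowerSeries.coeff_mul]
    refine Finset.sum_congr rfl fun p _ => ?_
    rw [map_mul, h2, h2']

private theorem P3_pow {m : ℕ} {F : (Fin m → R) → (Fin m → R) → PowerSeries R}
    (h : P3_Cl F) (n : ℕ) : P3_Cl (fun a b => F a b ^ n) := by
  induction n with
  | zero =>
    have h1 := P3_const (m := m) (1 : PowerSeries R)
    simpa using h1
  | succ n ih =>
    have h1 := P3_mul ih h
    simpa [pow_succ] using h1

private theorem P3_sum {m : ℕ} {ι : Type*} (s : Finset ι)
    (F : ι → (Fin m → R) → (Fin m → R) → PowerSeries R)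
    (h : ∀ i, P3_Cl (F i)) : P3_Cl (fun a b => ∑ i ∈ s, F i a b) := by
  classical
  induction s using Finset.induction_on with
  | empty =>
    have h1 := P3_const (m := m) (0 : PowerSeries R)
    simpa using h1
  | insert i s hi ih =>
    have h1 := P3_add (h i) ih
    simpa [Finset.sum_insert hi] using h1

private theorem P3_prod {m : ℕ} {ι : Type*} (s : Finset ι)
    (F : ι → (Fin m → R) → (Fin m → R) → PowerSeries R)
    (h : ∀ i, P3_Cl (F i)) : P3_Cl (fun a b => ∏ i ∈ s, F i a b) := by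
  classical
  induction s using Finset.induction_on with
  | empty =>
    have h1 := P3_const (m := m) (1 : PowerSeries R)
    simpa using h1
  | insert i s hi ih =>
    have h1 := P3_mul (h i) ih
    simpa [Finset.prod_insert hi] using h1

private theorem P3_neg {m : ℕ} {F : (Fin m → R) → (Fin m → R) → PowerSeries R}
    (h : P3_Cl F) : P3_Cl (fun a b => -F a b) := by
  have h1 := P3_mul (P3_const (m := m) (-1 : PowerSeries R)) h
  simpa using h1

private theorem P3_der {m : ℕ} {F : (Fin m → R) → (Fin m → R) → PowerSeries R}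
    (h : P3_Cl F) : P3_Cl (fun a b => PowerSeries.X * PowerSeries.derivative R (F a b)) := by
  intro j
  obtain ⟨Q, h1, h2⟩ := h j
  refine ⟨MvPolynomial.C (j : R) * Q, ?_, fun a b => ?_⟩
  · have h3 := MvPolynomial.totalDegree_mul (MvPolynomial.C (j : R)) Q
    rw [MvPolynomial.totalDegree_C] at h3
    omega
  · rw [map_mul, MvPolynomial.eval_C, h2]
    cases j with
    | zero => simp
    | succ j =>
      rw [PowerSeries.coeff_succ_X_mul, PowerSeries.coeff_derivative]
      push_cast
      ring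

private noncomputable def P3_F (ρ : R) {m : ℕ} (a b : Fin m → R) : PowerSeries R :=
  ((mdl ρ (Finset.univ.val.map fun i => (a i, b i)) : R[X]) : PowerSeries R)

private theorem P3_F_eq (ρ : R) {m : ℕ} (a b : Fin m → R) :
    P3_F ρ a b = PowerSeries.C (1 - ρ) * ∏ i, (1 + -(PowerSeries.C (Sum.elim a b (Sum.inl i)) * PowerSeries.X)) +
      PowerSeries.C ρ * ∏ i, (1 + -(PowerSeries.C (Sum.elim a b (Sum.inr i)) * PowerSeries.X)) := by
  unfold P3_F mdl
  rw [Multiset.map_map, Multiset.map_map]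
  simp only [Function.comp_def]
  rw [← Finset.prod_eq_multiset_prod, ← Finset.prod_eq_multiset_prod]
  rw [Polynomial.coe_add, Polynomial.coe_mul, Polynomial.coe_mul, Polynomial.coe_C,
    Polynomial.coe_C]
  rw [← Polynomial.coeToPowerSeries.ringHom_apply (φ := ∏ i, _),
    ← Polynomial.coeToPowerSeries.ringHom_apply (φ := ∏ i, _), map_prod, map_prod]
  congr 2
  · refine Finset.prod_congr rfl fun i _ => ?_
    simp [sub_eq_add_neg]
  · refine Finset.prod_congr rfl fun i _ => ?_
    simp [sub_eq_add_neg]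

private theorem P3_F_cl (ρ : R) (m : ℕ) : P3_Cl (m := m) (P3_F ρ) := by
  have e : (P3_F ρ : (Fin m → R) → (Fin m → R) → PowerSeries R) = fun a b =>
      PowerSeries.C (1 - ρ) * ∏ i, (1 + -(PowerSeries.C (Sum.elim a b (Sum.inl i)) * PowerSeries.X)) +
      PowerSeries.C ρ * ∏ i, (1 + -(PowerSeries.C (Sum.elim a b (Sum.inr i)) * PowerSeries.X)) := by
    funext a b
    exact P3_F_eq ρ a b
  rw [e]
  refine P3_add (P3_mul (P3_const _) (P3_prod Finset.univ _ fun i => ?_))
    (P3_mul (P3_const _) (P3_prod Finset.univ _ fun i => ?_))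
  · exact P3_add (P3_const _) (P3_neg (P3_var (Sum.inl i)))
  · exact P3_add (P3_const _) (P3_neg (P3_var (Sum.inr i)))

private theorem P3_F_cc (ρ : R) {m : ℕ} (a b : Fin m → R) :
    PowerSeries.constantCoeff (P3_F ρ a b) = 1 := by
  rw [P3_F_eq]
  simp only [map_add, map_mul, map_prod, map_neg, map_one, PowerSeries.constantCoeff_C,
    PowerSeries.constantCoeff_X, mul_zero, neg_zero, add_zero, Finset.prod_const_one, mul_one]
  ring

private theorem P3_lp (ρ : R) {m : ℕ} (a b : Fin m → R) (j : ℕ) :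
    PowerSeries.coeff j (lp (mdl ρ (Finset.univ.val.map fun i => (a i, b i)))) =
    PowerSeries.coeff j (-(PowerSeries.X * PowerSeries.derivative R (P3_F ρ a b)) *
      ∑ k ∈ Finset.range (j + 1), (1 + -P3_F ρ a b) ^ k) := by
  unfold lp
  have e0 : ((derivative (mdl ρ (Finset.univ.val.map fun i => (a i, b i))) : R[X]) : PowerSeries R) =
      PowerSeries.derivative R (P3_F ρ a b) := (PowerSeries.derivative_coe _).symm
  rw [e0]
  change PowerSeries.coeff j (-(PowerSeries.X * PowerSeries.derivative R (P3_F ρ a b)) *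
    PowerSeries.invOfUnit (P3_F ρ a b) 1) = _
  obtain ⟨F, hF⟩ : ∃ F, F = P3_F ρ a b := ⟨_, rfl⟩
  have hcc := P3_F_cc ρ a b
  rw [← hF] at hcc ⊢
  obtain ⟨V, hV⟩ : ∃ V, V = PowerSeries.invOfUnit F 1 := ⟨_, rfl⟩
  have hinv : F * V = 1 := by
    rw [hV]
    exact PowerSeries.mul_invOfUnit F 1 (by rw [hcc]; rfl)
  rw [← hV, ← sub_eq_add_neg]
  have hgeo : V = ∑ k ∈ Finset.range (j + 1), (1 - F) ^ k + (1 - F) ^ (j + 1) * V := by
    have h1 := mul_neg_geom_sum (1 - F) (j + 1)
    rw [sub_sub_cancel] at h1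
    have h2 : V * (F * ∑ k ∈ Finset.range (j + 1), (1 - F) ^ k) =
        V * (1 - (1 - F) ^ (j + 1)) := by rw [h1]
    have h3 : V * (F * ∑ k ∈ Finset.range (j + 1), (1 - F) ^ k) =
        ∑ k ∈ Finset.range (j + 1), (1 - F) ^ k := by
      rw [← mul_assoc, mul_comm V F, hinv, one_mul]
    rw [h3] at h2
    rw [h2]
    ring
  have hdvd : (PowerSeries.X : PowerSeries R) ^ (j + 1) ∣
      -(PowerSeries.X * PowerSeries.derivative R F) * ((1 - F) ^ (j + 1) * V) := by
    have h1 : (PowerSeries.X : PowerSeries R) ∣ 1 - F := by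
      rw [PowerSeries.X_dvd_iff, map_sub, map_one, hcc, sub_self]
    exact Dvd.dvd.mul_left (Dvd.dvd.mul_right (pow_dvd_pow_of_dvd h1 (j + 1)) V) _
  have h0 := PowerSeries.X_pow_dvd_iff.mp hdvd j (by omega)
  conv_lhs => rw [hgeo]
  rw [mul_add, map_add, h0, add_zero]

theorem pL_poly {R : Type*} [CommRing R] (ρ : R) (m j : ℕ) :
    ∃ Q : MvPolynomial (Fin m ⊕ Fin m) R, Q.totalDegree ≤ j ∧ ∀ a b : Fin m → R,
      MvPolynomial.eval (Sum.elim a b) Q = pL ρ (Finset.univ.val.map fun i => (a i, b i)) j := by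
  rcases Nat.eq_zero_or_pos j with h0 | h0
  · subst h0
    refine ⟨MvPolynomial.C (m : R), ?_, fun a b => ?_⟩
    · rw [MvPolynomial.totalDegree_C]
    · rw [MvPolynomial.eval_C]
      unfold pL
      simp
  · have h1 := P3_F_cl ρ m
    have h2 : P3_Cl (m := m) (fun a b => -(PowerSeries.X * PowerSeries.derivative R (P3_F ρ a b)) *
        ∑ k ∈ Finset.range (j + 1), (1 + -P3_F ρ a b) ^ k) :=
      P3_mul (P3_neg (P3_der h1)) (P3_sum _ (fun k a b => (1 + -P3_F ρ a b) ^ k)
        fun k => P3_pow (P3_add (P3_const _) (P3_neg h1)) k)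
    obtain ⟨Q, hQ, hQ'⟩ := h2 j
    refine ⟨Q, hQ, fun a b => ?_⟩
    rw [hQ']
    unfold pL
    rw [if_neg (by omega), P3_lp]

end Pool.Agent.LibPR30
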