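import Pool.Agent.LibPR30.Defs
import Pool.Agent.LibPR30.M1
import Pool.Agent.LibPR30.M2
import Pool.Agent.LibPR30.P1
import Pool.Agent.LibPR30.P2
import Pool.Agent.LibPR30.P3
import Pool.Agent.LibPR30.V1
import Pool.Agent.LibPR30.V2
set_option autoImplicit false

/-!
Write `L = univ.val.map (fun i => (a i, b i))`. By `T_poly` and the definition of `dj`: `dj T j = ∑_{s<n} l^s w_s`, `l = z - 1`, `w_s = ∑_k (-1)^(j+k) (j.choose k) v_(k,s)` integers, the class of `w_s` mod p is
`eval (a,b) (P' s)`, `P' s = ∑_k (-1)^(j+k) (j.choose k) P k s`, totalDegree ≤ s, and `w_0 = w` does not depend on `a, b`. Recall `Lead (p-1) p ..` (`Ctx.lead_p`).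
(1) `P' s = 0` for `s < j` by strong induction on `s`: for a non-disjoint `(a, b)` (`a i = b i'`) `hnd` gives `Lead j (dj T j)`, hence `Lead s .. 0` (`lead_lt`); on the other side the terms `t < s` are
`l^t w_t` with `p ∣ w_t`, so `Lead s .. 0` (`p - 1 ≥ R ≥ j > s`), the term `s` is `Lead s .. κ(eval P' s)`, the terms `t > s` are `Lead s .. 0`. By `lead_unique` and injectivity of κ, `eval (a,b) (P' s) = 0`. `poly_vanish` (`s ≤ R < p`, `s < m*m`).
(2) `s = j`: for every `(a,b)`: the terms `0 < t < j` are `l^t p w` : `Lead j .. 0` (t + p - 1 > j); if `j > 0`, the term `t = 0` is the constant `w_0`, `p ∣ w_0`: `Lead (p-1)`, so `Lead j .. c0` with a constant `c0 : ZMod p` (0 if j < p - 1; image under κ of an element of ZMod p);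
so `Lead j (dj T j) (κ (c0 + eval P' j))` for ALL (a,b). On the non-disjoint ones `hnd` gives `c0 + eval (P' j) = pL ρ L j`; `poly_vanish` applied to `C c0 + P' j - Q` (`pL_poly`) gives equality for all (a,b). (j = 0: P' 0 alone.)
-/

namespace Pool.Agent.LibPR30

open Polynomial Module

private lemma P4_term {V : ValuationSubring ℂ} {l : ℂ} (t : ℕ) (w : ℤ) :
    Lead V l t (l ^ t * (w : ℂ)) ((w : ℤ) : RF V) := by
  obtain ⟨v, hv, hr⟩ := lead_int (V := V) (l := l) w
  exact ⟨v, by rw [hv]; ring, hr⟩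

private lemma P4_dvd {p : ℕ} {V : ValuationSubring ℂ} {l : ℂ} {u : RF V}
    (hu : Lead V l (p - 1) (p : ℂ) u) (t : ℕ) (w : ℤ) (hw : (p : ℤ) ∣ w) :
    Lead V l (t + (p - 1)) (l ^ t * (w : ℂ)) (((w / (p : ℤ) : ℤ) : RF V) * u) := by
  have h1 := lead_mul (P4_term (V := V) (l := l) t (w / (p : ℤ))) hu
  have h2 : l ^ t * (w : ℂ) = l ^ t * ((w / (p : ℤ) : ℤ) : ℂ) * (p : ℂ) := by
    have h3 : (w : ℂ) = ((w / (p : ℤ) * (p : ℤ) : ℤ) : ℂ) := by rw [Int.ediv_mul_cancel hw]
    rw [h3]
    push_cast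
    ring
  rw [h2]
  exact h1

/-- the expansion -/
private lemma P4_sum {p n : ℕ} {V : ValuationSubring ℂ} {z : ℂ} (h : Ctx p n V z) {u : RF V}
    (hu : Lead V (z - 1) (p - 1) (p : ℂ) u) (w : ℕ → ℤ) (j : ℕ)
    (hj : j ≤ p - 1) (hd : ∀ t, t < j → (p : ℤ) ∣ w t) :
    Lead V (z - 1) j (∑ t ∈ Finset.range n, (z - 1) ^ t * (w t : ℂ))
      (((w j : ℤ) : RF V) + (if j = p - 1 ∧ 0 < j then ((w 0 / (p : ℤ) : ℤ) : RF V) * u else 0)) := by
  have hn := h.prime.two_le
  have hpn : p ≤ n := Nat.le_of_dvd h.pos h.dvd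
  have hl := h.l_nonunit
  have key := lead_sum (V := V) (l := z - 1) (Finset.range n) (j := j)
    (fun t => (z - 1) ^ t * (w t : ℂ))
    (fun t => (if t = j then ((w j : ℤ) : RF V) else 0) +
      (if t = 0 then (if j = p - 1 ∧ 0 < j then ((w 0 / (p : ℤ) : ℤ) : RF V) * u else 0) else 0)) ?_
  · rw [Finset.sum_add_distrib, Finset.sum_ite_eq', Finset.sum_ite_eq',
      if_pos (Finset.mem_range.mpr (by omega)), if_pos (Finset.mem_range.mpr (by omega))] at key
    exact key
  · intro t _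
    rcases lt_trichotomy t j with ht | ht | ht
    · have h1 := P4_dvd hu t (w t) (hd t ht)
      show Lead V (z - 1) j _ ((if t = j then ((w j : ℤ) : RF V) else 0) +
        (if t = 0 then (if j = p - 1 ∧ 0 < j then ((w 0 / (p : ℤ) : ℤ) : RF V) * u else 0) else 0))
      rw [if_neg (by omega), zero_add]
      by_cases h0 : t = 0
      · rw [if_pos h0]
        by_cases hjn : j = p - 1
        · rw [if_pos ⟨hjn, by omega⟩]
          rw [h0] at h1 ⊢
          rw [zero_add, ← hjn] at h1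
          exact h1
        · rw [if_neg (fun hh => hjn hh.1)]
          exact lead_lt hl (by omega) h1
      · rw [if_neg h0]
        exact lead_lt hl (by omega) h1
    · show Lead V (z - 1) j _ ((if t = j then ((w j : ℤ) : RF V) else 0) +
        (if t = 0 then (if j = p - 1 ∧ 0 < j then ((w 0 / (p : ℤ) : ℤ) : RF V) * u else 0) else 0))
      rw [if_pos ht]
      have h2 : (if t = 0 then (if j = p - 1 ∧ 0 < j then ((w 0 / (p : ℤ) : ℤ) : RF V) * u else 0) else 0) =
          (0 : RF V) := by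
        by_cases h0 : t = 0
        · rw [if_pos h0, if_neg (by omega)]
        · rw [if_neg h0]
      rw [h2, add_zero, ht]
      exact P4_term j (w j)
    · show Lead V (z - 1) j _ ((if t = j then ((w j : ℤ) : RF V) else 0) +
        (if t = 0 then (if j = p - 1 ∧ 0 < j then ((w 0 / (p : ℤ) : ℤ) : RF V) * u else 0) else 0))
      rw [if_neg (by omega), if_neg (by omega), add_zero]
      exact lead_lt hl ht (P4_term t (w t))

theorem mdl_map {R S : Type*} [CommRing R] [CommRing S] (π : R →+* S) (ρ : R)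
    (L : Multiset (R × R)) :
    (mdl ρ L).map π = mdl (π ρ) (L.map fun q => (π q.1, π q.2)) := by
  unfold mdl
  rw [Polynomial.map_add, Polynomial.map_mul, Polynomial.map_mul, map_C, map_C, map_sub, map_one,
    ← coe_mapRingHom, map_multiset_prod, map_multiset_prod, Multiset.map_map, Multiset.map_map,
    Multiset.map_map, Multiset.map_map]
  simp only [Function.comp_def, coe_mapRingHom, Polynomial.map_sub, Polynomial.map_one,
    Polynomial.map_mul, map_C, map_X]

theorem pL_map {R S : Type*} [CommRing R] [CommRing S] (π : R →+* S) (ρ : R)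
    (L : Multiset (R × R)) (j : ℕ) :
    π (pL ρ L j) = pL (π ρ) (L.map fun q => (π q.1, π q.2)) j := by
  unfold pL
  rw [Multiset.card_map]
  split_ifs with hj
  · exact map_natCast π _
  · rw [← mdl_map, ← lp_map π (mdl ρ L) (mdl_coeff_zero ρ L), PowerSeries.coeff_map]

variable {F : Type} [Field F] [Finite F] {p n : ℕ} {V : ValuationSubring ℂ} {z : ℂ}
  (h : Ctx p n V z) (ι : ZMod n →+* RF V) (𝓔 : Tow F) (χ : MulChar F ℂ) (c : Fˣ)
  (hχ : orderOf χ = n) (hz : χ (c : F) = z)
include h hχ hz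

theorem lead_of_poly (ρ : ZMod n) (m : ℕ) (hm : 0 < m) (R : ℕ) (hR : R < p) (hRm : R < m * m)
    (hnd : ∀ L : Multiset (ZMod n × ZMod n), Multiset.card L = m →
      (∃ p ∈ L, ∃ q ∈ L, p.1 = q.2) → ∀ j, j ≤ R →
        Lead V (z - 1) j (dj (T 𝓔 χ c L) j) (ι (pL ρ L j)))
    (L : Multiset (ZMod n × ZMod n)) (hL : Multiset.card L = m) (j : ℕ) (hj : j ≤ R) :
    Lead V (z - 1) j (dj (T 𝓔 χ c L) j) (ι (pL ρ L j)) := by
  have hF : Fact p.Prime := ⟨h.prime⟩
  have hn := h.prime.two_le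
  have hpn : p ≤ n := Nat.le_of_dvd h.pos h.dvd
  have hl := h.l_nonunit
  have hl0 := h.l_ne
  have hch := h.charP
  obtain ⟨κ⟩ : Nonempty (ZMod p →+* RF V) := ⟨ZMod.castHom (dvd_refl p) (RF V)⟩
  have hinj : Function.Injective κ := κ.injective
  obtain ⟨u, hu⟩ := h.lead_p
  obtain ⟨P, v0, hdeg, hP⟩ := T_poly h 𝓔 χ c hχ hz m hm
  obtain ⟨π, hπ⟩ : ∃ π : ZMod n →+* ZMod p, π = ZMod.castHom h.dvd (ZMod p) := ⟨_, rfl⟩
  rw [← hπ] at hP
  have hικ : ι = κ.comp π := RingHom.ext_zmod _ _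
  obtain ⟨σ, hσ⟩ : ∃ σ : ZMod p → ZMod n, ∀ x, π (σ x) = x := by
    refine ⟨fun x => ((x.val : ℕ) : ZMod n), fun x => ?_⟩
    rw [map_natCast, ZMod.natCast_zmod_val]
  choose v hv0 hv hvT using hP
  -- the combined coefficients
  let w : (Fin m → ZMod n) → (Fin m → ZMod n) → ℕ → ℤ := fun a b s =>
    ∑ k ∈ Finset.range (j + 1), (-1) ^ (j + k) * (j.choose k : ℤ) * v a b k s
  let P' : ℕ → MvPolynomial (Fin m ⊕ Fin m) (ZMod p) := fun s =>
    ∑ k ∈ Finset.range (j + 1), MvPolynomial.C ((-1) ^ (j + k) * (j.choose k : ZMod p)) * P k s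
  let W0 : ℤ := ∑ k ∈ Finset.range (j + 1), (-1) ^ (j + k) * (j.choose k : ℤ) * v0 k
  have hw0 : ∀ a b, w a b 0 = W0 := by
    intro a b
    show ∑ k ∈ Finset.range (j + 1), _ = ∑ k ∈ Finset.range (j + 1), _
    exact Finset.sum_congr rfl fun k _ => by rw [hv0]
  have hwP : ∀ a b s, s < p → ((w a b s : ℤ) : ZMod p) = MvPolynomial.eval
      (Sum.elim (fun i => π (a i)) (fun i => π (b i))) (P' s) := by
    intro a b s hs
    show (((∑ k ∈ Finset.range (j + 1), (-1) ^ (j + k) * (j.choose k : ℤ) * v a b k s : ℤ)) : ZMod p) =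
      MvPolynomial.eval (Sum.elim (fun i => π (a i)) (fun i => π (b i)))
        (∑ k ∈ Finset.range (j + 1), MvPolynomial.C ((-1) ^ (j + k) * (j.choose k : ZMod p)) * P k s)
    rw [map_sum]
    push_cast
    refine Finset.sum_congr rfl fun k _ => ?_
    rw [map_mul, MvPolynomial.eval_C, hv a b k s hs]
  have hdegP : ∀ s, (P' s).totalDegree ≤ s := by
    intro s
    refine MvPolynomial.totalDegree_finsetSum_le fun k _ => ?_
    refine (MvPolynomial.totalDegree_mul _ _).trans ?_
    rw [MvPolynomial.totalDegree_C, zero_add]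
    exact hdeg k s
  have hdj : ∀ a b : Fin m → ZMod n, dj (T 𝓔 χ c (Finset.univ.val.map fun i => (a i, b i))) j =
      ∑ t ∈ Finset.range n, (z - 1) ^ t * (w a b t : ℂ) := by
    intro a b
    unfold dj
    have e1 : ∀ k ∈ Finset.range (j + 1), (-1 : ℂ) ^ (j + k) * (j.choose k : ℂ) *
        T 𝓔 χ c (Finset.univ.val.map fun i => (a i, b i)) k =
        ∑ t ∈ Finset.range n, (z - 1) ^ t * ((-1 : ℂ) ^ (j + k) * (j.choose k : ℂ) * (v a b k t : ℂ)) := by
      intro k _
      rw [hvT a b k, Finset.mul_sum]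
      exact Finset.sum_congr rfl fun t _ => by ring
    rw [Finset.sum_congr rfl e1, Finset.sum_comm]
    refine Finset.sum_congr rfl fun t _ => ?_
    rw [← Finset.mul_sum]
    congr 1
    show _ = (((∑ k ∈ Finset.range (j + 1), (-1) ^ (j + k) * (j.choose k : ℤ) * v a b k t : ℤ)) : ℂ)
    push_cast
    rfl
  have hpl : ∀ a b : Fin m → ZMod n, ι (pL ρ (Finset.univ.val.map fun i => (a i, b i)) j) =
      κ (pL (π ρ) (Finset.univ.val.map fun i => (π (a i), π (b i))) j) := by
    intro a b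
    rw [hικ, RingHom.comp_apply, pL_map, Multiset.map_map]
    rfl
  have hnd' : ∀ a b : Fin m → ZMod n, (∃ i i', a i = b i') →
      Lead V (z - 1) j (dj (T 𝓔 χ c (Finset.univ.val.map fun i => (a i, b i))) j)
        (κ (pL (π ρ) (Finset.univ.val.map fun i => (π (a i), π (b i))) j)) := by
    rintro a b ⟨i, i', hii⟩
    rw [← hpl]
    refine hnd _ (by simp) ⟨(a i, b i), ?_, (a i', b i'), ?_, hii⟩ j hj
    · exact Multiset.mem_map_of_mem _ (Finset.mem_univ i)
    · exact Multiset.mem_map_of_mem _ (Finset.mem_univ i')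
  have hιw : ∀ w' : ℤ, κ ((w' : ℤ) : ZMod p) = ((w' : ℤ) : RF V) := fun w' => map_intCast κ w'
  have hdvd : ∀ s, s < p → P' s = 0 → ∀ a b, (p : ℤ) ∣ w a b s := by
    intro s hs h0 a b
    rw [← ZMod.intCast_zmod_eq_zero_iff_dvd, hwP a b s hs, h0, map_zero]
  have hu' := hu κ
  -- step (1)
  have step1 : ∀ s, s < j → P' s = 0 := by
    intro s
    induction s using Nat.strong_induction_on with
    | _ s ih =>
      intro hs
      refine poly_vanish h.prime m (P' s) ((hdegP s).trans_lt (by omega)) ((hdegP s).trans_lt (by omega)) ?_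
      intro a b hab
      have h0 : ∃ i i', σ (a i) = σ (b i') := by
        obtain ⟨i, i', hii⟩ := hab
        exact ⟨i, i', congrArg σ hii⟩
      have h1 := lead_lt hl hs (hnd' (fun i => σ (a i)) (fun i => σ (b i)) h0)
      have h2 := P4_sum h hu' (w (fun i => σ (a i)) (fun i => σ (b i))) s (by omega)
        (fun t ht => hdvd t (by omega) (ih t ht (by omega)) _ _)
      rw [if_neg (by omega), add_zero, ← hdj] at h2
      have h3 := lead_unique hl0 h2 h1
      rw [← hιw, hwP _ _ s (by omega)] at h3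
      simp only [hσ] at h3
      exact hinj (h3.trans (map_zero κ).symm)
  -- step (2)
  let c0 : ZMod p := if j = p - 1 ∧ 0 < j then ((W0 / (p : ℤ) : ℤ) : ZMod p) * u else 0
  have hc0 : κ c0 = (if j = p - 1 ∧ 0 < j then ((W0 / (p : ℤ) : ℤ) : RF V) * κ u else 0) := by
    show κ (if j = p - 1 ∧ 0 < j then ((W0 / (p : ℤ) : ℤ) : ZMod p) * u else 0) = _
    split_ifs
    · rw [map_mul, hιw]
    · rw [map_zero]
  have step2 : ∀ a b : Fin m → ZMod n, Lead V (z - 1) j (dj (T 𝓔 χ c (Finset.univ.val.map fun i => (a i, b i))) j)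
      (κ (c0 + MvPolynomial.eval (Sum.elim (fun i => π (a i)) (fun i => π (b i))) (P' j))) := by
    intro a b
    have h2 := P4_sum h hu' (w a b) j (by omega)
      (fun t ht => hdvd t (by omega) (step1 t ht) a b)
    rw [← hdj a b, hw0 a b, ← hc0, ← hιw, hwP a b j (by omega), ← map_add, add_comm] at h2
    exact h2
  obtain ⟨Q, hQ1, hQ2⟩ := pL_poly (π ρ) m j
  have hzero : MvPolynomial.C c0 + P' j - Q = 0 := by
    have hd : (MvPolynomial.C c0 + P' j - Q).totalDegree ≤ j := by
      refine (MvPolynomial.totalDegree_sub _ _).trans (max_le ?_ hQ1)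
      refine (MvPolynomial.totalDegree_add _ _).trans (max_le ?_ (hdegP j))
      rw [MvPolynomial.totalDegree_C]
      exact Nat.zero_le _
    refine poly_vanish h.prime m _ (hd.trans_lt (by omega)) (hd.trans_lt (by omega)) ?_
    intro a b hab
    have h0 : ∃ i i', σ (a i) = σ (b i') := by
      obtain ⟨i, i', hii⟩ := hab
      exact ⟨i, i', congrArg σ hii⟩
    have h3 := hinj (lead_unique hl0 (step2 (fun i => σ (a i)) (fun i => σ (b i)))
      (hnd' (fun i => σ (a i)) (fun i => σ (b i)) h0))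
    simp only [hσ] at h3
    rw [map_sub, map_add, MvPolynomial.eval_C, h3, hQ2 a b, sub_self]
  -- the general list
  obtain ⟨f, hf⟩ : ∃ f : Fin m → ZMod n × ZMod n, L = Finset.univ.val.map f := by
    induction L using Quotient.inductionOn with
    | _ l =>
      have hl' : l.length = m := hL
      subst hl'
      exact ⟨l.get, by rw [Fin.univ_val_map, List.ofFn_get]; rfl⟩
  have hf' : L = Finset.univ.val.map fun i => ((f i).1, (f i).2) := hf
  have h5 := step2 (fun i => (f i).1) (fun i => (f i).2)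
  have h6 := congrArg (MvPolynomial.eval (Sum.elim (fun i => π (f i).1) (fun i => π (f i).2))) hzero
  rw [map_sub, map_add, MvPolynomial.eval_C, map_zero, sub_eq_zero,
    hQ2 (fun i => π (f i).1) (fun i => π (f i).2)] at h6
  rw [h6, ← hpl (fun i => (f i).1) (fun i => (f i).2), ← hf'] at h5
  exact h5

end Pool.Agent.LibPR30
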