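import Pool.Agent.LibPR30.Defs
set_option autoImplicit false

/-!
`T'' k = ∑_{i ≤ k} (k.choose i) δ_i` with `δ_i = dj T' i` for `i ≤ R`, `0` for `i > R`; `p' = p` for `j ≤ R`, 0 else. Binomial inversion: `dj T'' j = δ_j` for all j and `T'' k = T' k` for `k ≤ R`.
-/

namespace Pool.Agent.LibPR30

open Polynomial Module

variable {V : ValuationSubring ℂ} {l : ℂ}

private theorem P5_sgn (j k : ℕ) (hk : k ≤ j) : ((-1 : ℂ)) ^ (j + k) = (-1) ^ (j - k) := by
  obtain ⟨m, rfl⟩ := Nat.exists_eq_add_of_le hk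
  have e1 : k + m + k = 2 * k + m := by ring
  have e2 : k + m - k = m := by omega
  rw [e1, e2, pow_add, pow_mul]
  simp

private theorem P5_fwd (T : ℕ → ℂ) (j : ℕ) : dj T j = (fwdDiff 1)^[j] T 0 := by
  rw [fwdDiff_iter_eq_sum_shift]
  unfold dj
  refine Finset.sum_congr rfl fun k hk => ?_
  have hk' : k ≤ j := Nat.lt_succ_iff.mp (Finset.mem_range.mp hk)
  rw [P5_sgn j k hk', zsmul_eq_mul]
  push_cast
  simp

private theorem P5_inv (T : ℕ → ℂ) (k : ℕ) :
    T k = ∑ i ∈ Finset.range (k + 1), (k.choose i : ℂ) * dj T i := by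
  have h := shift_eq_sum_fwdDiff_iter (h := 1) T k 0
  rw [zero_add, nsmul_eq_mul, mul_one, Nat.cast_id] at h
  rw [h]
  refine Finset.sum_congr rfl fun i _ => ?_
  rw [P5_fwd, nsmul_eq_mul]

private theorem P5_choose (i j : ℕ) :
    (∑ k ∈ Finset.range (j + 1), (-1 : ℂ) ^ (j + k) * (j.choose k : ℂ) * (k.choose i : ℂ)) =
      if j = i then 1 else 0 := by
  have h := fwdDiff_iter_choose_zero i j
  rw [fwdDiff_iter_eq_sum_shift] at h
  have h2 := congrArg (fun z : ℤ => (z : ℂ)) h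
  push_cast at h2
  rw [← h2]
  refine Finset.sum_congr rfl fun k hk => ?_
  have hk' : k ≤ j := Nat.lt_succ_iff.mp (Finset.mem_range.mp hk)
  rw [P5_sgn j k hk']
  simp

private theorem P5_dj (δ : ℕ → ℂ) (j : ℕ) :
    dj (fun k => ∑ i ∈ Finset.range (k + 1), (k.choose i : ℂ) * δ i) j = δ j := by
  have h1 : ∀ k ∈ Finset.range (j + 1),
      (-1 : ℂ) ^ (j + k) * (j.choose k : ℂ) *
        (∑ i ∈ Finset.range (k + 1), (k.choose i : ℂ) * δ i) =
      ∑ i ∈ Finset.range (j + 1),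
        ((-1 : ℂ) ^ (j + k) * (j.choose k : ℂ) * (k.choose i : ℂ)) * δ i := by
    intro k hk
    have hk' : k ≤ j := Nat.lt_succ_iff.mp (Finset.mem_range.mp hk)
    have hsub : Finset.range (k + 1) ⊆ Finset.range (j + 1) := by
      intro x hx
      rw [Finset.mem_range] at hx ⊢
      omega
    rw [Finset.sum_subset hsub (f := fun i => (k.choose i : ℂ) * δ i), Finset.mul_sum]
    · refine Finset.sum_congr rfl fun i _ => ?_
      ring
    · intro x _ hx
      rw [Finset.mem_range] at hx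
      rw [Nat.choose_eq_zero_of_lt (by omega), Nat.cast_zero, zero_mul]
  unfold dj
  rw [Finset.sum_congr rfl h1, Finset.sum_comm]
  have h2 : ∀ i ∈ Finset.range (j + 1),
      (∑ k ∈ Finset.range (j + 1),
        ((-1 : ℂ) ^ (j + k) * (j.choose k : ℂ) * (k.choose i : ℂ)) * δ i) =
      if j = i then δ i else 0 := by
    intro i _
    rw [← Finset.sum_mul, P5_choose]
    split_ifs <;> simp
  rw [Finset.sum_congr rfl h2, Finset.sum_ite_eq]
  simp

theorem dj_congr (T' T'' : ℕ → ℂ) (j : ℕ) (h : ∀ k, k ≤ j → T'' k = T' k) : dj T'' j = dj T' j := by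
  unfold dj
  refine Finset.sum_congr rfl fun k hk => ?_
  rw [h k (Nat.lt_succ_iff.mp (Finset.mem_range.mp hk))]

theorem exists_good (T' : ℕ → ℂ) (p : ℕ → RF V) (R : ℕ)
    (h : ∀ j, j ≤ R → Lead V l j (dj T' j) (p j)) :
    ∃ (T'' : ℕ → ℂ) (p' : ℕ → RF V), (∀ k, k ≤ R → T'' k = T' k) ∧ (∀ j, j ≤ R → p' j = p j) ∧
      Good V l T'' p' := by
  classical
  refine ⟨fun k => ∑ i ∈ Finset.range (k + 1), (k.choose i : ℂ) * (if i ≤ R then dj T' i else 0),
    fun j => if j ≤ R then p j else 0, ?_, ?_, ?_⟩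
  · intro k hk
    rw [P5_inv T' k]
    refine Finset.sum_congr rfl fun i hi => ?_
    have hi' : i ≤ k := Nat.lt_succ_iff.mp (Finset.mem_range.mp hi)
    rw [if_pos (hi'.trans hk)]
  · intro j hj
    exact if_pos hj
  · intro j
    rw [P5_dj]
    change Lead V l j (if j ≤ R then dj T' j else 0) (if j ≤ R then p j else 0)
    by_cases hj : j ≤ R
    · rw [if_pos hj, if_pos hj]
      exact h j hj
    · rw [if_neg hj, if_neg hj]
      exact ⟨0, by simp, map_zero _⟩

end Pool.Agent.LibPR30
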