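import Pool.Agent.LibPR30.Defs
import Pool.Agent.LibPR30.K5
import Pool.Agent.LibPR30.K6
import Pool.Agent.LibPR30.K7
import Pool.Agent.LibPR30.M2
import Pool.Agent.LibPR30.N1
import Pool.Agent.LibPR30.N2
import Pool.Agent.LibPR30.P4
import Pool.Agent.LibPR30.P5
import Pool.Agent.LibPR30.V1
import Pool.Agent.LibPR30.V2
set_option autoImplicit false

namespace Pool.Agent.LibPR30

open Polynomial Module

theorem good_zero' {V : ValuationSubring ℂ} {l : ℂ} : Good V l (fun _ => 0) (fun _ => 0) := by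
  intro j
  have h1 : dj (fun _ => (0 : ℂ)) j = 0 := by simp [dj]
  rw [h1]
  exact lead_zero j

variable {F : Type} [Field F] [Finite F] {l n : ℕ} {V : ValuationSubring ℂ} {z : ℂ}
  (h : Ctx l n V z) (ι : ZMod n →+* RF V) (𝓔 : Tow F) (χ : MulChar F ℂ) (c : Fˣ)
  (hχ : orderOf χ = n) (hz : χ (c : F) = z)
include h

theorem good_third' (hq : (l : ℤ) ∣ (Nat.card F : ℤ) - 1) {T' : ℕ → ℂ} {p : ℕ → RF V}
    (hT : Good V (z - 1) T' p) :
    Good V (z - 1) (fun k => ((Nat.card F : ℂ) ^ k - 1) * T' k) (fun _ => 0) := by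
  obtain ⟨v, hv⟩ := h.sq_of_dvd _ hq
  have hv' : (Nat.card F : ℂ) - 1 = (z - 1) ^ 2 * (v : ℂ) := by
    rw [← hv]; push_cast; ring
  have h1 := good_pow_mul h.l_nonunit hT v hv'
  have h2 := good_add h1 (good_int_mul (-1) hT)
  have h3 : (fun k => (Nat.card F : ℂ) ^ k * T' k + ((-1 : ℤ) : ℂ) * T' k) =
      fun k => ((Nat.card F : ℂ) ^ k - 1) * T' k := by
    funext k
    push_cast
    ring
  have h4 : (fun j => p j + ((-1 : ℤ) : RF V) * p j) = fun _ => 0 := by
    funext j
    push_cast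
    ring
  rw [h3, h4] at h2
  exact h2

include hz

theorem card_sub_dvd' : (l : ℤ) ∣ (Nat.card F : ℤ) - 1 := by
  have := Fintype.ofFinite F
  classical
  have h1 : orderOf z = n := h.prim.eq_orderOf.symm
  have h2 : z ^ (Nat.card F - 1) = 1 := by
    rw [← hz, ← map_pow]
    have h3 : (c : F) ^ (Nat.card F - 1) = 1 := by
      rw [Nat.card_eq_fintype_card]
      exact FiniteField.pow_card_sub_one_eq_one _ c.ne_zero
    rw [h3, MulChar.map_one]
  have h4 : n ∣ Nat.card F - 1 := by
    rw [← h1]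
    exact orderOf_dvd_of_pow_eq_one h2
  have h5 : 1 ≤ Nat.card F := Nat.card_pos
  obtain ⟨m, hm⟩ := h.dvd.trans h4
  refine ⟨m, ?_⟩
  have : Nat.card F = l * m + 1 := by omega
  rw [this]
  push_cast
  ring

include hχ

theorem lead_nd (ρ : ZMod n) (R m : ℕ) (hlow : ∀ L : Multiset (ZMod n × ZMod n),
      Multiset.card L < m → ∀ j, j ≤ R → Lead V (z - 1) j (dj (T 𝓔 χ c L) j) (ι (pL ρ L j)))
    (L : Multiset (ZMod n × ZMod n)) (hL : Multiset.card L = m)
    (hnd : ∃ p ∈ L, ∃ q ∈ L, p.1 = q.2) (j : ℕ) (hj : j ≤ R) :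
    Lead V (z - 1) j (dj (T 𝓔 χ c L) j) (ι (pL ρ L j)) := by
  obtain ⟨p, hp, q, hq, hpq⟩ := hnd
  have hn := h.one_lt
  have hn2 := h.odd
  by_cases he : p = q
  · subst he
    obtain ⟨L', rfl⟩ := Multiset.exists_cons_of_mem hp
    obtain ⟨b, b'⟩ := p
    simp only at hpq
    subst hpq
    obtain ⟨T'', p', hT'', hp', hG⟩ := exists_good (V := V) (l := z - 1) (T 𝓔 χ c L')
      (fun j => ι (pL ρ L' j)) R (hlow L' (by rw [← hL, Multiset.card_cons]; omega))
    have hG2 := good_add hG (good_U 𝓔 χ c hn hn2 hχ h ι hz b L') j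
    have h1 : dj (T 𝓔 χ c ((b, b) ::ₘ L')) j = dj (fun k => T'' k + U 𝓔 χ c b L' k) j := by
      refine dj_congr _ _ j fun k hk => ?_
      rw [T_diag 𝓔 χ c hn hn2 hχ b L' k]
      change _ = T'' k + U 𝓔 χ c b L' k
      rw [hT'' k (by omega)]
    rw [h1]
    have h2 : ι (pL ρ ((b, b) ::ₘ L') j) = p' j + ι b ^ j := by
      rw [pL_diag, map_add, map_pow, hp' j hj]
    rw [h2]
    exact hG2
  · obtain ⟨L1, rfl⟩ := Multiset.exists_cons_of_mem hq
    have hp1 : p ∈ L1 := by
      rcases Multiset.mem_cons.1 hp with h1 | h1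
      · exact absurd h1 he
      · exact h1
    obtain ⟨L2, rfl⟩ := Multiset.exists_cons_of_mem hp1
    obtain ⟨a, b⟩ := q
    obtain ⟨b', d⟩ := p
    simp only at hpq
    subst hpq
    rw [Multiset.card_cons, Multiset.card_cons] at hL
    obtain ⟨T1, p1, hT1, hp1', hG1⟩ := exists_good (V := V) (l := z - 1) (T 𝓔 χ c ((a, d) ::ₘ L2))
      (fun j => ι (pL ρ ((a, d) ::ₘ L2) j)) R (hlow _ (by rw [Multiset.card_cons]; omega))
    obtain ⟨T2, p2, hT2, hp2', hG2⟩ := exists_good (V := V) (l := z - 1) (T 𝓔 χ c L2)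
      (fun j => ι (pL ρ L2 j)) R (hlow _ (by omega))
    have hthird : Good V (z - 1) (fun k => if a = d then ((Nat.card F : ℂ) ^ k - 1) * T2 k else 0)
        (fun _ => 0) := by
      by_cases had : a = d
      · simp only [if_pos had]
        exact good_third' h (card_sub_dvd' h χ c hz) hG2
      · simp only [if_neg had]
        exact good_zero'
    have hG3 := good_add (good_add (good_W 𝓔 χ hn hn2 hχ h (b' - a) (d - b') hG1)
      (good_U 𝓔 χ c hn hn2 hχ h ι hz b' L2)) hthird j
    have h1 : dj (T 𝓔 χ c ((a, b') ::ₘ (b', d) ::ₘ L2)) j = dj (fun k =>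
        (W 𝓔 χ (b' - a) (d - b') k * T1 k + U 𝓔 χ c b' L2 k) +
          (if a = d then ((Nat.card F : ℂ) ^ k - 1) * T2 k else 0)) j := by
      refine dj_congr _ _ j fun k hk => ?_
      rw [T_chain 𝓔 χ c hn hn2 hχ a b' d L2 k]
      change _ = (W 𝓔 χ (b' - a) (d - b') k * T1 k + U 𝓔 χ c b' L2 k) +
          (if a = d then ((Nat.card F : ℂ) ^ k - 1) * T2 k else 0)
      rw [hT1 k (by omega), hT2 k (by omega)]
    rw [h1]
    have h2 : ι (pL ρ ((a, b') ::ₘ (b', d) ::ₘ L2) j) = (p1 j + ι b' ^ j) + 0 := by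
      rw [pL_chain, map_add, map_pow, add_zero, hp1' j hj]
    rw [h2]
    exact hG3

theorem lead_T (hc1 : (c : F) ≠ 1) (ρ : ZMod n) (hρ : χ (1 - (c : F)) = z ^ ρ.val) (R : ℕ)
    (hR : R < l) (hrat : ∀ L : Multiset (ZMod n × ZMod n), 3 ≤ Multiset.card L →
      Multiset.card L * Multiset.card L ≤ R → (∀ p ∈ L, ∀ q ∈ L, p.1 ≠ q.2) →
      ∃ ω : Fin (Multiset.card L) → ℂ, ∀ k, 0 < k → T 𝓔 χ c L k = ∑ i, ω i ^ k)
    (L : Multiset (ZMod n × ZMod n)) (j : ℕ) (hj : j ≤ R) :
    Lead V (z - 1) j (dj (T 𝓔 χ c L) j) (ι (pL ρ L j)) := by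
  have hn := h.one_lt
  have hn2 := h.odd
  induction' hr : Multiset.card L using Nat.strong_induction_on with r IH generalizing L j
  have hlow : ∀ L' : Multiset (ZMod n × ZMod n), Multiset.card L' < r → ∀ j, j ≤ R →
      Lead V (z - 1) j (dj (T 𝓔 χ c L') j) (ι (pL ρ L' j)) := by
    intro L' hL' j hj
    exact IH _ hL' L' j hj rfl
  have hndall : ∀ L' : Multiset (ZMod n × ZMod n), Multiset.card L' = r →
      (∃ p ∈ L', ∃ q ∈ L', p.1 = q.2) → ∀ j, j ≤ R →
        Lead V (z - 1) j (dj (T 𝓔 χ c L') j) (ι (pL ρ L' j)) := by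
    intro L' hL' hnd' j hj
    exact lead_nd h ι 𝓔 χ c hχ hz ρ R r hlow L' hL' hnd' j hj
  by_cases hnd : ∃ p ∈ L, ∃ q ∈ L, p.1 = q.2
  · exact hndall L hr hnd j hj
  push Not at hnd
  rcases Nat.lt_or_ge r 2 with hr2 | hr2
  · interval_cases r
    · -- rank zero
      rw [Multiset.card_eq_zero] at hr
      subst hr
      have h1 : T 𝓔 χ c (0 : Multiset (ZMod n × ZMod n)) = fun _ => 0 := by
        funext k
        unfold T
        split_ifs with hk
        · simp
        · have h2 : (Units.map (algebraMap F (𝓔.E k) : F →* 𝓔.E k) c) ≠ 1 := by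
            intro h3
            apply hc1
            have h4 := congrArg (fun u : (𝓔.E k)ˣ => (u : 𝓔.E k)) h3
            simp only [Units.coe_map, Units.val_one] at h4
            apply (algebraMap F (𝓔.E k)).injective
            rw [map_one]
            exact h4
          simp only [gel, Multiset.map_zero, Multiset.prod_zero, Multiset.card_zero, pow_zero]
          rw [MonoidAlgebra.one_def]
          simp [MonoidAlgebra.coeff_single, h2.symm]
      rw [h1, pL_zero, map_zero]
      exact good_zero' j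
    · -- rank one
      obtain ⟨⟨a, b⟩, rfl⟩ := Multiset.card_eq_one.1 hr
      have h1 : T 𝓔 χ c {(a, b)} = fun k =>
          ((χ ^ a.val) (c : F) * (χ ^ (b - a).val) (1 - (c : F))) ^ k := by
        funext k
        exact T_single 𝓔 χ c hn hn2 hχ a b k
      rw [h1, pL_single, map_pow]
      refine good_pow ?_ j
      have h3 : (χ ^ a.val) (c : F) * (χ ^ (b - a).val) (1 - (c : F)) =
          z ^ ((1 - ρ) * a + ρ * b).val := by
        have hc2 : IsUnit (1 - (c : F)) := by
          rw [isUnit_iff_ne_zero]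
          exact sub_ne_zero.2 hc1.symm
        have h4 : ((χ ^ a.val) (c : F)) = z ^ a.val := by
          rw [← hz]
          exact MulChar.pow_apply_coe χ a.val c
        have h5 : ((χ ^ (b - a).val) (1 - (c : F))) = (z ^ ρ.val) ^ (b - a).val := by
          rw [← hρ]
          obtain ⟨u, hu⟩ := hc2
          rw [← hu]
          exact MulChar.pow_apply_coe χ _ u
        rw [h4, h5, ← pow_mul, ← pow_add]
        have : NeZero n := ⟨h.ne_zero⟩
        have h6 : (((a.val + ρ.val * (b - a).val : ℕ) : ZMod n)) =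
            ((((1 - ρ) * a + ρ * b).val : ℕ) : ZMod n) := by
          push_cast
          simp only [ZMod.natCast_val, ZMod.cast_id', id_eq]
          ring
        rw [ZMod.natCast_eq_natCast_iff] at h6
        exact pow_eq_pow_of_modEq h6 h.prim.pow_eq_one
      rw [h3]
      exact h.lead_z ι _
  · -- rank at least two
    rcases Nat.lt_or_ge R (r * r) with hRr | hRr
    · exact lead_of_poly h ι 𝓔 χ c hχ hz ρ r (by omega) R hR hRr hndall L hr j hj
    · have hrR : r ≤ R := le_trans (Nat.le_mul_self r) hRr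
      have hrr : r < r * r := by nlinarith
      have hlead := lead_of_poly h ι 𝓔 χ c hχ hz ρ r (by omega) r (by omega) hrr
        (fun L' hL' hnd' j hj => hndall L' hL' hnd' j (by omega)) L hr
      obtain ⟨ω, hω⟩ : ∃ ω : Fin (Multiset.card L) → ℂ, ∀ k, 0 < k →
          T 𝓔 χ c L k = ∑ i, ω i ^ k := by
        rcases Nat.lt_or_ge r 3 with hr3 | hr3
        · have hr' : r = 2 := by omega
          obtain ⟨ω, hω⟩ := rat_two 𝓔 χ c hn hn2 hχ hc1 L (by omega) hnd
          have key : ∀ (m : ℕ) (hm : m = 2), ∃ ω' : Fin m → ℂ, ∀ k, 0 < k →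
              T 𝓔 χ c L k = ∑ i, ω' i ^ k := by
            intro m hm
            subst hm
            exact ⟨ω, hω⟩
          exact key _ (by omega)
        · exact hrat L (by omega) (by rw [hr]; exact hRr) hnd
      have hT : T 𝓔 χ c L = fun k => ∑ i, ω i ^ k := by
        funext k
        rcases Nat.eq_zero_or_pos k with rfl | hk
        · simp [T]
        · exact hω k hk
      obtain ⟨g, hg1, hg2⟩ := newton_res h ι (Multiset.card L) (by omega) ω (mdl ρ L)
        (mdl_coeff_zero ρ L) (natDegree_mdl_le ρ L) (by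
          intro j hj hjr
          have h1 := hlead j (by omega)
          rw [hT] at h1
          have h2 : pL ρ L j = PowerSeries.coeff j (lp (mdl ρ L)) := by
            rw [pL, if_neg (by omega)]
          rw [h2] at h1
          exact h1)
      rcases Nat.eq_zero_or_pos j with rfl | hj
      · exact hlead 0 (by omega)
      · have h1 := good_of_newton h ι (Multiset.card L) ω (mdl ρ L) (mdl_coeff_zero ρ L) g hg1 hg2
          j hj
        have h2 : pL ρ L j = PowerSeries.coeff j (lp (mdl ρ L)) := by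
          rw [pL, if_neg (by omega)]
        rw [hT]
        rw [h2]
        exact h1

end Pool.Agent.LibPR30
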