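import Pool.Agent.LibPR30.Defs
import Pool.Agent.LibPR30.A4
import Pool.Agent.LibPR30.G2
import Pool.Agent.LibPR30.K3
import Pool.Agent.LibPR30.K4
import Pool.Agent.LibPR30.M2
import Pool.Agent.LibPR30.N1
import Pool.Agent.LibPR30.N2
import Pool.Agent.LibDE40.M1
import Pool.Agent.LibTS.Place
set_option autoImplicit false

namespace Pool.Agent.LibPR30

open Polynomial Module

theorem univ_map_get {α : Type*} (l : List α) (m : ℕ) (hm : l.length = m) :
    (Finset.univ.val.map fun i : Fin m => l.get (i.cast hm.symm)) = (l : Multiset α) := by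
  subst hm
  rw [Fin.univ_val_map]
  exact congrArg _ (List.ofFn_get l)

theorem exists_eig {r : ℕ} (A : Matrix (Fin r) (Fin r) ℂ) : ∃ ω : Fin r → ℂ,
    A.charpoly = ∏ i, (X - C (ω i)) ∧ ∀ k : ℕ, (A ^ k).trace = ∑ i, ω i ^ k := by
  have hs : A.charpoly.Splits := IsAlgClosed.splits _
  have hcard : Multiset.card A.charpoly.roots = r := by
    rw [← hs.natDegree_eq_card_roots, Matrix.charpoly_natDegree_eq_dim, Fintype.card_fin]
  set l := A.charpoly.roots.toList with hl
  have hlen : l.length = r := by rw [hl, Multiset.length_toList, hcard]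
  let ω : Fin r → ℂ := fun i => l.get (i.cast hlen.symm)
  have hω : Finset.univ.val.map ω = A.charpoly.roots := by
    have h1 : A.charpoly.roots = (l : Multiset ℂ) := (Multiset.coe_toList _).symm
    rw [h1]
    exact univ_map_get l r hlen
  refine ⟨ω, ?_, ?_⟩
  · have h1 := hs.eq_prod_roots_of_monic (Matrix.charpoly_monic A)
    rw [h1, ← hω, Multiset.map_map]
    rfl
  · intro k
    rw [DE40.trace_pow_eq, ← hω, Multiset.map_map]
    rfl

theorem nodup_of_injective {r : ℕ} (A : Matrix (Fin r) (Fin r) ℂ) (ω : Fin r → ℂ)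
    (h : A.charpoly = ∏ i, (X - C (ω i))) (hω : Function.Injective ω) :
    A.charpoly.roots.Nodup := by
  have h1 : A.charpoly.roots = Finset.univ.val.map ω := by
    rw [h, Finset.prod_eq_multiset_prod]
    have h2 : (Multiset.map (fun i => X - C (ω i)) (Finset.univ : Finset (Fin r)).val) =
        (Multiset.map (fun a => X - C a) (Finset.univ.val.map ω)) := by
      rw [Multiset.map_map]
      rfl
    rw [h2, roots_multiset_prod_X_sub_C]
  rw [h1]
  exact Multiset.Nodup.map hω Finset.univ.nodup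

/-- A valuation ring of `ℂ` above `p`. -/
theorem exists_V (p : ℕ) (hp : p.Prime) : ∃ V : ValuationSubring ℂ, (p : ℂ) ∈ V.nonunits := by
  let A : Subring ℂ := (Int.castRingHom ℂ).range
  let pA : A := ⟨(p : ℂ), ⟨(p : ℤ), by simp⟩⟩
  have hI : Ideal.span {pA} ≠ ⊤ := by
    intro htop
    rw [Ideal.span_singleton_eq_top] at htop
    obtain ⟨⟨y, n, hn⟩, hy⟩ := htop.exists_right_inv
    have h1 : (p : ℂ) * y = 1 := congrArg Subtype.val hy
    rw [← hn] at h1
    have h2 : (p : ℤ) * n = 1 := by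
      have h3 : (((p : ℤ) * n : ℤ) : ℂ) = ((1 : ℤ) : ℂ) := by
        push_cast
        simpa using h1
      exact_mod_cast h3
    have h4 : IsUnit (p : ℤ) := IsUnit.of_mul_eq_one n h2
    rw [Int.ofNat_isUnit] at h4
    exact hp.one_lt.ne' (Nat.isUnit_iff.mp h4)
  obtain ⟨V, -, hV⟩ := Ideal.image_subset_nonunits_valuationSubring (Ideal.span {pA}) hI
  exact ⟨V, hV ⟨pA, Ideal.mem_span_singleton_self pA, rfl⟩⟩

/-- The ring homomorphism to the residue field. -/
theorem exists_iota (V : ValuationSubring ℂ) (p : ℕ) (hp : p.Prime) (h : (p : ℂ) ∈ V.nonunits) :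
    Nonempty (ZMod p →+* RF V) := by
  have : CharP (RF V) p := Pool.Agent.LibTS.charP_res V p hp h
  exact ⟨ZMod.castHom (dvd_refl p) (RF V)⟩

section rev
variable {K : Type*} [Field K] {r : ℕ} (a : Fin r → K)

theorem natDegree_prod_lin : (∏ i, (X - C (a i)) : K[X]).natDegree = r := by
  rw [natDegree_prod_of_monic _ _ fun i _ => monic_X_sub_C _]
  simp

theorem reverse_prod_lin (s : Finset (Fin r)) :
    (∏ i ∈ s, (X - C (a i)) : K[X]).reverse = ∏ i ∈ s, (1 - C (a i) * X) := by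
  classical
  induction s using Finset.induction_on with
  | empty =>
    simp only [Finset.prod_empty]
    rw [← C_1, reverse_C]
  | insert i s hi ih =>
    rw [Finset.prod_insert hi, Finset.prod_insert hi, reverse_mul_of_domain, ih]
    congr 1
    ext m
    rw [coeff_reverse, natDegree_X_sub_C]
    rcases m with _ | _ | m
    · rw [revAt_le (by omega)]
      simp [coeff_X, coeff_C]
    · rw [revAt_le (by omega)]
      simp [coeff_X, coeff_C, coeff_one]
    · rw [revAt_eq_self_of_lt (by omega)]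
      simp [coeff_X, coeff_C, coeff_one]

variable (b : Fin r → K) (ρ : K)

theorem Q_eq : (C (1 - ρ) * ∏ i, (X - C (a i)) + C ρ * ∏ i, (X - C (b i)) : K[X]) =
    ∏ i, (X - C (a i)) + C ρ * (∏ i, (X - C (b i)) - ∏ i, (X - C (a i))) := by
  rw [map_sub, map_one]
  ring

theorem Q_deg : (C ρ * (∏ i, (X - C (b i)) - ∏ i, (X - C (a i))) : K[X]).degree <
    (∏ i, (X - C (a i)) : K[X]).degree := by
  have ha : (∏ i, (X - C (a i)) : K[X]).Monic := monic_prod_of_monic _ _ fun i _ => monic_X_sub_C _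
  have hb : (∏ i, (X - C (b i)) : K[X]).Monic := monic_prod_of_monic _ _ fun i _ => monic_X_sub_C _
  have hd : (∏ i, (X - C (b i)) : K[X]).degree = (∏ i, (X - C (a i)) : K[X]).degree := by
    rw [degree_eq_natDegree ha.ne_zero, degree_eq_natDegree hb.ne_zero, natDegree_prod_lin,
      natDegree_prod_lin]
  have h1 := degree_sub_lt_left hd hb.ne_zero (by rw [ha.leadingCoeff, hb.leadingCoeff])
  rw [hd] at h1
  refine lt_of_le_of_lt ?_ h1
  refine (degree_mul_le _ _).trans ?_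
  calc (C ρ : K[X]).degree + (∏ i, (X - C (b i)) - ∏ i, (X - C (a i)) : K[X]).degree
      ≤ 0 + (∏ i, (X - C (b i)) - ∏ i, (X - C (a i)) : K[X]).degree := by
        gcongr
        exact degree_C_le
    _ = _ := zero_add _

theorem Q_monic : (C (1 - ρ) * ∏ i, (X - C (a i)) + C ρ * ∏ i, (X - C (b i)) : K[X]).Monic := by
  rw [Q_eq]
  exact (monic_prod_of_monic _ _ fun i _ => monic_X_sub_C _).add_of_left (Q_deg a b ρ)

theorem Q_natDegree :
    (C (1 - ρ) * ∏ i, (X - C (a i)) + C ρ * ∏ i, (X - C (b i)) : K[X]).natDegree = r := by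
  rw [Q_eq]
  have h1 := degree_add_eq_left_of_degree_lt (Q_deg a b ρ)
  rw [natDegree_eq_of_degree_eq h1, natDegree_prod_lin]

theorem Q_reverse :
    (C (1 - ρ) * ∏ i, (X - C (a i)) + C ρ * ∏ i, (X - C (b i)) : K[X]).reverse =
      mdl ρ (Finset.univ.val.map fun i => (a i, b i)) := by
  have h1 : ∀ a : Fin r → K, reflect r (∏ i, (X - C (a i)) : K[X]) = ∏ i, (1 - C (a i) * X) := by
    intro a
    have := reverse_prod_lin a Finset.univ
    unfold reverse at this
    rw [natDegree_prod_lin] at this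
    exact this
  unfold reverse
  rw [Q_natDegree, reflect_add, reflect_C_mul, reflect_C_mul, h1, h1]
  unfold mdl
  rw [Multiset.map_map, Multiset.map_map]
  rfl

end rev

theorem exists_index {F : Type} [Field F] [Fintype F] {n : ℕ} (hn : n.Prime)
    (hF : n ∣ Fintype.card F - 1) :
    ∃ κ : Fˣ →* Multiplicative (ZMod n), ∀ x : Fˣ, κ x = 1 → ∃ y : Fˣ, y ^ n = x := by
  classical
  obtain ⟨g, hg⟩ := IsCyclic.exists_generator (α := Fˣ)
  have hord : orderOf g = Fintype.card F - 1 := by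
    rw [orderOf_eq_card_of_forall_mem_zpowers hg, Nat.card_eq_fintype_card, Fintype.card_units]
  have : NeZero n := ⟨hn.ne_zero⟩
  have h1 : ∀ x : Fˣ, ∃ m : ℤ, g ^ m = x := fun x => by
    obtain ⟨m, hm⟩ := hg x
    exact ⟨m, hm⟩
  choose e he using h1
  have hcong : ∀ a b : ℤ, g ^ a = g ^ b → ((a : ZMod n)) = (b : ZMod n) := by
    intro a b hab
    rw [zpow_eq_zpow_iff_modEq, hord] at hab
    rw [ZMod.intCast_eq_intCast_iff]
    exact hab.of_dvd (by exact_mod_cast hF)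
  refine ⟨MonoidHom.mk' (fun x => Multiplicative.ofAdd ((e x : ℤ) : ZMod n)) ?_, ?_⟩
  · intro x y
    rw [← ofAdd_add, ← Int.cast_add]
    congr 1
    apply hcong
    rw [he, zpow_add, he, he]
  · intro x hx
    have h2 : ((e x : ℤ) : ZMod n) = 0 := by
      have h3 := congrArg Multiplicative.toAdd hx
      exact h3
    rw [ZMod.intCast_zmod_eq_zero_iff_dvd] at h2
    obtain ⟨m, hm⟩ := h2
    refine ⟨g ^ m, ?_⟩
    rw [← he x, hm, ← zpow_natCast, ← zpow_mul, mul_comm]

theorem dvd_of_nonpower {F : Type} [Field F] [Finite F] {l : ℕ} (hl : l.Prime) (c : F)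
    (hc : ∀ y : F, y ^ l ≠ c) : l ∣ Nat.card F - 1 := by
  by_contra h
  have hc0 : c ≠ 0 := by
    intro h
    exact hc 0 (by rw [h, zero_pow hl.ne_zero])
  have h1 : (Nat.card Fˣ).Coprime l := by
    rw [Nat.card_units]
    exact ((Nat.Prime.coprime_iff_not_dvd hl).2 h).symm
  obtain ⟨u, hu⟩ := (powCoprime h1).surjective (Units.mk0 c hc0)
  apply hc (u : F)
  have h2 := congrArg (fun v : Fˣ => (v : F)) hu
  simpa using h2

theorem main_dwork {F : Type} [Field F] [Finite F] {n : ℕ} (hn : n.Prime) (hn2 : n ≠ 2)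
    (c s : F) (hc : ∀ x : F, x ^ n ≠ c)
    (hs : ∀ x : F, x ^ n ≠ s ^ n - (n : F) ^ n * c)
    (A : Matrix (Fin (n - 1)) (Fin (n - 1)) ℂ) (hA : IsDwork F n c s A) :
    A.charpoly.roots.Nodup := by
  classical
  have hF := dvd_of_nonpower hn c hc
  have hn3 : 3 ≤ n := by
    have := hn.two_le
    omega
  have := Fintype.ofFinite F
  have hc0 : c ≠ 0 := by
    intro h
    exact hc 0 (by rw [h, zero_pow hn.ne_zero])
  have he0 : s ^ n - (n : F) ^ n * c ≠ 0 := by
    intro h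
    exact hs 0 (by rw [h, zero_pow hn.ne_zero])
  -- the index homomorphism
  obtain ⟨κ, hκ⟩ : ∃ κ : Fˣ →* Multiplicative (ZMod n), ∀ x : Fˣ, κ x = 1 → ∃ y : Fˣ, y ^ n = x := by
    exact exists_index hn (by rwa [Nat.card_eq_fintype_card] at hF)
  obtain ⟨V, hV⟩ := exists_V n hn
  obtain ⟨ι⟩ := exists_iota V n hn hV
  have h : Ctx n n V (Complex.exp (2 * Real.pi * Complex.I / n)) :=
    ⟨hn, hn2, ⟨0, by simp⟩, Complex.isPrimitiveRoot_exp n hn.ne_zero, hV⟩
  have hκc : κ (Units.mk0 c hc0) ≠ 1 := by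
    intro h1
    obtain ⟨y, hy⟩ := hκ _ h1
    apply hc y
    have := congrArg (fun u : Fˣ => (u : F)) hy
    simpa using this
  have hκe : κ (Units.mk0 _ he0) ≠ 1 := by
    intro h1
    obtain ⟨y, hy⟩ := hκ _ h1
    apply hs y
    have := congrArg (fun u : Fˣ => (u : F)) hy
    simpa using this
  have : Fact n.Prime := ⟨hn⟩
  have hκc' : (κ (Units.mk0 c hc0)).toAdd ≠ 0 := fun h1 => hκc (by
    rw [← ofAdd_toAdd (κ (Units.mk0 c hc0)), h1]; rfl)
  have hκe' : (κ (Units.mk0 _ he0)).toAdd ≠ 0 := fun h1 => hκe (by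
    rw [← ofAdd_toAdd (κ (Units.mk0 _ he0)), h1]; rfl)
  set ρ : ZMod n := (κ (Units.mk0 _ he0)).toAdd / (κ (Units.mk0 c hc0)).toAdd with hρ
  have hρ0 : ρ ≠ 0 := div_ne_zero hκe' hκc'
  have hρ1 : ρ * (κ (Units.mk0 c hc0)).toAdd = (κ (Units.mk0 _ he0)).toAdd :=
    div_mul_cancel₀ _ hκc'
  obtain ⟨ω, hω1, hω2⟩ := exists_eig A
  have hTω : (fun k => (A ^ k).trace) = fun k => ∑ i, ω i ^ k := by
    funext k
    exact hω2 k
  have hf0 : (1 - C ρ * X ^ (n - 1) : (ZMod n)[X]).coeff 0 = 1 := by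
    rw [coeff_sub, coeff_one_zero, coeff_C_mul, coeff_X_pow, if_neg (by omega), mul_zero, sub_zero]
  have hfd : (1 - C ρ * X ^ (n - 1) : (ZMod n)[X]).natDegree ≤ n - 1 := by
    refine (natDegree_sub_le _ _).trans (max_le (by simp) (natDegree_C_mul_X_pow_le _ _))
  obtain ⟨g, hg1, hg2⟩ := newton_res h ι (n - 1) (by omega) ω (1 - C ρ * X ^ (n - 1)) hf0 hfd (by
    intro j hj hjn
    have := dwork_lead h ι hF κ (Units.mk0 c hc0) hκc s (Units.mk0 _ he0) rfl ρ hρ1 A hA j hj hjn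
    rw [hTω] at this
    exact this)
  refine nodup_of_injective A ω hω1 ?_
  have hQd : (X ^ (n - 1) - C ρ : (ZMod n)[X]).natDegree = n - 1 := natDegree_X_pow_sub_C
  refine injective_of_newton h ι (n - 1) ω (X ^ (n - 1) - C ρ) hQd ?_ g hg1 ?_
  · apply Separable.map
    apply separable_X_pow_sub_C ρ ?_ hρ0
    intro h1
    rw [ZMod.natCast_eq_zero_iff] at h1
    exact absurd (Nat.le_of_dvd (by omega) h1) (by omega)
  · rw [hg2]
    congr 1
    unfold reverse
    rw [hQd, reflect_sub, reflect_C, ← one_mul (X ^ (n - 1) : (ZMod n)[X]), ← C_1,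
      reflect_C_mul_X_pow, revAt_le (le_refl _)]
    simp

theorem prim_of_nonpower {F : Type} [Field F] [Finite F] {l e : ℕ} (hl : l.Prime)
    (χ : MulChar F ℂ) (hχ : orderOf χ = l ^ (e + 1)) (c : F) (hc : ∀ y : F, y ^ l ≠ c) :
    IsPrimitiveRoot (χ c) (l ^ (e + 1)) := by
  have hF : Fact l.Prime := ⟨hl⟩
  have hc0 : c ≠ 0 := by
    intro h
    exact hc 0 (by rw [h, zero_pow hl.ne_zero])
  obtain ⟨g, hg⟩ := IsCyclic.exists_monoid_generator (α := Fˣ)
  have hall : ∀ u : Fˣ, χ (u : F) ^ l ^ (e + 1) = 1 := by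
    intro u
    rw [← MulChar.pow_apply_coe, ← hχ, pow_orderOf_eq_one, MulChar.one_apply_coe]
  have hgen : ¬ χ (g : F) ^ l ^ e = 1 := by
    intro h1
    have h2 : χ ^ l ^ e = 1 := by
      ext u
      obtain ⟨k, hk⟩ := hg u
      have hk' : g ^ k = u := hk
      rw [MulChar.pow_apply_coe, MulChar.one_apply_coe, ← hk', Units.val_pow_eq_pow_val, map_pow,
        ← pow_mul, mul_comm, pow_mul, h1, one_pow]
    have h3 := orderOf_dvd_of_pow_eq_one h2
    rw [hχ, Nat.pow_dvd_pow_iff_le_right hl.one_lt] at h3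
    omega
  have hord : orderOf (χ (g : F)) = l ^ (e + 1) := orderOf_eq_prime_pow hgen (hall g)
  obtain ⟨m, hm⟩ := hg (Units.mk0 c hc0)
  have hm' : g ^ m = Units.mk0 c hc0 := hm
  have hcm : χ c = χ (g : F) ^ m := by
    rw [← map_pow, ← Units.val_pow_eq_pow_val, hm', Units.val_mk0]
  rw [IsPrimitiveRoot.iff_orderOf]
  apply orderOf_eq_prime_pow
  · intro h1
    rw [hcm, ← pow_mul] at h1
    have h2 := orderOf_dvd_of_pow_eq_one h1
    rw [hord, pow_succ, mul_comm m] at h2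
    have h3 : l ∣ m := Nat.dvd_of_mul_dvd_mul_left (pow_pos hl.pos e) h2
    obtain ⟨m', rfl⟩ := h3
    apply hc ((g ^ m' : Fˣ) : F)
    rw [← Units.val_pow_eq_pow_val, ← pow_mul, mul_comm, hm', Units.val_mk0]
  · have h1 := hall (Units.mk0 c hc0)
    rwa [Units.val_mk0] at h1

theorem main_hyp {F : Type} [Field F] [Finite F] {l e : ℕ} (hl : l.Prime) (hl2 : l ≠ 2)
    (χ : MulChar F ℂ) (hχ : orderOf χ = l ^ (e + 1)) (c x : F) (hc : ∀ y : F, y ^ l ≠ c)
    (ρ : ℕ) (hρ : 1 - c = c ^ ρ * x ^ l) {r : ℕ} (hr : r < l) (hr8 : r ≤ 8) (a b : Fin r → ℤ)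
    (hsep : (C (1 - (ρ : ZMod l)) * ∏ i, (X - C (a i : ZMod l)) +
      C (ρ : ZMod l) * ∏ i, (X - C (b i : ZMod l)) : (ZMod l)[X]).Separable)
    (A : Matrix (Fin r) (Fin r) ℂ) (hA : IsHyp χ a b c A) : A.charpoly.roots.Nodup := by
  classical
  have : Fact l.Prime := ⟨hl⟩
  obtain ⟨ω, hω1, hω2⟩ := exists_eig A
  refine nodup_of_injective A ω hω1 ?_
  have hc0 : c ≠ 0 := by
    intro h
    exact hc 0 (by rw [h, zero_pow hl.ne_zero])
  have hc1 : c ≠ 1 := by
    intro h
    exact hc 1 (by rw [h, one_pow])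
  have hprim := prim_of_nonpower hl χ hχ c hc
  obtain ⟨n, hn⟩ : ∃ n, n = l ^ (e + 1) := ⟨_, rfl⟩
  rw [← hn] at hχ hprim
  obtain ⟨V, hV⟩ := exists_V l hl
  have h : Ctx l n V (χ c) := ⟨hl, hl2, ⟨e, hn⟩, hprim, hV⟩
  have hnz : NeZero n := ⟨h.ne_zero⟩
  obtain ⟨κ⟩ := exists_iota V l hl hV
  obtain ⟨π, hπ⟩ : ∃ π : ZMod n →+* ZMod l, π = ZMod.castHom h.dvd (ZMod l) := ⟨_, rfl⟩
  obtain ⟨𝓔⟩ := exists_tow F
  -- the exponent of `1 - c`
  obtain ⟨ρ', hρ'1, hρ'2⟩ : ∃ ρ' : ZMod n, χ (1 - c) = χ c ^ ρ'.val ∧ π ρ' = (ρ : ZMod l) := by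
    have hx0 : x ≠ 0 := by
      rintro rfl
      rw [zero_pow hl.ne_zero, mul_zero, sub_eq_zero] at hρ
      exact hc1 hρ.symm
    have hxn : χ x ^ n = 1 := by
      have h1 := MulChar.pow_apply_coe χ n (Units.mk0 x hx0)
      rw [Units.val_mk0] at h1
      rw [← h1, ← hχ, pow_orderOf_eq_one]
      exact MulChar.one_apply_coe (Units.mk0 x hx0)
    obtain ⟨t, -, ht⟩ := hprim.eq_pow_of_pow_eq_one hxn
    refine ⟨((ρ + t * l : ℕ) : ZMod n), ?_, ?_⟩
    · rw [hρ, map_mul, map_pow, map_pow, ← ht, ← pow_mul, ← pow_add, ZMod.val_natCast]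
      exact pow_eq_pow_mod _ hprim.pow_eq_one
    · rw [map_natCast]
      push_cast
      rw [ZMod.natCast_self]
      ring
  have hT : ∀ k, 0 < k → T 𝓔 χ (Units.mk0 c hc0)
      (Finset.univ.val.map fun i => ((a i : ZMod n), (b i : ZMod n))) k = (A ^ k).trace := by
    intro k hk
    have h1 := hA (𝓔.E k)
    rw [𝓔.rank k hk] at h1
    rw [h1]
    have h2 := hsum_eq χ h.ne_zero hχ a b (Units.mk0 c hc0) (𝓔.E k)
    rw [Units.val_mk0] at h2
    rw [h2, T, if_neg hk.ne']
    rw [Multiset.card_map, Finset.card_val, Finset.card_fin, pow_succ]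
    ring
  have hlead : ∀ j, j ≤ r → Lead V (χ c - 1) j
      (dj (T 𝓔 χ (Units.mk0 c hc0)
        (Finset.univ.val.map fun i => ((a i : ZMod n), (b i : ZMod n)))) j)
      (κ.comp π (pL ρ' (Finset.univ.val.map fun i => ((a i : ZMod n), (b i : ZMod n))) j)) :=
    fun j hj => lead_T h (κ.comp π) 𝓔 χ (Units.mk0 c hc0) hχ rfl hc1 ρ' hρ'1 r hr
      (fun L hL3 hLr _ => by nlinarith) _ j hj
  have hTω : T 𝓔 χ (Units.mk0 c hc0)
      (Finset.univ.val.map fun i => ((a i : ZMod n), (b i : ZMod n))) =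
      fun k => ∑ i, ω i ^ k := by
    funext k
    rcases Nat.eq_zero_or_pos k with rfl | hk
    · simp [T]
    · rw [hT k hk, hω2]
  have hmap : (mdl ρ' (Finset.univ.val.map fun i => ((a i : ZMod n), (b i : ZMod n)))).map π =
      mdl (ρ : ZMod l) (Finset.univ.val.map fun i => ((a i : ZMod l), (b i : ZMod l))) := by
    rw [mdl_map, hρ'2, Multiset.map_map]
    congr 2
    funext i
    simp only [Function.comp_def, map_intCast]
  obtain ⟨g, hg1, hg2⟩ := newton_res h (κ.comp π) r hr ω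
    (mdl ρ' (Finset.univ.val.map fun i => ((a i : ZMod n), (b i : ZMod n))))
    (mdl_coeff_zero ρ' _) ((natDegree_mdl_le ρ' _).trans
      (by rw [Multiset.card_map, Finset.card_val, Finset.card_fin])) (by
      intro j hj hjr
      have h1 := hlead j hjr
      rw [hTω] at h1
      have h2 : pL ρ' (Finset.univ.val.map fun i => ((a i : ZMod n), (b i : ZMod n))) j =
          PowerSeries.coeff j (lp (mdl ρ'
            (Finset.univ.val.map fun i => ((a i : ZMod n), (b i : ZMod n))))) := by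
        rw [pL, if_neg (by omega)]
      rw [h2] at h1
      exact h1)
  refine injective_of_newton h κ r ω _ (Q_natDegree (fun i => (a i : ZMod l))
    (fun i => (b i : ZMod l)) (ρ : ZMod l)) hsep.map g hg1 ?_
  rw [hg2, Q_reverse, ← hmap, Polynomial.map_map]

end Pool.Agent.LibPR30
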